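import Pool.Agent.Lib_helper97.TRL.M42

/-!
# AQ (MP_892e4c_nt): sums over primes of a real nonprincipal character (helper15)
-/

set_option autoImplicit false

namespace Pool.Agent.AQM

open Filter Topology Pool.Agent.TR

/-- the partial sums of `L(1, c)` -/
noncomputable def TT (c : ℕ → ℝ) (x : ℕ) : ℝ := ∑ i ∈ Finset.Ioc 0 x, c i * (1 / (i : ℝ))

/-- a real nonprincipal character -/
structure Ch (c : ℕ → ℝ) (B : ℝ) : Prop where
  mul : ∀ m n : ℕ, c (m * n) = c m * c n
  abs : ∀ n : ℕ, |c n| ≤ 1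
  sum : ∀ k n : ℕ, k ≤ n → |∑ i ∈ Finset.Ioc k n, c i| ≤ B
  low : ∃ δ : ℝ, 0 < δ ∧ ∃ x₀ : ℕ, ∀ x ≥ x₀, δ ≤ |TT c x|

variable {c : ℕ → ℝ} {B : ℝ}

theorem abel (h0 : 0 ≤ B) (hs : ∀ k n : ℕ, k ≤ n → |∑ i ∈ Finset.Ioc k n, c i| ≤ B)
    (g : ℕ → ℝ) (k : ℕ) (hg : ∀ n, k + 1 ≤ n → g (n + 1) ≤ g n)
    (hg0 : ∀ n, k + 1 ≤ n → 0 ≤ g n) (n : ℕ) (hn : k ≤ n) :
    |∑ i ∈ Finset.Ioc k n, c i * g i| ≤ B * g (k + 1) := by
  rcases Nat.eq_or_lt_of_le hn with rfl | hn
  · rw [Finset.Ioc_self, Finset.sum_empty, abs_zero]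
    exact mul_nonneg h0 (hg0 _ le_rfl)
  · have key : ∀ n, k + 1 ≤ n → |∑ i ∈ Finset.Ioc k n, c i * g i -
        (∑ i ∈ Finset.Ioc k n, c i) * g n| ≤ B * (g (k + 1) - g n) := by
      intro n hn
      induction n, hn using Nat.le_induction with
      | base =>
        rw [Finset.sum_Ioc_succ_top le_rfl, Finset.sum_Ioc_succ_top le_rfl, Finset.Ioc_self,
          Finset.sum_empty, Finset.sum_empty, zero_add, zero_add, sub_self, abs_zero, sub_self,
          mul_zero]
      | succ n hn ih =>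
        rw [Finset.sum_Ioc_succ_top (by omega), Finset.sum_Ioc_succ_top (by omega)]
        have e1 : ∑ i ∈ Finset.Ioc k n, c i * g i + c (n + 1) * g (n + 1) -
            (∑ i ∈ Finset.Ioc k n, c i + c (n + 1)) * g (n + 1) =
            (∑ i ∈ Finset.Ioc k n, c i * g i - (∑ i ∈ Finset.Ioc k n, c i) * g n) +
            (∑ i ∈ Finset.Ioc k n, c i) * (g n - g (n + 1)) := by ring
        rw [e1]
        refine (abs_add_le _ _).trans ?_
        have e2 : |(∑ i ∈ Finset.Ioc k n, c i) * (g n - g (n + 1))| ≤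
            B * (g n - g (n + 1)) := by
          rw [abs_mul, abs_of_nonneg (sub_nonneg.2 (hg n hn))]
          exact mul_le_mul_of_nonneg_right (hs _ _ (by omega)) (sub_nonneg.2 (hg n hn))
        linarith
    have h1 := key n hn
    have h2 : |(∑ i ∈ Finset.Ioc k n, c i) * g n| ≤ B * g n := by
      rw [abs_mul, abs_of_nonneg (hg0 n hn)]
      exact mul_le_mul_of_nonneg_right (hs _ _ (by omega)) (hg0 n hn)
    have h3 : ∑ i ∈ Finset.Ioc k n, c i * g i =
        (∑ i ∈ Finset.Ioc k n, c i * g i - (∑ i ∈ Finset.Ioc k n, c i) * g n) +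
        (∑ i ∈ Finset.Ioc k n, c i) * g n := by ring
    rw [h3]
    refine (abs_add_le _ _).trans ?_
    linarith

theorem TT_diff (h0 : 0 ≤ B) (hs : ∀ k n : ℕ, k ≤ n → |∑ i ∈ Finset.Ioc k n, c i| ≤ B)
    {k n : ℕ} (hk : k ≤ n) : |TT c n - TT c k| ≤ B / ((k : ℝ) + 1) := by
  have h1 := Finset.sum_Ioc_consecutive (fun i : ℕ => c i * (1 / (i : ℝ))) (Nat.zero_le k) hk
  have h2 : TT c n - TT c k = ∑ i ∈ Finset.Ioc k n, c i * (1 / (i : ℝ)) := by
    unfold TT
    rw [← h1]
    ring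
  rw [h2]
  have h3 := abel h0 hs (fun i : ℕ => 1 / (i : ℝ)) k (fun m hm => by
    have hm0 : (0 : ℝ) < m := by exact_mod_cast (by omega : 0 < m)
    apply one_div_le_one_div_of_le hm0
    push_cast
    linarith) (fun m _ => by positivity) n hk
  refine h3.trans (le_of_eq ?_)
  push_cast
  ring

theorem log_sum (h0 : 0 ≤ B) (ha : ∀ n : ℕ, |c n| ≤ 1)
    (hs : ∀ k n : ℕ, k ≤ n → |∑ i ∈ Finset.Ioc k n, c i| ≤ B) (x : ℕ) :
    |∑ i ∈ Finset.Ioc 0 x, c i * (Real.log i / i)| ≤ 3 + B := by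
  have hb : ∀ i : ℕ, 1 ≤ i → |c i * (Real.log i / i)| ≤ 1 := by
    intro i hi
    have hi0 : (0 : ℝ) < i := by exact_mod_cast hi
    have h0 : 0 ≤ Real.log i / i := div_nonneg (Real.log_natCast_nonneg i) hi0.le
    rw [abs_mul, abs_of_nonneg h0]
    have h1 : Real.log i / i ≤ 1 := by
      rw [div_le_one hi0]
      have := Real.log_le_sub_one_of_pos hi0
      linarith
    calc |c i| * (Real.log i / i) ≤ 1 * 1 :=
          mul_le_mul (ha i) h1 h0 zero_le_one
      _ = 1 := one_mul 1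
  have hs3 : ∀ y : ℕ, y ≤ 3 → |∑ i ∈ Finset.Ioc 0 y, c i * (Real.log i / i)| ≤ 3 := by
    intro y hy
    calc |∑ i ∈ Finset.Ioc 0 y, c i * (Real.log i / i)| ≤
          ∑ i ∈ Finset.Ioc 0 y, |c i * (Real.log i / i)| := Finset.abs_sum_le_sum_abs _ _
      _ ≤ ∑ i ∈ Finset.Ioc 0 y, (1 : ℝ) := Finset.sum_le_sum fun i hi =>
          hb i (Finset.mem_Ioc.1 hi).1
      _ = y := by rw [Finset.sum_const, Nat.card_Ioc, nsmul_eq_mul, mul_one, Nat.sub_zero]
      _ ≤ 3 := by exact_mod_cast hy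
  rcases Nat.lt_or_ge x 3 with hx | hx
  · exact (hs3 x hx.le).trans (by linarith)
  · rw [← Finset.sum_Ioc_consecutive _ (Nat.zero_le 3) hx]
    refine (abs_add_le _ _).trans ?_
    have h1 := hs3 3 le_rfl
    have hg0 : ∀ m : ℕ, 3 + 1 ≤ m → 0 ≤ Real.log (m : ℝ) / m := fun m _ =>
      div_nonneg (Real.log_natCast_nonneg m) (Nat.cast_nonneg m)
    have h2 := abel h0 hs (fun i : ℕ => Real.log i / i) 3 (fun m hm => by
      have hm4 : (4 : ℝ) ≤ m := by exact_mod_cast hm
      have he := Real.exp_one_lt_d9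
      apply Real.log_div_self_antitoneOn
      · rw [Set.mem_Ici]
        linarith
      · rw [Set.mem_Ici]
        push_cast
        linarith
      · push_cast
        linarith) hg0 x hx
    have h3 : Real.log ((3 + 1 : ℕ) : ℝ) / ((3 + 1 : ℕ) : ℝ) ≤ 1 := by
      rw [div_le_one (by norm_num)]
      have := Real.log_le_sub_one_of_pos (x := ((3 + 1 : ℕ) : ℝ)) (by norm_num)
      linarith
    have h4 := mul_le_mul_of_nonneg_left h3 h0
    linarith

/-- the arithmetic function `c Λ / id` -/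
noncomputable def aF (c : ℕ → ℝ) : ArithmeticFunction ℝ :=
  ⟨fun n => c n * (ArithmeticFunction.vonMangoldt n / n), by simp⟩

/-- the arithmetic function `c / id` -/
noncomputable def aH (c : ℕ → ℝ) : ArithmeticFunction ℝ :=
  ⟨fun n => c n * (1 / (n : ℝ)), by simp⟩

theorem conv (hm : ∀ m n : ℕ, c (m * n) = c m * c n) (n : ℕ) :
    (aF c * aH c) n = c n * (Real.log n / n) := by
  rcases Nat.eq_zero_or_pos n with h0 | h0
  · rw [h0, ArithmeticFunction.map_zero, Nat.cast_zero, Real.log_zero]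
    ring
  rw [ArithmeticFunction.mul_apply,
    Nat.sum_divisorsAntidiagonal (f := fun a b => aF c a * aH c b),
    ← ArithmeticFunction.vonMangoldt_sum, Finset.sum_div, Finset.mul_sum]
  apply Finset.sum_congr rfl
  intro d hd
  have hdn := Nat.dvd_of_mem_divisors hd
  obtain ⟨m, rfl⟩ := hdn
  have hd0 : 0 < d := Nat.pos_of_ne_zero (by
    rintro rfl
    simp at h0)
  have hm0 : 0 < m := Nat.pos_of_ne_zero (by
    rintro rfl
    simp at h0)
  rw [Nat.mul_div_cancel_left m hd0]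
  show c d * (ArithmeticFunction.vonMangoldt d / d) * (c m * (1 / (m : ℝ))) = _
  rw [hm]
  have hd1 : (d : ℝ) ≠ 0 := by exact_mod_cast hd0.ne'
  have hm1 : (m : ℝ) ≠ 0 := by exact_mod_cast hm0.ne'
  push_cast
  field_simp

/-- `T(x) S(x)` is bounded -/
theorem TS (h0 : 0 ≤ B) (hm : ∀ m n : ℕ, c (m * n) = c m * c n) (ha : ∀ n : ℕ, |c n| ≤ 1)
    (hs : ∀ k n : ℕ, k ≤ n → |∑ i ∈ Finset.Ioc k n, c i| ≤ B) (x : ℕ) (hx : 1 ≤ x) :
    |TT c x * ∑ n ∈ Finset.Ioc 0 x, c n * (ArithmeticFunction.vonMangoldt n / n)| ≤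
      (3 + B) + B * (Real.log 4 + 4) := by
  have hx0 : (0 : ℝ) < x := by exact_mod_cast hx
  set S := ∑ n ∈ Finset.Ioc 0 x, c n * (ArithmeticFunction.vonMangoldt n / n) with hS
  have h1 : ∑ n ∈ Finset.Ioc 0 x, c n * (Real.log n / n) =
      ∑ n ∈ Finset.Ioc 0 x, c n * (ArithmeticFunction.vonMangoldt n / n) * TT c (x / n) := by
    have h2 := ArithmeticFunction.sum_Ioc_mul_eq_sum_sum (aF c) (aH c) x
    rw [Finset.sum_congr rfl (fun n _ => conv hm n)] at h2
    exact h2
  have h2 : TT c x * S = ∑ n ∈ Finset.Ioc 0 x, c n * (Real.log n / n) +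
      ∑ n ∈ Finset.Ioc 0 x, c n * (ArithmeticFunction.vonMangoldt n / n) *
        (TT c x - TT c (x / n)) := by
    rw [h1, ← Finset.sum_add_distrib, hS, Finset.mul_sum]
    apply Finset.sum_congr rfl
    intro n _
    ring
  have h3 : |∑ n ∈ Finset.Ioc 0 x, c n * (ArithmeticFunction.vonMangoldt n / n) *
      (TT c x - TT c (x / n))| ≤ B * (Real.log 4 + 4) := by
    calc |∑ n ∈ Finset.Ioc 0 x, c n * (ArithmeticFunction.vonMangoldt n / n) *
          (TT c x - TT c (x / n))| ≤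
          ∑ n ∈ Finset.Ioc 0 x, |c n * (ArithmeticFunction.vonMangoldt n / n) *
          (TT c x - TT c (x / n))| := Finset.abs_sum_le_sum_abs _ _
      _ ≤ ∑ n ∈ Finset.Ioc 0 x, B * (ArithmeticFunction.vonMangoldt n / x) := by
        apply Finset.sum_le_sum
        intro n hn
        rw [Finset.mem_Ioc] at hn
        have hn0 : (0 : ℝ) < n := by exact_mod_cast hn.1
        have hL : 0 ≤ ArithmeticFunction.vonMangoldt n := ArithmeticFunction.vonMangoldt_nonneg
        have e1 : |c n * (ArithmeticFunction.vonMangoldt n / n)| ≤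
            ArithmeticFunction.vonMangoldt n / n := by
          rw [abs_mul, abs_of_nonneg (div_nonneg hL hn0.le)]
          exact mul_le_of_le_one_left (div_nonneg hL hn0.le) (ha n)
        have e2 : |TT c x - TT c (x / n)| ≤ B * (n / x) := by
          refine (TT_diff h0 hs (Nat.div_le_self x n)).trans ?_
          rw [div_eq_mul_one_div]
          apply mul_le_mul_of_nonneg_left _ h0
          rw [div_le_div_iff₀ (by positivity) hx0, one_mul]
          have h5 : x < n * (x / n + 1) := by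
            have := Nat.lt_mul_div_succ x hn.1
            exact this
          have h6 : (x : ℝ) ≤ n * (((x / n : ℕ) : ℝ) + 1) := by exact_mod_cast h5.le
          exact h6
        rw [abs_mul]
        calc |c n * (ArithmeticFunction.vonMangoldt n / n)| * |TT c x - TT c (x / n)| ≤
              (ArithmeticFunction.vonMangoldt n / n) * (B * (n / x)) :=
              mul_le_mul e1 e2 (abs_nonneg _) (div_nonneg hL hn0.le)
          _ = B * (ArithmeticFunction.vonMangoldt n / x) := by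
            field_simp
      _ = B * ((∑ n ∈ Finset.Ioc 0 x, ArithmeticFunction.vonMangoldt n) / x) := by
        rw [Finset.sum_div, Finset.mul_sum]
      _ ≤ B * (Real.log 4 + 4) := by
        apply mul_le_mul_of_nonneg_left _ h0
        rw [div_le_iff₀ hx0]
        exact m4_psi x
  have h4 := log_sum h0 ha hs x
  rw [h2]
  exact (abs_add_le _ _).trans (add_le_add h4 h3)

/-- the primes, twisted by the character -/
theorem primes_tw (hB : 0 ≤ B) (h : Ch c B) : ∃ C : ℝ, 0 ≤ C ∧ ∀ x : ℕ, 1 ≤ x →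
    |∑ p ∈ (Finset.Icc 1 x).filter Nat.Prime, c p * (Real.log p / (p : ℝ))| ≤ C := by
  obtain ⟨δ, hδ, x₀, hl⟩ := h.low
  obtain ⟨C0, hC0⟩ := Pool.Agent.BG4.mertens_one
  have hl4 : 0 ≤ Real.log 4 := Real.log_nonneg (by norm_num)
  have hlx0 : 0 ≤ Real.log (max x₀ 1 : ℕ) := Real.log_natCast_nonneg _
  refine ⟨((3 + B) + B * (Real.log 4 + 4)) / δ + (Real.log (max x₀ 1 : ℕ) + (Real.log 4 + 4)) +
    (|C0| + (Real.log 4 + 4)), by positivity, fun x hx => ?_⟩
  have hS : |∑ n ∈ Finset.Ioc 0 x, c n * (ArithmeticFunction.vonMangoldt n / n)| ≤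
      ((3 + B) + B * (Real.log 4 + 4)) / δ + (Real.log (max x₀ 1 : ℕ) + (Real.log 4 + 4)) := by
    rcases le_or_gt x₀ x with h1 | h1
    · have h2 := TS hB h.mul h.abs h.sum x hx
      rw [abs_mul] at h2
      have h3 := mul_le_mul_of_nonneg_right (hl x h1)
        (abs_nonneg (∑ n ∈ Finset.Ioc 0 x, c n * (ArithmeticFunction.vonMangoldt n / n)))
      have h4 : |∑ n ∈ Finset.Ioc 0 x, c n * (ArithmeticFunction.vonMangoldt n / n)| ≤
          ((3 + B) + B * (Real.log 4 + 4)) / δ := by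
        rw [le_div_iff₀ hδ]
        linarith
      linarith
    · have h2 := m4_vM x hx
      have h3 : |∑ n ∈ Finset.Ioc 0 x, c n * (ArithmeticFunction.vonMangoldt n / n)| ≤
          ∑ n ∈ Finset.Ioc 0 x, ArithmeticFunction.vonMangoldt n / (n : ℝ) := by
        refine (Finset.abs_sum_le_sum_abs _ _).trans (Finset.sum_le_sum fun n _ => ?_)
        have hL : 0 ≤ ArithmeticFunction.vonMangoldt n / (n : ℝ) :=
          div_nonneg ArithmeticFunction.vonMangoldt_nonneg (Nat.cast_nonneg n)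
        rw [abs_mul, abs_of_nonneg hL]
        exact mul_le_of_le_one_left hL (h.abs n)
      have h4 : Real.log x ≤ Real.log (max x₀ 1 : ℕ) := by
        apply Real.log_le_log (by exact_mod_cast hx)
        exact_mod_cast h1.le.trans (le_max_left _ _)
      have h5 : 0 ≤ ((3 + B) + B * (Real.log 4 + 4)) / δ := by positivity
      linarith
  have hIcc : Finset.Icc 1 x = Finset.Ioc 0 x := rfl
  have hM : |∑ p ∈ (Finset.Icc 1 x).filter Nat.Prime, Real.log p / (p : ℝ) - Real.log x| ≤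
      |C0| := by
    have h1 := hC0 x hx
    refine le_trans ?_ (le_abs_self C0)
    convert h1 using 3
  have hvp : ∀ p : ℕ, p.Prime → ArithmeticFunction.vonMangoldt p = Real.log p := fun p hp =>
    ArithmeticFunction.vonMangoldt_apply_prime hp
  have hsplit : ∀ g : ℕ → ℝ, ∑ n ∈ Finset.Ioc 0 x, g n *
      (ArithmeticFunction.vonMangoldt n / n) =
      ∑ p ∈ (Finset.Icc 1 x).filter Nat.Prime, g p * (Real.log p / (p : ℝ)) +
      ∑ p ∈ (Finset.Icc 1 x).filter (fun n => ¬ n.Prime), g p *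
        (ArithmeticFunction.vonMangoldt p / p) := by
    intro g
    rw [← hIcc, ← Finset.sum_filter_add_sum_filter_not (Finset.Icc 1 x) Nat.Prime]
    congr 1
    apply Finset.sum_congr rfl
    intro p hp
    rw [Finset.mem_filter] at hp
    rw [hvp p hp.2]
  have hrest : ∑ p ∈ (Finset.Icc 1 x).filter (fun n => ¬ n.Prime),
      (ArithmeticFunction.vonMangoldt p / (p : ℝ)) ≤ |C0| + (Real.log 4 + 4) := by
    have h1 := hsplit (fun _ => 1)
    simp only [one_mul] at h1
    have h2 := m4_vM x hx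
    have h3 := (abs_le.1 hM).1
    linarith
  have h1 := hsplit c
  have h3 : |∑ p ∈ (Finset.Icc 1 x).filter (fun n => ¬ n.Prime), c p *
      (ArithmeticFunction.vonMangoldt p / p)| ≤ |C0| + (Real.log 4 + 4) := by
    refine (Finset.abs_sum_le_sum_abs _ _).trans (le_trans (Finset.sum_le_sum fun p hp => ?_) hrest)
    have hL : 0 ≤ ArithmeticFunction.vonMangoldt p := ArithmeticFunction.vonMangoldt_nonneg
    have hL2 : 0 ≤ ArithmeticFunction.vonMangoldt p / (p : ℝ) :=
      div_nonneg hL (Nat.cast_nonneg p)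
    rw [abs_mul, abs_of_nonneg hL2]
    exact mul_le_of_le_one_left hL2 (h.abs p)
  have h4 : ∑ p ∈ (Finset.Icc 1 x).filter Nat.Prime, c p * (Real.log p / (p : ℝ)) =
      ∑ n ∈ Finset.Ioc 0 x, c n * (ArithmeticFunction.vonMangoldt n / n) -
      ∑ p ∈ (Finset.Icc 1 x).filter (fun n => ¬ n.Prime), c p *
      (ArithmeticFunction.vonMangoldt p / p) := by
    rw [h1]
    ring
  rw [h4]
  exact (abs_sub _ _).trans (add_le_add hS h3)

end Pool.Agent.AQM
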