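import Pool.Agent.Lib_helper15.AQ.Mer1
import Pool.Agent.Lib_helper39.RCA.OFF

/-!
# AQ (MP_892e4c_nt): the quadratic character of a nonsquare `D` (helper15)
-/

set_option autoImplicit false

namespace Pool.Agent.AQM

open Filter Topology

/-- the quadratic character `n ↦ (D/n)` on the `n` prime to `N` -/
noncomputable def cJ (D : ℤ) (N : ℕ) (n : ℕ) : ℤ := if n.Coprime N then jacobiSym D n else 0

theorem cJ_abs (D : ℤ) (N n : ℕ) : |((cJ D N n : ℤ) : ℝ)| ≤ 1 := by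
  unfold cJ
  split_ifs
  · rcases jacobiSym.trichotomy D n with h | h | h <;> rw [h] <;> norm_num
  · norm_num

theorem cJ_mul {D : ℤ} {N : ℕ} (hN : 1 < N) (m n : ℕ) : cJ D N (m * n) = cJ D N m * cJ D N n := by
  unfold cJ
  by_cases hm : m.Coprime N
  · by_cases hn : n.Coprime N
    · have hm0 : m ≠ 0 := by
        rintro rfl
        rw [Nat.coprime_zero_left] at hm
        omega
      have hn0 : n ≠ 0 := by
        rintro rfl
        rw [Nat.coprime_zero_left] at hn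
        omega
      rw [if_pos hm, if_pos hn, if_pos (Nat.Coprime.mul_left hm hn),
        jacobiSym.mul_right' _ hm0 hn0]
    · rw [if_neg hn, if_neg (fun h => hn (Nat.coprime_mul_iff_left.1 h).2), mul_zero]
  · rw [if_neg hm, if_neg (fun h => hm (Nat.coprime_mul_iff_left.1 h).1), zero_mul]

theorem cJ_odd {N n : ℕ} {D : ℤ} (hD : 4 * D.natAbs ∣ N) (h : n.Coprime N) : Odd n := by
  have h2 : 2 ∣ N := dvd_trans ⟨2 * D.natAbs, by ring⟩ hD
  rw [← Nat.not_even_iff_odd, even_iff_two_dvd]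
  intro h3
  have := Nat.dvd_gcd h3 h2
  rw [h] at this
  omega

theorem cJ_mod {D : ℤ} {N : ℕ} (hD : 4 * D.natAbs ∣ N) (n : ℕ) : cJ D N (n % N) = cJ D N n := by
  have h1 : (n % N).Coprime N ↔ n.Coprime N := by
    unfold Nat.Coprime
    rw [← Nat.gcd_rec N n, Nat.gcd_comm]
  unfold cJ
  by_cases h : n.Coprime N
  · rw [if_pos h, if_pos (h1.2 h), jacobiSym.mod_right D (cJ_odd hD h),
      jacobiSym.mod_right D (cJ_odd hD (h1.2 h)), Nat.mod_mod_of_dvd _ hD]
  · rw [if_neg h, if_neg (fun h' => h (h1.1 h'))]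

/-- the Dirichlet character -/
noncomputable def chi {D : ℤ} {N : ℕ} (hD : 4 * D.natAbs ∣ N) (hN : 1 < N) :
    DirichletCharacter ℂ N where
  toFun x := ((cJ D N x.val : ℤ) : ℂ)
  map_one' := by
    have : Fact (1 < N) := ⟨hN⟩
    rw [ZMod.val_one]
    simp [cJ]
  map_mul' x y := by
    have : NeZero N := ⟨by omega⟩
    rw [ZMod.val_mul, cJ_mod hD, cJ_mul hN]
    push_cast
    ring
  map_nonunit' x hx := by
    have : NeZero N := ⟨by omega⟩
    have h1 : ¬ x.val.Coprime N := by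
      intro h
      apply hx
      have := (ZMod.isUnit_iff_coprime x.val N).2 h
      rwa [ZMod.natCast_zmod_val] at this
    rw [cJ, if_neg h1]
    simp

theorem chi_nat {D : ℤ} {N : ℕ} (hD : 4 * D.natAbs ∣ N) (hN : 1 < N) (n : ℕ) :
    chi hD hN (n : ZMod N) = ((cJ D N n : ℤ) : ℂ) := by
  show ((cJ D N (n : ZMod N).val : ℤ) : ℂ) = _
  rw [ZMod.val_natCast, cJ_mod hD]

/-- a value `-1` -/
theorem exists_neg {D : ℤ} (hD : ¬ IsSquare D) : ∃ m : ℕ, Odd m ∧ jacobiSym D m = -1 := by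
  rcases lt_or_ge D 0 with h | h
  · -- negative
    obtain ⟨M, hM⟩ : ∃ M : ℕ, D = -(M : ℤ) := ⟨D.natAbs, by omega⟩
    have hM0 : 1 ≤ M := by omega
    have ho : Odd (4 * M - 1) := by
      rw [Nat.odd_iff]; omega
    refine ⟨4 * M - 1, ho, ?_⟩
    have h4 : (4 * M - 1) % 4 = 3 := by omega
    have e : D = -1 * (M : ℤ) := by rw [hM]; ring
    rw [e, jacobiSym.mul_left]
    have h1 : jacobiSym (-1) (4 * M - 1) = -1 := by
      rw [jacobiSym.at_neg_one ho, ZMod.χ₄_nat_three_mod_four h4]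
    have h2 : jacobiSym (M : ℤ) (4 * M - 1) = 1 := by
      have h3 : jacobiSym ((2 : ℤ) ^ 2 * (M : ℤ)) (4 * M - 1) = 1 := by
        have h5 : jacobiSym ((2 : ℤ) ^ 2 * (M : ℤ)) (4 * M - 1) = jacobiSym 1 (4 * M - 1) := by
          apply jacobiSym.mod_left'
          have h6 : ((4 * M - 1 : ℕ) : ℤ) = 4 * M - 1 := by
            push_cast [Nat.cast_sub (by omega : 1 ≤ 4 * M)]
            ring
          have h7 : (2 : ℤ) ^ 2 * (M : ℤ) = 1 + ((4 * M - 1 : ℕ) : ℤ) := by rw [h6]; ring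
          rw [h7, Int.add_emod_right]
        rw [h5, jacobiSym.one_left]
      rw [jacobiSym.mul_left, jacobiSym.sq_one', one_mul] at h3
      · exact h3
      · have : Nat.Coprime 2 (4 * M - 1) := by
          rw [Nat.coprime_two_left]; exact ho
        exact_mod_cast this
    rw [h1, h2]
    norm_num
  · obtain ⟨M, rfl⟩ := Int.eq_ofNat_of_zero_le h
    apply Pool.Agent.RC.rc_off_neg
    rintro ⟨r, hr⟩
    exact hD ⟨r, by rw [hr]; push_cast; ring⟩

/-- a prime with the value `-1` prime to `N` -/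
theorem exists_neg_N {D : ℤ} (hD : ¬ IsSquare D) (N : ℕ) (hN : N ≠ 0) :
    ∃ p : ℕ, p.Prime ∧ p.Coprime N ∧ jacobiSym D p = -1 := by
  obtain ⟨m, hm, hm1⟩ := exists_neg hD
  have hD0 : D ≠ 0 := by rintro rfl; exact hD ⟨0, rfl⟩
  have hc : m.Coprime (4 * D.natAbs) := by
    apply Nat.Coprime.mul_right
    · rw [show 4 = 2 ^ 2 by norm_num]
      exact Nat.Coprime.pow_right 2 (Nat.coprime_two_right.2 hm)
    · have h1 : jacobiSym D m ≠ 0 := by rw [hm1]; norm_num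
      have h2 : D.gcd m = 1 := by
        by_contra h3
        exact h1 (jacobiSym.eq_zero_iff.2 ⟨hm.pos.ne', h3⟩)
      rw [Nat.coprime_comm]
      exact h2
  obtain ⟨p, hp1, hp2, hp3⟩ := Nat.forall_exists_prime_gt_and_modEq (N + 2)
    (mul_ne_zero (by norm_num) (Int.natAbs_ne_zero.2 hD0)) hc
  have hpo : Odd p := hp2.odd_of_ne_two (by omega)
  refine ⟨p, hp2, ?_, ?_⟩
  · rw [Nat.Prime.coprime_iff_not_dvd hp2]
    intro h
    have := Nat.le_of_dvd (Nat.pos_of_ne_zero hN) h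
    omega
  · rw [jacobiSym.mod_right D hpo, hp3, ← jacobiSym.mod_right D hm, hm1]

theorem chi_ne_one {D : ℤ} {N : ℕ} (hD : 4 * D.natAbs ∣ N) (hN : 1 < N) (hsq : ¬ IsSquare D) :
    chi hD hN ≠ 1 := by
  obtain ⟨p, hp, hp1, hp2⟩ := exists_neg_N hsq N (by omega)
  intro h
  have h1 := chi_nat hD hN p
  rw [h, MulChar.one_apply ((ZMod.isUnit_iff_coprime p N).2 hp1), cJ, if_pos hp1, hp2] at h1
  norm_num at h1

theorem cJ_zero {D : ℤ} {N : ℕ} (hN : 1 < N) : cJ D N 0 = 0 := by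
  unfold cJ
  rw [if_neg]
  rw [Nat.coprime_zero_left]
  omega

/-- the sum over a period -/
theorem cJ_period {D : ℤ} {N : ℕ} (hD : 4 * D.natAbs ∣ N) (hN : 1 < N) (hsq : ¬ IsSquare D) :
    ∑ i ∈ Finset.range N, ((cJ D N i : ℤ) : ℝ) = 0 := by
  have : NeZero N := ⟨by omega⟩
  have h1 := MulChar.sum_eq_zero_of_ne_one (chi_ne_one hD hN hsq)
  have h2 : ∑ i ∈ Finset.range N, ((cJ D N i : ℤ) : ℂ) = ∑ a : ZMod N, chi hD hN a := by
    rw [Finset.sum_range]
    refine Fintype.sum_equiv (ZMod.finEquiv N).toEquiv _ _ (fun i => ?_)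
    have h3 : ((ZMod.finEquiv N).toEquiv i) = ((i.val : ℕ) : ZMod N) := by
      obtain ⟨k, rfl⟩ : ∃ k, N = k + 1 := ⟨N - 1, by omega⟩
      show i = ((i.val : ℕ) : ZMod (k + 1))
      exact (Fin.cast_val_eq_self i).symm
    rw [h3, chi_nat]
  rw [h1] at h2
  have h4 := congrArg Complex.re h2
  rw [Complex.zero_re, Complex.re_sum] at h4
  rw [← h4]
  apply Finset.sum_congr rfl
  intro i _
  simp

theorem cJ_range {D : ℤ} {N : ℕ} (hD : 4 * D.natAbs ∣ N) (hN : 1 < N) (hsq : ¬ IsSquare D)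
    (n : ℕ) : |∑ i ∈ Finset.range n, ((cJ D N i : ℤ) : ℝ)| ≤ N := by
  induction n using Nat.strong_induction_on with
  | _ n ih =>
    rcases Nat.lt_or_ge n N with h | h
    · calc |∑ i ∈ Finset.range n, ((cJ D N i : ℤ) : ℝ)|
          ≤ ∑ i ∈ Finset.range n, |((cJ D N i : ℤ) : ℝ)| := Finset.abs_sum_le_sum_abs _ _
        _ ≤ ∑ i ∈ Finset.range n, (1 : ℝ) := Finset.sum_le_sum fun i _ => cJ_abs D N i
        _ = n := by simp
        _ ≤ N := by exact_mod_cast h.le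
    · have e : n = N + (n - N) := by omega
      rw [e, Finset.sum_range_add, cJ_period hD hN hsq, zero_add]
      have h1 : ∀ i ∈ Finset.range (n - N), ((cJ D N (N + i) : ℤ) : ℝ) =
          ((cJ D N i : ℤ) : ℝ) := by
        intro i _
        rw [← cJ_mod hD (N + i), Nat.add_mod_left, cJ_mod hD]
      rw [Finset.sum_congr rfl h1]
      exact ih (n - N) (by omega)

theorem cJ_sum {D : ℤ} {N : ℕ} (hD : 4 * D.natAbs ∣ N) (hN : 1 < N) (hsq : ¬ IsSquare D)
    (k n : ℕ) (hk : k ≤ n) : |∑ i ∈ Finset.Ioc k n, ((cJ D N i : ℤ) : ℝ)| ≤ 2 * N := by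
  have h1 : ∑ i ∈ Finset.Ioc k n, ((cJ D N i : ℤ) : ℝ) =
      ∑ i ∈ Finset.range (n + 1), ((cJ D N i : ℤ) : ℝ) -
      ∑ i ∈ Finset.range (k + 1), ((cJ D N i : ℤ) : ℝ) := by
    have h2 : Finset.Ioc k n = Finset.Ico (k + 1) (n + 1) := by
      ext i
      simp only [Finset.mem_Ioc, Finset.mem_Ico]
      omega
    rw [eq_sub_iff_add_eq, add_comm, h2, Finset.sum_range_add_sum_Ico _ (by omega : k + 1 ≤ n + 1)]
  rw [h1]
  refine (abs_sub _ _).trans ?_
  have a := cJ_range hD hN hsq (n + 1)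
  have b := cJ_range hD hN hsq (k + 1)
  linarith

end Pool.Agent.AQM
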