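import Pool.Agent.Lib_helper15.AQ.Mer2

/-!
# AQ (MP_892e4c_nt): the partial sums of `L(1, χ)` are bounded away from zero (helper15)
-/

set_option autoImplicit false

namespace Pool.Agent.AQM

open Filter Topology

/-- the step of the power function -/
theorem pow_step {e : ℝ} (he : 0 < e) {i : ℕ} (hi : 1 ≤ i) :
    0 ≤ (i : ℝ) ^ (-e) - ((i + 1 : ℕ) : ℝ) ^ (-e) ∧
    (i : ℝ) ^ (-e) - ((i + 1 : ℕ) : ℝ) ^ (-e) ≤ e / i := by
  have hi0 : (0 : ℝ) < i := by exact_mod_cast hi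
  have hi1 : (1 : ℝ) ≤ i := by exact_mod_cast hi
  have h1 : ((i + 1 : ℕ) : ℝ) ^ (-e) ≤ (i : ℝ) ^ (-e) :=
    Real.rpow_le_rpow_of_nonpos hi0 (by push_cast; linarith) (by linarith)
  refine ⟨sub_nonneg.2 h1, ?_⟩
  have h2 : ((i + 1 : ℕ) : ℝ) = i * (1 + 1 / i) := by push_cast; field_simp
  have hq : 0 < 1 + 1 / (i : ℝ) := by positivity
  have h3 : ((i + 1 : ℕ) : ℝ) ^ (-e) = (i : ℝ) ^ (-e) * (1 + 1 / (i : ℝ)) ^ (-e) := by
    rw [h2, Real.mul_rpow hi0.le hq.le]
  have h4 : 1 - e / i ≤ (1 + 1 / (i : ℝ)) ^ (-e) := by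
    rw [Real.rpow_def_of_pos hq]
    have h5 : Real.log (1 + 1 / (i : ℝ)) ≤ 1 / i := by
      have := Real.log_le_sub_one_of_pos hq
      linarith
    have h6 := Real.add_one_le_exp (Real.log (1 + 1 / (i : ℝ)) * -e)
    have h7 : Real.log (1 + 1 / (i : ℝ)) * e ≤ 1 / i * e := mul_le_mul_of_nonneg_right h5 he.le
    have h8 : 1 / (i : ℝ) * e = e / i := by ring
    linarith
  have h5 : (i : ℝ) ^ (-e) ≤ 1 := Real.rpow_le_one_of_one_le_of_nonpos hi1 (by linarith)
  have h6 : 0 ≤ (i : ℝ) ^ (-e) := Real.rpow_nonneg hi0.le _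
  rw [h3]
  have h7 : (i : ℝ) ^ (-e) - (i : ℝ) ^ (-e) * (1 + 1 / (i : ℝ)) ^ (-e) =
      (i : ℝ) ^ (-e) * (1 - (1 + 1 / (i : ℝ)) ^ (-e)) := by ring
  rw [h7]
  have h8 : 0 ≤ e / i := by positivity
  calc (i : ℝ) ^ (-e) * (1 - (1 + 1 / (i : ℝ)) ^ (-e)) ≤ (i : ℝ) ^ (-e) * (e / i) :=
        mul_le_mul_of_nonneg_left (by linarith) h6
    _ ≤ 1 * (e / i) := mul_le_mul_of_nonneg_right h5 h8
    _ = e / i := one_mul _

/-- partial summation against `i ^ (-e)` -/
theorem abel_pow (c : ℕ → ℝ) (e : ℝ) (n : ℕ) (hn : 1 ≤ n) :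
    ∑ i ∈ Finset.Ioc 0 n, c i * (1 / (i : ℝ)) * (i : ℝ) ^ (-e) =
      TT c n * (n : ℝ) ^ (-e) +
        ∑ i ∈ Finset.Ico 1 n, TT c i * ((i : ℝ) ^ (-e) - ((i + 1 : ℕ) : ℝ) ^ (-e)) := by
  induction n, hn using Nat.le_induction with
  | base =>
    simp [TT]
  | succ n hn ih =>
    rw [Finset.sum_Ioc_succ_top (Nat.zero_le n), ih, Finset.sum_Ico_succ_top hn]
    have h1 : TT c (n + 1) = TT c n + c (n + 1) * (1 / ((n + 1 : ℕ) : ℝ)) := by
      unfold TT
      rw [Finset.sum_Ioc_succ_top (Nat.zero_le n)]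
    rw [h1]
    ring

theorem tele (n : ℕ) (hn : 1 ≤ n) :
    ∑ i ∈ Finset.Ico 1 n, 1 / (((i : ℝ) + 1) * i) = 1 - 1 / (n : ℝ) := by
  induction n, hn using Nat.le_induction with
  | base => simp
  | succ n hn ih =>
    have h0 : (0 : ℝ) < n := by exact_mod_cast hn
    rw [Finset.sum_Ico_succ_top hn, ih]
    push_cast
    field_simp
    ring

/-- if `TT c n` tends to zero, the Dirichlet series is small near `1` -/
theorem small {c : ℕ → ℝ} {B : ℝ} (hB : 0 ≤ B) (h0 : ∀ k : ℕ, |TT c k| ≤ B / ((k : ℝ) + 1))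
    {e : ℝ} (he : 0 < e) (n : ℕ) (hn : 1 ≤ n) :
    |∑ i ∈ Finset.Ioc 0 n, c i * (1 / (i : ℝ)) * (i : ℝ) ^ (-e)| ≤ B / (n + 1) + B * e := by
  rw [abel_pow c e n hn]
  have hn1 : (1 : ℝ) ≤ n := by exact_mod_cast hn
  refine (abs_add_le _ _).trans (add_le_add ?_ ?_)
  · rw [abs_mul, abs_of_nonneg (Real.rpow_nonneg (Nat.cast_nonneg n) _)]
    calc |TT c n| * (n : ℝ) ^ (-e) ≤ B / (n + 1) * 1 :=
          mul_le_mul (h0 n) (Real.rpow_le_one_of_one_le_of_nonpos hn1 (by linarith))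
            (Real.rpow_nonneg (Nat.cast_nonneg n) _) (by positivity)
      _ = B / (n + 1) := mul_one _
  · refine (Finset.abs_sum_le_sum_abs _ _).trans ?_
    calc ∑ i ∈ Finset.Ico 1 n, |TT c i * ((i : ℝ) ^ (-e) - ((i + 1 : ℕ) : ℝ) ^ (-e))|
        ≤ ∑ i ∈ Finset.Ico 1 n, B * e * (1 / (((i : ℝ) + 1) * i)) := by
          apply Finset.sum_le_sum
          intro i hi
          rw [Finset.mem_Ico] at hi
          have hi0 : (0 : ℝ) < i := by exact_mod_cast hi.1
          obtain ⟨a1, a2⟩ := pow_step he hi.1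
          rw [abs_mul, abs_of_nonneg a1]
          calc |TT c i| * ((i : ℝ) ^ (-e) - ((i + 1 : ℕ) : ℝ) ^ (-e)) ≤
                B / ((i : ℝ) + 1) * (e / i) := mul_le_mul (h0 i) a2 a1 (by positivity)
            _ = B * e * (1 / (((i : ℝ) + 1) * i)) := by field_simp
      _ = B * e * (1 - 1 / (n : ℝ)) := by rw [← Finset.mul_sum, tele n hn]
      _ ≤ B * e * 1 := by
          apply mul_le_mul_of_nonneg_left _ (by positivity)
          have : 0 ≤ 1 / (n : ℝ) := by positivity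
          linarith
      _ = B * e := mul_one _

/-- the limit of the partial sums is not zero -/
theorem not_small {D : ℤ} {N : ℕ} (hD : 4 * D.natAbs ∣ N) (hN : 1 < N) (hsq : ¬ IsSquare D) :
    ¬ ∀ k : ℕ, |TT (fun n => ((cJ D N n : ℤ) : ℝ)) k| ≤ (2 * N : ℝ) / ((k : ℝ) + 1) := by
  intro h0
  have : NeZero N := ⟨by omega⟩
  set c : ℕ → ℝ := fun n => ((cJ D N n : ℤ) : ℝ) with hc
  set B : ℝ := 2 * N with hBd
  have hB : 0 ≤ B := by positivity
  have hne := DirichletCharacter.LFunction_apply_one_ne_zero (chi_ne_one hD hN hsq)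
  have hbound : ∀ e : ℝ, 0 < e →
      ‖DirichletCharacter.LFunction (chi hD hN) (1 + e : ℝ)‖ ≤ B * e := by
    intro e he
    have hre : 1 < ((1 + e : ℝ) : ℂ).re := by rw [Complex.ofReal_re]; linarith
    rw [DirichletCharacter.LFunction_eq_LSeries _ hre]
    have hs := (DirichletCharacter.LSeriesSummable_of_one_lt_re (chi hD hN) hre).LSeriesHasSum
    have ht : Tendsto (fun n : ℕ => ∑ i ∈ Finset.range (n + 1),
        LSeries.term (fun n => chi hD hN n) ((1 + e : ℝ) : ℂ) i) atTop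
        (𝓝 (LSeries (fun n => chi hD hN n) ((1 + e : ℝ) : ℂ))) :=
      (tendsto_add_atTop_iff_nat 1).2 hs.tendsto_sum_nat
    have h1 : ∀ n : ℕ, ∑ i ∈ Finset.range (n + 1),
        LSeries.term (fun n => chi hD hN n) ((1 + e : ℝ) : ℂ) i =
        ((∑ i ∈ Finset.Ioc 0 n, c i * (1 / (i : ℝ)) * (i : ℝ) ^ (-e) : ℝ) : ℂ) := by
      intro n
      rw [Finset.range_eq_Ico, Finset.sum_eq_sum_Ico_succ_bot (by omega : 0 < n + 1)]
      have e1 : Finset.Ico (0 + 1) (n + 1) = Finset.Ioc 0 n := by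
        ext i
        simp only [Finset.mem_Ioc, Finset.mem_Ico]
        omega
      rw [e1, LSeries.term_zero, zero_add]
      push_cast
      apply Finset.sum_congr rfl
      intro i hi
      rw [Finset.mem_Ioc] at hi
      have hi0 : (0 : ℝ) < i := by exact_mod_cast hi.1
      rw [LSeries.term_of_ne_zero (by omega), chi_nat, hc]
      simp only
      have e2 : ((i : ℕ) : ℂ) ^ (1 + (e : ℂ)) = (((i : ℝ) ^ (1 + e) : ℝ) : ℂ) := by
        rw [Complex.ofReal_cpow hi0.le]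
        push_cast
        rfl
      rw [e2, Real.rpow_add hi0, Real.rpow_one, Real.rpow_neg hi0.le]
      push_cast
      have : (i : ℂ) ≠ 0 := by exact_mod_cast hi0.ne'
      field_simp
    have h2 : ∀ n : ℕ, 1 ≤ n → ‖∑ i ∈ Finset.range (n + 1),
        LSeries.term (fun n => chi hD hN n) ((1 + e : ℝ) : ℂ) i‖ ≤ B / (n + 1) + B * e := by
      intro n hn
      rw [h1, Complex.norm_real, Real.norm_eq_abs]
      exact small hB h0 he n hn
    have h3 : Tendsto (fun n : ℕ => B / ((n : ℝ) + 1) + B * e) atTop (𝓝 (0 + B * e)) := by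
      apply Tendsto.add _ tendsto_const_nhds
      have h4 : Tendsto (fun n : ℕ => (n : ℝ) + 1) atTop atTop :=
        tendsto_atTop_add_const_right _ _ tendsto_natCast_atTop_atTop
      exact tendsto_const_nhds.div_atTop h4
    have h4 := le_of_tendsto_of_tendsto ht.norm h3 (by
      filter_upwards [eventually_ge_atTop 1] with n hn
      exact h2 n hn)
    rwa [zero_add] at h4
  have hcont : ContinuousAt (DirichletCharacter.LFunction (chi hD hN)) 1 :=
    (DirichletCharacter.differentiable_LFunction (chi_ne_one hD hN hsq)).continuous.continuousAt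
  have h5 : Tendsto (fun e : ℝ => ((1 + e : ℝ) : ℂ)) (𝓝[>] 0) (𝓝 1) := by
    have h6 : Continuous (fun e : ℝ => ((1 + e : ℝ) : ℂ)) := by fun_prop
    have h7 := h6.tendsto 0
    simp only [add_zero, Complex.ofReal_one] at h7
    exact h7.mono_left nhdsWithin_le_nhds
  have h6 : Tendsto (fun e : ℝ => ‖DirichletCharacter.LFunction (chi hD hN) ((1 + e : ℝ) : ℂ)‖)
      (𝓝[>] 0) (𝓝 ‖DirichletCharacter.LFunction (chi hD hN) 1‖) :=
    (hcont.tendsto.comp h5).norm
  have h7 : Tendsto (fun e : ℝ => B * e) (𝓝[>] 0) (𝓝 0) := by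
    have h8 : Continuous (fun e : ℝ => B * e) := by fun_prop
    have h9 := h8.tendsto 0
    rw [mul_zero] at h9
    exact h9.mono_left nhdsWithin_le_nhds
  have h8 : ‖DirichletCharacter.LFunction (chi hD hN) 1‖ ≤ 0 := by
    refine le_of_tendsto_of_tendsto h6 h7 ?_
    filter_upwards [self_mem_nhdsWithin] with e he
    exact hbound e he
  exact hne (norm_le_zero_iff.1 h8)

/-- the character of a nonsquare `D` -/
theorem ch_cJ {D : ℤ} {N : ℕ} (hD : 4 * D.natAbs ∣ N) (hN : 1 < N) (hsq : ¬ IsSquare D) :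
    Ch (fun n => ((cJ D N n : ℤ) : ℝ)) (2 * N) := by
  have hsum := cJ_sum hD hN hsq
  refine ⟨fun m n => by simp only [cJ_mul hN]; push_cast; ring, fun n => cJ_abs D N n, hsum, ?_⟩
  have hB : (0 : ℝ) ≤ 2 * N := by positivity
  have hns := not_small hD hN hsq
  push Not at hns
  obtain ⟨k, hk⟩ := hns
  set c : ℕ → ℝ := fun n => ((cJ D N n : ℤ) : ℝ) with hc
  -- the limit is at least the gap
  refine ⟨|TT c k| - 2 * N / ((k : ℝ) + 1), by linarith, k, fun x hx => ?_⟩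
  have h1 := TT_diff hB hsum (c := c) hx
  have h2 : |TT c k| ≤ |TT c x| + |TT c x - TT c k| := by
    have := abs_sub_abs_le_abs_sub (TT c k) (TT c x)
    rw [abs_sub_comm (TT c k) (TT c x)] at this
    linarith
  linarith

end Pool.Agent.AQM
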