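import Pool.Agent.Lib_helper15.AQ.Mer3
import Pool.Agent.Lib_helper8.PENT.B.zk

/-!
# AQ (MP_892e4c_nt): Mertens' theorem for the primes modulo which `D` is a square (helper15)
-/

set_option autoImplicit false

namespace Pool.Agent.AQM

open Filter Topology Pool.Agent.TR

open Classical in
/-- the value of the character at a prime -/
theorem cJ_prime {D : ℤ} {N p : ℕ} (hp : p.Prime) (hD : 4 * D.natAbs ∣ N)
    (hpN : ¬ p ∣ N) : cJ D N p = if IsSquare ((D : ℤ) : ZMod p) then 1 else -1 := by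
  have : Fact p.Prime := ⟨hp⟩
  have hc : p.Coprime N := (Nat.Prime.coprime_iff_not_dvd hp).2 hpN
  have hD0 : ((D : ℤ) : ZMod p) ≠ 0 := by
    intro h
    have h1 : (p : ℤ) ∣ D := (ZMod.intCast_zmod_eq_zero_iff_dvd D p).1 h
    exact hpN ((Int.natCast_dvd.1 h1).trans (dvd_trans (dvd_mul_left _ _) hD))
  rw [cJ, if_pos hc, ← jacobiSym.legendreSym.to_jacobiSym]
  split_ifs with h
  · exact (legendreSym.eq_one_iff p hD0).2 h
  · exact (legendreSym.eq_neg_one_iff p).2 h

open Classical in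
/-- the sum of `log p / p` -/
theorem log_sp {D : ℤ} {a0 : ℕ} (h0 : 0 < a0) (hsq : ¬ IsSquare D)
    (hdv : ∀ p : ℕ, p.Prime → (p : ℤ) ∣ 2 * D → p ∣ a0) : ∃ C : ℝ, 0 ≤ C ∧ ∀ x : ℕ, 1 ≤ x →
    |∑ p ∈ (Finset.Icc 1 x).filter (fun p => p.Prime ∧ ¬ p ∣ a0 ∧ IsSquare ((D : ℤ) : ZMod p)),
      Real.log p / p - 1 / 2 * Real.log x| ≤ C := by
  have hD0 : D ≠ 0 := by rintro rfl; exact hsq ⟨0, rfl⟩
  have hDn : 0 < D.natAbs := Int.natAbs_pos.2 hD0
  obtain ⟨N, hN⟩ : ∃ N, N = 4 * D.natAbs * a0 := ⟨_, rfl⟩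
  have hDN : 4 * D.natAbs ∣ N := ⟨a0, hN⟩
  have hN0 : 0 < N := by rw [hN]; positivity
  have hN1 : 1 < N := by
    rw [hN]
    nlinarith [Nat.mul_pos hDn h0]
  have hpN : ∀ p : ℕ, p.Prime → (p ∣ N ↔ p ∣ a0) := by
    intro p hp
    constructor
    · intro h
      rw [hN] at h
      rcases (Nat.Prime.dvd_mul hp).1 h with h | h
      · apply hdv p hp
        rcases (Nat.Prime.dvd_mul hp).1 h with h | h
        · have h2 : p ∣ 2 := hp.dvd_of_dvd_pow (show p ∣ 2 ^ 2 by simpa using h)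
          exact dvd_mul_of_dvd_left (by exact_mod_cast h2) _
        · exact dvd_mul_of_dvd_right (Int.natCast_dvd.2 h) _
      · exact h
    · intro h
      rw [hN]
      exact dvd_mul_of_dvd_right h _
  obtain ⟨C1, hC1, H1⟩ := primes_tw (by positivity) (ch_cJ hDN hN1 hsq)
  obtain ⟨C0, hC0⟩ := Pool.Agent.BG4.mertens_one
  set K : ℝ := ∑ p ∈ N.primeFactors, Real.log p / p with hK
  have hKn : 0 ≤ K := Finset.sum_nonneg fun p _ =>
    div_nonneg (Real.log_natCast_nonneg p) (Nat.cast_nonneg p)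
  refine ⟨|C0| + C1 + K, by positivity, fun x hx => ?_⟩
  set P0 := ∑ p ∈ (Finset.Icc 1 x).filter Nat.Prime, Real.log p / (p : ℝ) with hP0
  set P1 := ∑ p ∈ (Finset.Icc 1 x).filter Nat.Prime,
    ((cJ D N p : ℤ) : ℝ) * (Real.log p / (p : ℝ)) with hP1
  have hM : |P0 - Real.log x| ≤ |C0| := by
    have h1 := hC0 x hx
    refine le_trans ?_ (le_abs_self C0)
    rw [hP0]
    convert h1 using 3
  have hP1' : |P1| ≤ C1 := H1 x hx
  have hcomb : |∑ p ∈ (Finset.Icc 1 x).filter (fun p => p.Prime ∧ ¬ p ∣ a0 ∧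
      IsSquare ((D : ℤ) : ZMod p)), Real.log p / p - 1 / 2 * (P0 + P1)| ≤ K := by
    have h1 : 1 / 2 * (P0 + P1) = ∑ p ∈ (Finset.Icc 1 x).filter Nat.Prime,
        (1 + ((cJ D N p : ℤ) : ℝ)) / 2 * (Real.log p / (p : ℝ)) := by
      rw [hP0, hP1, ← Finset.sum_add_distrib, Finset.mul_sum]
      apply Finset.sum_congr rfl
      intro p _
      ring
    have h2 : ∑ p ∈ (Finset.Icc 1 x).filter (fun p => p.Prime ∧ ¬ p ∣ a0 ∧
        IsSquare ((D : ℤ) : ZMod p)), Real.log p / (p : ℝ) =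
        ∑ p ∈ (Finset.Icc 1 x).filter Nat.Prime,
          (if ¬ p ∣ a0 ∧ IsSquare ((D : ℤ) : ZMod p) then 1 else 0) * (Real.log p / (p : ℝ)) := by
      rw [← Finset.filter_filter, Finset.sum_filter]
      apply Finset.sum_congr rfl
      intro p _
      split_ifs
      · rw [one_mul]
      · rw [zero_mul]
    rw [h1, h2, ← Finset.sum_sub_distrib]
    refine (Finset.abs_sum_le_sum_abs _ _).trans ?_
    have h3 : ∀ p ∈ (Finset.Icc 1 x).filter Nat.Prime,
        |(if ¬ p ∣ a0 ∧ IsSquare ((D : ℤ) : ZMod p) then (1 : ℝ) else 0) * (Real.log p / (p : ℝ)) -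
          (1 + ((cJ D N p : ℤ) : ℝ)) / 2 * (Real.log p / (p : ℝ))| ≤
        if p ∈ N.primeFactors then Real.log p / p else 0 := by
      intro p hp
      rw [Finset.mem_filter] at hp
      have hL : 0 ≤ Real.log p / (p : ℝ) :=
        div_nonneg (Real.log_natCast_nonneg p) (Nat.cast_nonneg p)
      by_cases hd : p ∣ N
      · rw [if_pos (Nat.mem_primeFactors.2 ⟨hp.2, hd, hN0.ne'⟩),
          if_neg (fun h => h.1 ((hpN p hp.2).1 hd)), cJ, if_neg (by
            rw [Nat.Prime.coprime_iff_not_dvd hp.2]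
            exact fun h => h hd)]
        rw [zero_mul, zero_sub, abs_neg]
        push_cast
        rw [abs_of_nonneg (by positivity)]
        linarith
      · rw [if_neg (fun h => hd (Nat.dvd_of_mem_primeFactors h)),
          cJ_prime hp.2 hDN hd]
        have ha : ¬ p ∣ a0 := fun h => hd ((hpN p hp.2).2 h)
        by_cases hs : IsSquare ((D : ℤ) : ZMod p)
        · rw [if_pos ⟨ha, hs⟩, if_pos hs]
          norm_num
        · rw [if_neg (fun h => hs h.2), if_neg hs]
          norm_num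
    refine (Finset.sum_le_sum h3).trans ?_
    rw [← Finset.sum_filter]
    apply Finset.sum_le_sum_of_subset_of_nonneg
    · intro p hp
      rw [Finset.mem_filter] at hp
      exact hp.2
    · intro p _ _
      exact div_nonneg (Real.log_natCast_nonneg p) (Nat.cast_nonneg p)
  have hfin : ∑ p ∈ (Finset.Icc 1 x).filter (fun p => p.Prime ∧ ¬ p ∣ a0 ∧
      IsSquare ((D : ℤ) : ZMod p)), Real.log p / p - 1 / 2 * Real.log x =
      (∑ p ∈ (Finset.Icc 1 x).filter (fun p => p.Prime ∧ ¬ p ∣ a0 ∧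
      IsSquare ((D : ℤ) : ZMod p)), Real.log p / p - 1 / 2 * (P0 + P1)) +
      1 / 2 * (P0 - Real.log x) + 1 / 2 * P1 := by ring
  rw [hfin]
  have e1 : |1 / 2 * (P0 - Real.log x)| ≤ |C0| := by
    rw [abs_mul, abs_of_pos (by norm_num : (0 : ℝ) < 1 / 2)]
    linarith [abs_nonneg (P0 - Real.log x)]
  have e2 : |1 / 2 * P1| ≤ C1 := by
    rw [abs_mul, abs_of_pos (by norm_num : (0 : ℝ) < 1 / 2)]
    linarith [abs_nonneg P1]
  refine (abs_add_le _ _).trans ?_
  have e3 := abs_add_le (∑ p ∈ (Finset.Icc 1 x).filter (fun p => p.Prime ∧ ¬ p ∣ a0 ∧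
      IsSquare ((D : ℤ) : ZMod p)), Real.log p / p - 1 / 2 * (P0 + P1))
      (1 / 2 * (P0 - Real.log x))
  linarith

open Classical in
/-- the sum of `1/p` over the primes `p ≤ z`, `p` prime to `a0`, modulo which `D` is a square -/
noncomputable def ssp (D : ℤ) (a0 : ℕ) (z : ℝ) : ℝ :=
  ∑ p ∈ (Finset.Icc 1 ⌊z⌋₊).filter (fun p => p.Prime ∧ ¬ p ∣ a0 ∧ IsSquare ((D : ℤ) : ZMod p)),
    1 / (p : ℝ)

open Classical Pool.Agent.PENT in
/-- Mertens' theorem -/
theorem mertens_ssp {D : ℤ} {a0 : ℕ} (h0 : 0 < a0) (hsq : ¬ IsSquare D)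
    (hdv : ∀ p : ℕ, p.Prime → (p : ℤ) ∣ 2 * D → p ∣ a0) : ∃ C : ℝ, 0 ≤ C ∧ ∀ z : ℝ, 2 ≤ z →
    |ssp D a0 z - 1 / 2 * Real.log (Real.log z)| ≤ C := by
  obtain ⟨C0, hC0, hM⟩ := log_sp h0 hsq hdv
  set C := 2 * C0 with hCd
  have hC : 0 ≤ C := by positivity
  set S : ℕ → ℝ := fun n => 2 * ∑ p ∈ (Finset.Icc 1 n).filter (fun p => p.Prime ∧ ¬ p ∣ a0 ∧ IsSquare ((D : ℤ) : ZMod p)),
    1 / (p : ℝ) with hSd
  set A : ℕ → ℝ := fun n => 2 * ∑ p ∈ (Finset.Icc 1 n).filter (fun p => p.Prime ∧ ¬ p ∣ a0 ∧ IsSquare ((D : ℤ) : ZMod p)),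
    Real.log p / p with hAd
  have hA : ∀ n : ℕ, 1 ≤ n → |A n - Real.log n| ≤ C := by
    intro n hn
    have h := hM n hn
    have e : A n - Real.log n = 2 * (∑ p ∈ (Finset.Icc 1 n).filter (fun p => p.Prime ∧ ¬ p ∣ a0 ∧ IsSquare ((D : ℤ) : ZMod p)),
        Real.log p / p - 1 / 2 * Real.log n) := by rw [hAd]; ring
    rw [e, abs_mul, abs_of_pos (by norm_num : (0:ℝ) < 2)]
    linarith
  have hemp : (Finset.Icc 1 2).filter (fun p => p.Prime ∧ ¬ p ∣ a0 ∧ IsSquare ((D : ℤ) : ZMod p)) = ∅ := by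
    rw [Finset.filter_eq_empty_iff]
    intro p hp h
    rw [Finset.mem_Icc] at hp
    have h2 := h.1.two_le
    have h3 : p = 2 := by omega
    subst h3
    exact h.2.1 (hdv 2 h.1 (dvd_mul_right _ _))
  have h2 : S 2 - A 2 / Real.log 2 = 0 := by
    simp only [hSd, hAd, hemp, Finset.sum_empty]
    simp
  have hs : ∀ n : ℕ, S (n + 1) - A (n + 1) / Real.log ((n + 1 : ℕ) : ℝ) =
      S n - A n / Real.log ((n + 1 : ℕ) : ℝ) := by
    intro n
    have hI : Finset.Icc 1 (n + 1) = insert (n + 1) (Finset.Icc 1 n) := by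
      ext k; simp only [Finset.mem_Icc, Finset.mem_insert]; omega
    have hnot : n + 1 ∉ (Finset.Icc 1 n).filter (fun p => p.Prime ∧ ¬ p ∣ a0 ∧ IsSquare ((D : ℤ) : ZMod p)) := by simp
    simp only [hSd, hAd]
    rw [hI, Finset.filter_insert]
    split_ifs with hp
    · rw [Finset.sum_insert hnot, Finset.sum_insert hnot]
      have hn1 : 1 ≤ n := by
        have := hp.1.two_le
        omega
      have h0 : ((n + 1 : ℕ) : ℝ) ≠ 0 := by positivity
      have hl0 : Real.log ((n + 1 : ℕ) : ℝ) ≠ 0 := by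
        refine (Real.log_pos ?_).ne'
        push_cast
        have : (1:ℝ) ≤ n := by exact_mod_cast hn1
        linarith
      field_simp
      ring
    · rfl
  have hl2 : 0 < Real.log 2 := Real.log_pos (by norm_num)
  refine ⟨((1 + C) / Real.log 2 + (1 + C / Real.log 2) + |Real.log (Real.log 2)| +
    1 / Real.log 2) / 2, by positivity, ?_⟩
  intro x hx
  have hx0 : 0 < x := by linarith
  set n := ⌊x⌋₊ with hnd
  have hn2 : 2 ≤ n := Nat.le_floor (by exact_mod_cast hx)
  have hnx : (n : ℝ) ≤ x := Nat.floor_le hx0.le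
  have hxn : x < n + 1 := Nat.lt_floor_add_one x
  have hn2' : (2 : ℝ) ≤ n := by exact_mod_cast hn2
  have hn0 : (0 : ℝ) < n := by linarith
  have hL2 : Real.log 2 ≤ Real.log n := Real.log_le_log (by norm_num) hn2'
  have hL : 0 < Real.log n := hl2.trans_le hL2
  have h1 := zk_nat hC S A hA h2 hs n hn2
  have h2' := hA n (by omega)
  have h3 : |A n / Real.log n - 1| ≤ C / Real.log 2 := by
    have e : A n / Real.log n - 1 = (A n - Real.log n) / Real.log n := by field_simp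
    rw [e, abs_div, abs_of_pos hL]
    exact div_le_div₀ hC h2' hl2 hL2
  have h4 : (1 + C) * (1 / Real.log 2 - 1 / Real.log n) ≤ (1 + C) / Real.log 2 := by
    have : 0 ≤ 1 / Real.log n := by positivity
    have e : (1 + C) / Real.log 2 = (1 + C) * (1 / Real.log 2) := by ring
    rw [e]
    apply mul_le_mul_of_nonneg_left _ (by linarith)
    linarith
  have hlx : Real.log n ≤ Real.log x := Real.log_le_log hn0 hnx
  have h5 : 0 ≤ Real.log (Real.log x) - Real.log (Real.log n) :=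
    sub_nonneg.mpr (Real.log_le_log hL hlx)
  have h6 : Real.log (Real.log x) - Real.log (Real.log n) ≤ 1 / Real.log 2 := by
    have a1 : Real.log (Real.log x) - Real.log (Real.log n) ≤
        (Real.log x - Real.log n) / Real.log n := by
      rw [← Real.log_div (hL.trans_le hlx).ne' hL.ne']
      have := Real.log_le_sub_one_of_pos (div_pos (hL.trans_le hlx) hL)
      have e : (Real.log x - Real.log n) / Real.log n = Real.log x / Real.log n - 1 := by
        field_simp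
      rw [e]; exact this
    have a2 : Real.log x - Real.log n ≤ 1 := by
      rw [← Real.log_div hx0.ne' hn0.ne']
      have := Real.log_le_sub_one_of_pos (div_pos hx0 hn0)
      have e : x / n - 1 ≤ 1 := by
        rw [sub_le_iff_le_add, div_le_iff₀ hn0]; linarith
      linarith
    calc Real.log (Real.log x) - Real.log (Real.log n) ≤ (Real.log x - Real.log n) / Real.log n := a1
      _ ≤ 1 / Real.log 2 := div_le_div₀ zero_le_one a2 hl2 hL2
  have hsx : ssp D a0 x = S n / 2 := by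
    rw [ssp, ← hnd]
    simp only [hSd]
    ring
  have e : ssp D a0 x - 1 / 2 * Real.log (Real.log x) =
      ((S n - A n / Real.log n - Real.log (Real.log n) + Real.log (Real.log 2)) +
      (A n / Real.log n - 1) + 1 - Real.log (Real.log 2) -
      (Real.log (Real.log x) - Real.log (Real.log n))) / 2 := by rw [hsx]; ring
  have b1 := abs_le.mp h1
  have b2 := abs_le.mp h3
  have b3 := abs_le.mp (le_refl |Real.log (Real.log 2)|)
  have b4 : 0 ≤ 1 / Real.log 2 := by positivity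
  rw [e, abs_le]
  constructor
  · linarith [b1.1, b2.1, b3.2, b3.1]
  · linarith [b1.2, b2.2, b3.2, b3.1]


end Pool.Agent.AQM
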