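import Pool.Agent.Lib_helper15.AQ.Z10

/-!
# AQ (MP_892e4c_nt): the lower bound in progressions, one form (helper15)
-/

set_option autoImplicit false

namespace Pool.Agent.AQM

open Finset Filter Pool.Agent.PENT

theorem zsN_form {D A B C : ℤ} {a0 : ℕ} (h : FD D a0 A B C) (α θ : ℝ) (hα : 0 < α) (hα1 : α ≤ 1)
    (hθ : 0 < θ) (hθ1 : θ ≤ 1) :
    ∃ c τ Δ₀ : ℝ, 0 < c ∧ 0 < τ ∧
    ∀ (Δ P : ℝ) (q : ℕ) (r : ℤ) (F : Finset (ℕ × ℤ)), Δ₀ ≤ Δ → Real.log Δ ^ 20 ≤ P →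
    Real.log P ≤ Real.log Δ ^ (1 / 2 : ℝ) → 0 < q → Nat.Coprime q a0 → (q : ℝ) ≤ Δ ^ τ →
    IsCoprime r (q : ℤ) →
    (∀ a ∈ F, a.1.Prime ∧ P < (a.1 : ℝ) ∧ ¬ a.1 ∣ q) → (F.card : ℝ) ≤ Real.log Δ ^ 2 →
    c * (Δ / q) * (q.totient / q) * Real.log P ^ (-α) * Real.log Δ ^ (α - 1) ≤
      ∑ d ∈ (Finset.Icc 1 ⌊(1 + θ) * Δ⌋₊).filter (fun d : ℕ => Δ < (d : ℝ) ∧
        (q : ℤ) ∣ (d : ℤ) - r ∧ (a0 : ℤ) ∣ (d : ℤ) - A ∧
        ∀ a ∈ F, ¬ (a.1 : ℤ) ∣ (d : ℤ) - a.2), fwq D a0 P α d := by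
  have ha : 0 < a0 := by have := h.a1; omega
  have ha' : (0 : ℝ) < a0 := by exact_mod_cast ha
  obtain ⟨k, c1, hc1, hmain⟩ := famN_main h.ns ha h.dv α hα hα1
  have hA' : (1 : ℝ) ≤ A := by exact_mod_cast h.pos
  obtain ⟨η, hη⟩ : ∃ η : ℝ, η = θ / (16 * (3 * |(B : ℝ)| + |(C : ℝ)| + 1)) := ⟨_, rfl⟩
  have hη0 : 0 < η := by rw [hη]; positivity
  have hη1 : η * (16 * (3 * |(B : ℝ)| + |(C : ℝ)| + 1)) ≤ θ := by
    rw [hη]
    apply le_of_eq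
    field_simp
  set cb : ℝ := θ * η / (32 * Real.sqrt A) with hcb
  have hcb0 : 0 < cb := by
    have : 0 < Real.sqrt (A : ℝ) := Real.sqrt_pos.2 (by linarith)
    positivity
  set cX : ℝ := cb / (a0 : ℝ) ^ 2 with hcX
  have hcX0 : 0 < cX := by positivity
  set kk : ℤ := |A| + 2 * |B| + |C| + 1 with hkk
  have hkk1 : 1 ≤ kk := by
    have h1 := abs_nonneg A
    have h2 := abs_nonneg B
    have h3 := abs_nonneg C
    omega
  have hkk' : (1 : ℝ) ≤ kk := by exact_mod_cast hkk1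
  obtain ⟨K, hK⟩ : ∃ K : ℝ, K = 216 * (kk : ℝ) ^ 2 + 30 * a0 + 3 * (a0 : ℝ) ^ 2 + 60 := ⟨_, rfl⟩
  have hK0 : 0 ≤ K := by rw [hK]; positivity
  have hKs1 : (0 : ℝ) ≤ (a0 : ℝ) ^ 2 := sq_nonneg _
  have hKs2 : (0 : ℝ) ≤ (kk : ℝ) ^ 2 := sq_nonneg _
  have hK1 : 6 * (a0 : ℝ) + (a0 : ℝ) ^ 2 ≤ K := by rw [hK]; linarith
  have hK2 : 216 * (kk : ℝ) ^ 2 ≤ K := by rw [hK]; linarith
  have hK3 : 60 ≤ K := by rw [hK]; linarith
  clear hK
  set τ2 : ℝ := 1 / (10 * (k + 1)) with hτ2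
  have hτ20 : 0 < τ2 := by positivity
  set m : ℕ := 40 * (k + 1) with hm
  set κ : ℝ := α ^ m * c1 / 8 with hκ
  have hκ0 : 0 < κ := by positivity
  -- the conditions on Δ
  have ev1 : ∀ᶠ Δ : ℝ in atTop, max (16 / θ * Real.sqrt A) (max (2 / η) 2) ≤ Real.sqrt Δ :=
    (Real.tendsto_sqrt_atTop).eventually_ge_atTop _
  have ev2 : ∀ᶠ Δ : ℝ in atTop, max (max 2 ((A : ℝ) + (a0 : ℝ))) (max (8 / κ) ((2 / τ2) ^ 2)) ≤ Real.log Δ :=
    Real.tendsto_log_atTop.eventually_ge_atTop _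
  have ev3 : ∀ᶠ Δ : ℝ in atTop, 2 ≤ Δ ^ (τ2 / 2) :=
    (tendsto_rpow_atTop (by positivity)).eventually_ge_atTop _
  have ev4 := ev_log (15 * K / (cX * κ)) 4 (1 / 20) (by norm_num)
  obtain ⟨Δ₀, hΔ₀⟩ := eventually_atTop.1 (ev1.and (ev2.and (ev3.and (ev4.and
    (eventually_ge_atTop (2 : ℝ))))))
  refine ⟨2 * κ * cX, 1 / 20, Δ₀, by positivity, by norm_num, ?_⟩
  intro Δ P q r F hΔ hPL hPU hq hqa hqD hr hF hFc
  obtain ⟨hsq1, hLgm, hYY, he7, hD2⟩ := hΔ₀ Δ hΔ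
  set Lg := Real.log Δ with hLg
  have hLg2 : 2 ≤ Lg := le_trans ((le_max_left _ _).trans (le_max_left _ _)) hLgm
  have hLgA : (A : ℝ) + a0 ≤ Lg := le_trans ((le_max_right _ _).trans (le_max_left _ _)) hLgm
  have hLgκ : 8 / κ ≤ Lg := le_trans ((le_max_left _ _).trans (le_max_right _ _)) hLgm
  have hLgτ : (2 / τ2) ^ 2 ≤ Lg := le_trans ((le_max_right _ _).trans (le_max_right _ _)) hLgm
  have hLg0 : 0 < Lg := by linarith
  have hD0 : 0 < Δ := by linarith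
  have hq' : (1 : ℝ) ≤ q := by exact_mod_cast hq
  have hLg20 : Lg ≤ Lg ^ 20 := by
    calc Lg = Lg ^ 1 := (pow_one _).symm
      _ ≤ Lg ^ 20 := pow_le_pow_right₀ (by linarith) (by norm_num)
  have hPLg : Lg ≤ P := hLg20.trans hPL
  have hP2 : 2 ≤ P := by linarith
  have hP0 : 0 < P := by linarith
  have hPa : (a0 : ℝ) ≤ P := by linarith
  have hPA : ∀ p : ℕ, p.Prime → P < (p : ℝ) → ¬ (p : ℤ) ∣ A := by
    intro p hp hPp hd
    have h1 : (p : ℤ) ≤ A := Int.le_of_dvd h.pos hd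
    have h2 : (p : ℝ) ≤ A := by exact_mod_cast h1
    linarith
  -- w
  set w := Δ ^ (1 / 20 : ℝ) with hw
  have hw1 : 1 ≤ w := Real.one_le_rpow (by linarith) (by norm_num)
  have hw0 : 0 < w := by linarith
  have hwD : w ^ 20 = Δ := by
    rw [hw, ← Real.rpow_natCast, ← Real.rpow_mul hD0.le]
    norm_num
  have hw9 : w = Δ ^ (1 / 20 : ℝ) := hw
  have hsq : Real.sqrt Δ = w ^ 10 := by
    rw [← hwD, show w ^ 20 = (w ^ 10) ^ 2 by ring]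
    exact Real.sqrt_sq (by positivity)
  have hwp : ∀ a b : ℕ, a ≤ b → w ^ a ≤ w ^ b := fun a b h => pow_le_pow_right₀ hw1 h
  -- Y
  set Y : ℕ := ⌊Δ ^ τ2⌋₊ with hY
  have hYle : (Y : ℝ) ≤ Δ ^ τ2 := Nat.floor_le (by positivity)
  have hYgt : Δ ^ τ2 < Y + 1 := Nat.lt_floor_add_one _
  have hsqY : Δ ^ τ2 = Δ ^ (τ2 / 2) * Δ ^ (τ2 / 2) := by
    rw [← Real.rpow_add hD0]
    congr 1
    ring
  have hYge : Δ ^ (τ2 / 2) ≤ Y := by
    have h1 := mul_le_mul_of_nonneg_right hYY (le_trans zero_le_two hYY)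
    rw [hsqY] at hYgt
    linarith
  have hPY : P ≤ Y := by
    have h1 : Lg ^ (1 / 2 : ℝ) ≤ τ2 / 2 * Lg := by
      have h2 : Real.sqrt Lg * (2 / τ2) ≤ Real.sqrt Lg * Real.sqrt Lg := by
        apply mul_le_mul_of_nonneg_left _ (Real.sqrt_nonneg _)
        exact Real.le_sqrt_of_sq_le hLgτ
      rw [Real.mul_self_sqrt hLg0.le] at h2
      rw [← Real.sqrt_eq_rpow]
      have h3 := mul_le_mul_of_nonneg_left h2 (show 0 ≤ τ2 / 2 by positivity)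
      have h4 : τ2 / 2 * (Real.sqrt Lg * (2 / τ2)) = Real.sqrt Lg := by
        field_simp
      linarith
    have h2 : P ≤ Δ ^ (τ2 / 2) := by
      rw [← Real.exp_log hP0, Real.rpow_def_of_pos hD0]
      apply Real.exp_le_exp.2
      rw [← hLg]
      linarith
    linarith
  have hY1 : 1 ≤ (Y : ℝ) := by linarith
  have hYD : (Y : ℝ) ≤ Δ := by
    refine hYle.trans ?_
    calc Δ ^ τ2 ≤ Δ ^ (1 : ℝ) := by
          apply Real.rpow_le_rpow_of_exponent_le (by linarith)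
          rw [hτ2, div_le_one (by positivity)]
          have : (0 : ℝ) ≤ k := Nat.cast_nonneg _
          linarith
      _ = Δ := Real.rpow_one Δ
  have hYk : (Y : ℝ) ^ k ≤ w ^ 2 := by
    calc (Y : ℝ) ^ k ≤ (Δ ^ τ2) ^ k := by gcongr
      _ = Δ ^ (τ2 * k) := by rw [← Real.rpow_natCast, ← Real.rpow_mul hD0.le]
      _ ≤ Δ ^ (1 / 10 : ℝ) := by
          apply Real.rpow_le_rpow_of_exponent_le (by linarith)
          rw [hτ2]
          have : (0 : ℝ) ≤ k := Nat.cast_nonneg _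
          rw [div_mul_eq_mul_div, div_le_div_iff₀ (by positivity) (by norm_num)]
          linarith
      _ = w ^ 2 := by
          rw [hw, ← Real.rpow_natCast, ← Real.rpow_mul hD0.le]
          norm_num
  have hDYm : (1 + θ) * Δ ≤ (Y : ℝ) ^ m := by
    have h1 : (Δ ^ (τ2 / 2)) ^ m ≤ (Y : ℝ) ^ m := by gcongr
    have h2 : (Δ ^ (τ2 / 2)) ^ m = Δ ^ (2 : ℝ) := by
      rw [← Real.rpow_natCast, ← Real.rpow_mul hD0.le]
      congr 1
      rw [hm, hτ2]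
      push_cast
      field_simp
      norm_num
    rw [h2, Real.rpow_two] at h1
    refine le_trans ?_ h1
    rw [sq]
    exact mul_le_mul_of_nonneg_right (by linarith) hD0.le
  -- the box
  have hb1 : 16 / θ ≤ Real.sqrt (Δ / A) := by
    have h1 : 16 / θ * Real.sqrt A ≤ Real.sqrt Δ := (le_max_left _ _).trans hsq1
    have h2 : 0 < Real.sqrt (A : ℝ) := Real.sqrt_pos.2 (by linarith)
    rw [Real.sqrt_div hD0.le, le_div_iff₀ h2]
    exact h1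
  have hb2 : 2 / η ≤ Real.sqrt Δ := ((le_max_left _ _).trans (le_max_right _ _)).trans hsq1
  have hb3 : 2 ≤ Real.sqrt Δ := ((le_max_right _ _).trans (le_max_right _ _)).trans hsq1
  obtain ⟨A1, B1, T0, hbx, hAB, hT0, hB1, hT1, hLT⟩ := boxN_dims h.pos hθ hθ1 hη0 hη1 hb1 hb2
  rw [hsq] at hB1 hT1 hb3
  rw [← hcb] at hLT
  -- l
  set l : ℤ := ⌈2 * w ^ 10⌉ with hl
  have hl1 : 2 * w ^ 10 ≤ (l : ℝ) := Int.le_ceil _
  have hl2 : (l : ℝ) ≤ 3 * w ^ 10 := by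
    have := Int.ceil_lt_add_one (2 * w ^ 10)
    rw [← hl] at this
    linarith
  have hl3 : 1 ≤ l := by
    have : (1 : ℝ) ≤ (l : ℝ) := by linarith
    exact_mod_cast this
  have hBl : B1 ≤ l := by
    have : (B1 : ℝ) ≤ (l : ℝ) := by linarith
    exact_mod_cast this
  have hTl : T0 ≤ l := by
    have : (T0 : ℝ) ≤ (l : ℝ) := by linarith
    exact_mod_cast this
  have hABl : B1 - A1 ≤ l := by have := hbx.a; omega
  have hL1 : ((B1 - A1 : ℤ) : ℝ) ≤ (l : ℝ) := by exact_mod_cast hABl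
  have hL2 : ((T0 : ℤ) : ℝ) ≤ (l : ℝ) := by exact_mod_cast hTl
  have hl0 : (0 : ℝ) ≤ l := by linarith
  -- Z
  set Z : ℕ := ⌊Real.sqrt ((1 + θ) * Δ)⌋₊ with hZ
  have hZD : (1 + θ) * Δ < ((Z : ℝ) + 1) ^ 2 := by
    have h1 : Real.sqrt ((1 + θ) * Δ) < Z + 1 := Nat.lt_floor_add_one _
    have h2 : Real.sqrt ((1 + θ) * Δ) ^ 2 = (1 + θ) * Δ := Real.sq_sqrt (by positivity)
    rw [← h2]
    have h3 : 0 ≤ Real.sqrt ((1 + θ) * Δ) := Real.sqrt_nonneg _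
    exact pow_lt_pow_left₀ h1 h3 two_ne_zero
  have hZB : (Z : ℤ) ≤ kk * l := by
    have h1 : (Z : ℝ) ≤ Real.sqrt ((1 + θ) * Δ) := Nat.floor_le (Real.sqrt_nonneg _)
    have h3 : Real.sqrt ((1 + θ) * Δ) ≤ 2 * w ^ 10 := by
      rw [← hsq]
      apply le_of_sq_le_sq _ (by positivity)
      rw [mul_pow, Real.sq_sqrt (by positivity), Real.sq_sqrt hD0.le]
      exact mul_le_mul_of_nonneg_right (by linarith) hD0.le
    have h5 : (Z : ℝ) ≤ kk * l :=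
      (h1.trans (h3.trans hl1)).trans (le_mul_of_one_le_left hl0 hkk')
    exact_mod_cast h5
  -- assemble
  have f1 := famN_ge h P α θ Δ m hP2 hα hα1 hD0 hPA Y Z hPY q r hr F hbx hDYm hZD
  have f2 := hmain A B C h P Y q r A1 B1 T0 l hP2 hPY hq hAB hT0 hL1 hL2
  have hw10 : (1 : ℝ) ≤ w ^ 2 := one_le_pow₀ hw1
  have f3 := errN_sq h (k := kk) (by omega) hkk1 hbx.a hAB hT0 hl3 hBl hTl hq r hr P (w ^ 2) hP0
    hw10 hZB hPA hPa
  have f4 := errN_F h hAB hT0 hl3 hABl hTl hq r P (w ^ 2) hP0 hw10 hPA hPa F hF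
  have hX0 := XN_nonneg A B C a0 hAB hT0 q r
  set X := XN A B C a0 A1 B1 T0 q r with hX
  have hqw : (q : ℝ) ≤ w := hqD
  have haq : (a0 : ℝ) * q ≤ a0 * w := mul_le_mul_of_nonneg_left hqw ha'.le
  set R1 := (Y : ℝ) ^ k * (2 * (a0 * q * (Y : ℝ) ^ k) * l + (a0 * q * (Y : ℝ) ^ k) ^ 2) with hR1
  have hasq : 0 ≤ (a0 : ℝ) ^ 2 := sq_nonneg _
  have hkk2 : 0 ≤ (kk : ℝ) ^ 2 := sq_nonneg _
  have hw18 : 0 ≤ w ^ 18 := by positivity
  have bR1 : R1 ≤ K * w ^ 18 := by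
    calc R1 ≤ w ^ 2 * (2 * (a0 * w * w ^ 2) * (3 * w ^ 10) + (a0 * w * w ^ 2) ^ 2) := by
          rw [hR1]
          gcongr
      _ = 6 * a0 * w ^ 15 + (a0 : ℝ) ^ 2 * w ^ 8 := by ring
      _ ≤ 6 * a0 * w ^ 18 + (a0 : ℝ) ^ 2 * w ^ 18 := by
          have e1 := mul_le_mul_of_nonneg_left (hwp 15 18 (by norm_num))
            (show 0 ≤ 6 * (a0 : ℝ) by positivity)
          have e2 := mul_le_mul_of_nonneg_left (hwp 8 18 (by norm_num)) hasq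
          linarith
      _ = (6 * a0 + (a0 : ℝ) ^ 2) * w ^ 18 := by ring
      _ ≤ K * w ^ 18 := mul_le_mul_of_nonneg_right hK1 hw18
  have bE : 2 * (a0 * q * (w ^ 2) ^ 2) * (l : ℝ) + (a0 * q * (w ^ 2) ^ 2) ^ 2 ≤
      2 * (a0 * w * (w ^ 2) ^ 2) * (3 * w ^ 10) + (a0 * w * (w ^ 2) ^ 2) ^ 2 := by gcongr
  have bE1 : 2 * (a0 * q * (w ^ 2) ^ 2) * (l : ℝ) + (a0 * q * (w ^ 2) ^ 2) ^ 2 ≤ K * w ^ 18 := by
    calc _ ≤ _ := bE
      _ = 6 * a0 * w ^ 15 + (a0 : ℝ) ^ 2 * w ^ 10 := by ring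
      _ ≤ 6 * a0 * w ^ 18 + (a0 : ℝ) ^ 2 * w ^ 18 := by
          have e1 := mul_le_mul_of_nonneg_left (hwp 15 18 (by norm_num))
            (show 0 ≤ 6 * (a0 : ℝ) by positivity)
          have e2 := mul_le_mul_of_nonneg_left (hwp 10 18 (by norm_num)) hasq
          linarith
      _ = (6 * a0 + (a0 : ℝ) ^ 2) * w ^ 18 := by ring
      _ ≤ K * w ^ 18 := mul_le_mul_of_nonneg_right hK1 hw18
  have bR2 : w ^ 2 * (2 * (a0 * q * (w ^ 2) ^ 2) * (l : ℝ) + (a0 * q * (w ^ 2) ^ 2) ^ 2) ≤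
      K * w ^ 18 := by
    calc _ ≤ w ^ 2 * (2 * (a0 * w * (w ^ 2) ^ 2) * (3 * w ^ 10) + (a0 * w * (w ^ 2) ^ 2) ^ 2) :=
          mul_le_mul_of_nonneg_left bE (by positivity)
      _ = 6 * a0 * w ^ 17 + (a0 : ℝ) ^ 2 * w ^ 12 := by ring
      _ ≤ 6 * a0 * w ^ 18 + (a0 : ℝ) ^ 2 * w ^ 18 := by
          have e1 := mul_le_mul_of_nonneg_left (hwp 17 18 (by norm_num))
            (show 0 ≤ 6 * (a0 : ℝ) by positivity)
          have e2 := mul_le_mul_of_nonneg_left (hwp 12 18 (by norm_num)) hasq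
          linarith
      _ = (6 * a0 + (a0 : ℝ) ^ 2) * w ^ 18 := by ring
      _ ≤ K * w ^ 18 := mul_le_mul_of_nonneg_right hK1 hw18
  have bR3 : 24 * (kk : ℝ) ^ 2 * (l : ℝ) ^ 2 / w ^ 2 ≤ K * w ^ 18 := by
    rw [div_le_iff₀ (by positivity)]
    calc 24 * (kk : ℝ) ^ 2 * (l : ℝ) ^ 2 ≤ 24 * (kk : ℝ) ^ 2 * (3 * w ^ 10) ^ 2 := by gcongr
      _ = 216 * (kk : ℝ) ^ 2 * w ^ 20 := by ring
      _ ≤ K * w ^ 20 := by
          exact mul_le_mul_of_nonneg_right hK2 (by positivity)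
      _ = K * w ^ 18 * w ^ 2 := by ring
  have bG1 : 2 * (l : ℝ) * ((l : ℝ) / w ^ 2 + 1) ≤ K * w ^ 18 := by
    have h1 : (l : ℝ) / w ^ 2 ≤ 3 * w ^ 8 := by
      rw [div_le_iff₀ (by positivity)]
      calc (l : ℝ) ≤ 3 * w ^ 10 := hl2
        _ = 3 * w ^ 8 * w ^ 2 := by ring
    calc 2 * (l : ℝ) * ((l : ℝ) / w ^ 2 + 1) ≤ 2 * (3 * w ^ 10) * (3 * w ^ 8 + 1) := by gcongr
      _ = 18 * w ^ 18 + 6 * w ^ 10 := by ring
      _ ≤ 60 * w ^ 18 := by linarith [hwp 10 18 (by norm_num)]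
      _ ≤ K * w ^ 18 := mul_le_mul_of_nonneg_right hK3 hw18
  -- the singular factor
  set ℓ := Real.log P ^ (-α) * Lg ^ (α - 1) with hℓ
  have hlP0 : 0 < Real.log P := Real.log_pos (by linarith)
  have hlPL : Real.log P ≤ Lg := by
    refine hPU.trans ?_
    calc Lg ^ (1 / 2 : ℝ) ≤ Lg ^ (1 : ℝ) := by
          apply Real.rpow_le_rpow_of_exponent_le (by linarith) (by norm_num)
      _ = Lg := Real.rpow_one _
  have hℓ1 : 1 / Lg ≤ ℓ := by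
    have h1 : Lg ^ (-α) ≤ Real.log P ^ (-α) :=
      Real.rpow_le_rpow_of_nonpos hlP0 hlPL (by linarith)
    calc 1 / Lg = Lg ^ (-α) * Lg ^ (α - 1) := by
          rw [← Real.rpow_add hLg0, show -α + (α - 1) = -1 by ring, Real.rpow_neg_one, one_div]
      _ ≤ ℓ := by
          rw [hℓ]
          exact mul_le_mul_of_nonneg_right h1 (by positivity)
  have hlY : ℓ ≤ Real.log P ^ (-α) * Real.log Y ^ (α - 1) := by
    rw [hℓ]
    apply mul_le_mul_of_nonneg_left _ (by positivity)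
    apply Real.rpow_le_rpow_of_nonpos _ (Real.log_le_log (by linarith) hYD) (by linarith)
    apply Real.log_pos
    linarith
  -- X from below
  have hqp : ∀ p : ℕ, p.Prime → p ∣ q → p ≠ 2 ∧ ¬ (p : ℤ) ∣ D := by
    intro p hp hpq
    apply h.ne2 hp
    intro hpa
    have := Nat.dvd_gcd hpq hpa
    rw [hqa] at this
    exact hp.one_lt.ne' (Nat.dvd_one.1 this)
  have hXlo : cX * w ^ 20 * ((q.totient : ℝ) / (q : ℝ) ^ 2) ≤ X := by
    have h1 := av_sqn_ge' (A := A) (B := B) (C := C) h.disc hq hqp r hr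
    rw [hX]
    unfold XN
    rw [av_cq h.a1 hq hqa.symm r]
    have h2 : cb * w ^ 20 ≤ ((B1 - A1 : ℤ) : ℝ) * (T0 : ℝ) := by rw [hwD]; exact hLT
    have h3 : 0 ≤ cb * w ^ 20 := by positivity
    calc cX * w ^ 20 * ((q.totient : ℝ) / (q : ℝ) ^ 2)
        = (cb * w ^ 20) * (1 / (a0 : ℝ) ^ 2 * ((q.totient : ℝ) / (q : ℝ) ^ 2)) := by
          rw [hcX]; ring
      _ ≤ _ := mul_le_mul h2 (mul_le_mul_of_nonneg_left h1 (by positivity)) (by positivity)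
          (h3.trans h2)
  have hφ : (q : ℝ) ≤ 3 * Lg * (q.totient : ℝ) := by
    have h1 := Pool.Agent.Var35.totient_ge q hq
    refine h1.trans ?_
    apply mul_le_mul_of_nonneg_right _ (Nat.cast_nonneg _)
    have h2 : Real.log q ≤ Lg := by
      apply Real.log_le_log (by linarith)
      calc (q : ℝ) ≤ w := hqw
        _ = w ^ 1 := (pow_one w).symm
        _ ≤ w ^ 20 := hwp 1 20 (by norm_num)
        _ = Δ := hwD
    linarith
  have he6 : 8 / κ ≤ Lg ^ 17 := by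
    calc 8 / κ ≤ Lg := hLgκ
      _ = Lg ^ 1 := (pow_one _).symm
      _ ≤ Lg ^ 17 := pow_le_pow_right₀ (by linarith) (by norm_num)
  have he7' : 15 * K / (cX * κ) * Lg ^ 4 ≤ w := by
    rw [hw9]
    have e : Lg ^ (4 : ℝ) = Lg ^ 4 := by
      rw [← Real.rpow_natCast]
      norm_num
    rw [← e]
    exact he7
  have key := zsN_numbers κ cX K Lg w X ℓ P q q.totient F.card R1
    (w ^ 2 * (2 * (a0 * q * (w ^ 2) ^ 2) * (l : ℝ) + (a0 * q * (w ^ 2) ^ 2) ^ 2))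
    (24 * (kk : ℝ) ^ 2 * (l : ℝ) ^ 2 / w ^ 2)
    (2 * (a0 * q * (w ^ 2) ^ 2) * (l : ℝ) + (a0 * q * (w ^ 2) ^ 2) ^ 2)
    (2 * (l : ℝ) * ((l : ℝ) / w ^ 2 + 1)) hκ0 hcX0 hK0 (by linarith) hw1 hℓ1 hPL hq' hqw hφ hXlo
    (Nat.cast_nonneg _) hFc bR1 bR2 bR3 bE1 bG1 he6 he7'
  have hαm : α ^ m ≤ 1 := pow_le_one₀ hα.le hα1
  have hαm0 : 0 < α ^ m := by positivity
  have hR10 : 0 ≤ R1 := by
    rw [hR1]
    positivity
  have g1 : 4 * κ * (X * ℓ) - R1 ≤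
      α ^ m * ∑ z ∈ famN A B C a0 A1 B1 T0 q r, ∏ p ∈ sSN D a0 P Y q,
        (1 - xpN A B C P α p z.1 z.2) := by
    have h1 := mul_le_mul_of_nonneg_left f2 hαm0.le
    have h2 : 4 * κ * (X * ℓ) ≤
        α ^ m * (1 / 2 * (X * (c1 * Real.log P ^ (-α) * Real.log Y ^ (α - 1)))) := by
      have h3 : X * (c1 * ℓ) ≤ X * (c1 * Real.log P ^ (-α) * Real.log Y ^ (α - 1)) := by
        apply mul_le_mul_of_nonneg_left _ hX0
        rw [mul_assoc]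
        exact mul_le_mul_of_nonneg_left hlY hc1.le
      have h4 := mul_le_mul_of_nonneg_left h3 (show 0 ≤ α ^ m * (1 / 2) by positivity)
      calc 4 * κ * (X * ℓ) = α ^ m * (1 / 2) * (X * (c1 * ℓ)) := by
            rw [hκ]
            ring
        _ ≤ _ := h4
        _ = _ := by ring
    have h5 : α ^ m * R1 ≤ R1 := mul_le_of_le_one_left hR10 hαm
    rw [mul_sub] at h1
    linarith
  have g2 : 2 * κ * cX * (Δ / q) * (q.totient / q) * Real.log P ^ (-α) * Lg ^ (α - 1) =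
      2 * κ * cX * (w ^ 20 * q.totient / (q : ℝ) ^ 2) * ℓ := by
    rw [hwD, hℓ]
    field_simp
  rw [g2]
  linarith

end Pool.Agent.AQM
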