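import Pool.Agent.Lib_helper8.PENT.ZDefs

/-!
# AQ (MP_892e4c_nt): definitions for the sums of `(2 α)^ω(d)` in progressions (helper15)

Forms `A s² + 2 B s t + C t²` with `A C - B² = D`, `-D` not a square; every prime divisor of `2 D`
divides `a0`.
-/

set_option autoImplicit false

namespace Pool.Agent.AQM

open Pool.Agent.PENT

/-- the indicator of `m ∣ X² + D t² - ρ` -/
noncomputable def sqd (D : ℤ) (m : ℕ) (ρ X t : ℤ) : ℝ :=
  if (m : ℤ) ∣ X ^ 2 + D * t ^ 2 - ρ then 1 else 0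

/-- the form -/
def Nf (A B C s t : ℤ) : ℤ := A * s ^ 2 + 2 * B * s * t + C * t ^ 2

/-- the indicator of `m ∣ N(s, t) - ρ` -/
noncomputable def sqn (A B C : ℤ) (m : ℕ) (ρ s t : ℤ) : ℝ :=
  if (m : ℤ) ∣ Nf A B C s t - ρ then 1 else 0

/-- `p` does not divide `a0` and `-D` is a square modulo `p` -/
def Spq (D : ℤ) (a0 p : ℕ) : Prop := ¬ p ∣ a0 ∧ IsSquare ((-D : ℤ) : ZMod p)

/-- squarefree, all prime factors of type `Spq` and `> P` -/
def DPq (D : ℤ) (a0 : ℕ) (P : ℝ) (d : ℕ) : Prop :=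
  Squarefree d ∧ ∀ p : ℕ, p.Prime → p ∣ d → Spq D a0 p ∧ P < (p : ℝ)

open Classical in
/-- the weight `(2 α)^ω(d)` on `DPq` -/
noncomputable def fwq (D : ℤ) (a0 : ℕ) (P α : ℝ) (d : ℕ) : ℝ :=
  if DPq D a0 P d then (2 * α) ^ d.primeFactors.card else 0

end Pool.Agent.AQM
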