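import Pool.Agent.Lib_helper15.AQ.Z0
import Pool.Agent.Lib_helper8.PENT.B.zd
import Pool.Agent.Lib_helper8.PENT.B.zf
import Pool.Agent.Lib_helper8.PENT.B.zh

/-!
# AQ (MP_892e4c_nt): local counts for `X² + D t²` (helper15)
-/

set_option autoImplicit false

namespace Pool.Agent.AQM

open Pool.Agent.PENT

theorem sqd_01 (D : ℤ) (m : ℕ) (r s t : ℤ) : 0 ≤ sqd D m r s t ∧ sqd D m r s t ≤ 1 := by
  unfold sqd
  split_ifs <;> norm_num

theorem per_sqd (D : ℤ) (m : ℕ) (r : ℤ) : Per m (sqd D m r) := by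
  intro s t s' t' hs ht
  unfold sqd
  have h : (m : ℤ) ∣ (s ^ 2 + D * t ^ 2 - r) - (s' ^ 2 + D * t' ^ 2 - r) := by
    have e : (s ^ 2 + D * t ^ 2 - r) - (s' ^ 2 + D * t' ^ 2 - r) =
        (s - s') * (s + s') + (t - t') * (D * (t + t')) := by ring
    rw [e]
    exact dvd_add (hs.mul_right _) (ht.mul_right _)
  have h2 : (m : ℤ) ∣ s ^ 2 + D * t ^ 2 - r ↔ (m : ℤ) ∣ s' ^ 2 + D * t' ^ 2 - r :=
    (dvd_iff_dvd_of_dvd_sub h)
  simp only [h2]

/-- sums over `X` first -/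
theorem z1_swap (m : ℕ) (h : ℤ → ℤ → ℝ) :
    av m h = (∑ b ∈ Finset.range m, ∑ a ∈ Finset.range m, h (a : ℤ) (b : ℤ)) / (m : ℝ) ^ 2 := by
  unfold av
  rw [Finset.sum_comm]

/-- at most two `X` for each `t` -/
theorem av_sqd_le (D : ℤ) {p : ℕ} (hp : p.Prime) (ρ : ℤ) : av p (sqd D p ρ) ≤ 2 / (p : ℝ) := by
  have hp0 : (0 : ℝ) < p := by exact_mod_cast hp.pos
  have h1 : ∀ b ∈ Finset.range p, ∑ a ∈ Finset.range p, sqd D p ρ (a : ℤ) (b : ℤ) ≤ 2 := by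
    intro b _
    have h2 : ∑ a ∈ Finset.range p, sqd D p ρ (a : ℤ) (b : ℤ) =
        (((Finset.range p).filter
          (fun a : ℕ => (p : ℤ) ∣ (a : ℤ) ^ 2 - (ρ - D * (b : ℤ) ^ 2))).card : ℝ) := by
      rw [Finset.card_filter]
      push_cast
      refine Finset.sum_congr rfl fun a _ => ?_
      unfold sqd
      have h3 : (a : ℤ) ^ 2 + D * (b : ℤ) ^ 2 - ρ = (a : ℤ) ^ 2 - (ρ - D * (b : ℤ) ^ 2) := by ring
      rw [h3]
    rw [h2]
    exact_mod_cast zd_card hp _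
  rw [z1_swap]
  have h4 : ∑ b ∈ Finset.range p, ∑ a ∈ Finset.range p, sqd D p ρ (a : ℤ) (b : ℤ) ≤ p * 2 := by
    calc ∑ b ∈ Finset.range p, ∑ a ∈ Finset.range p, sqd D p ρ (a : ℤ) (b : ℤ)
        ≤ ∑ b ∈ Finset.range p, (2 : ℝ) := Finset.sum_le_sum h1
      _ = p * 2 := by simp
  rw [div_le_div_iff₀ (by positivity) hp0]
  nlinarith

/-- if `-D` is not a square modulo `p` then `p ∣ X² + D t²` only for `p ∣ X, t` -/
theorem z1_inert {D : ℤ} {p : ℕ} (hp : p.Prime) (hD : ¬ IsSquare ((-D : ℤ) : ZMod p)) (X t : ℤ)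
    (h : (p : ℤ) ∣ X ^ 2 + D * t ^ 2) : (p : ℤ) ∣ X ∧ (p : ℤ) ∣ t := by
  have hF : Fact p.Prime := ⟨hp⟩
  have h2 : ((X ^ 2 + D * t ^ 2 : ℤ) : ZMod p) = 0 := (ZMod.intCast_zmod_eq_zero_iff_dvd _ p).mpr h
  push_cast at h2
  have ht : ((t : ZMod p)) = 0 := by
    by_contra hne
    apply hD
    refine ⟨(X : ZMod p) / t, ?_⟩
    push_cast
    field_simp
    linear_combination -h2
  have hX : ((X : ZMod p)) = 0 := by
    rw [ht] at h2
    have : (X : ZMod p) ^ 2 = 0 := by simpa using h2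
    exact pow_eq_zero_iff (by norm_num) |>.1 this
  exact ⟨(ZMod.intCast_zmod_eq_zero_iff_dvd X p).mp hX, (ZMod.intCast_zmod_eq_zero_iff_dvd t p).mp ht⟩

theorem av_sqd_inert {D : ℤ} {p : ℕ} (hp : p.Prime) (hD : ¬ IsSquare ((-D : ℤ) : ZMod p)) :
    av p (sqd D p 0) ≤ 1 / (p : ℝ) ^ 2 := by
  unfold av
  apply div_le_div_of_nonneg_right _ (by positivity)
  have h1 : ∀ a ∈ Finset.range p, ∀ b ∈ Finset.range p, sqd D p 0 (a : ℤ) (b : ℤ) ≤
      (if a = 0 then (1 : ℝ) else 0) * (if b = 0 then (1 : ℝ) else 0) := by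
    intro a ha b hb
    rw [Finset.mem_range] at ha hb
    unfold sqd
    by_cases h : (p : ℤ) ∣ (a : ℤ) ^ 2 + D * (b : ℤ) ^ 2 - 0
    · rw [if_pos h]
      rw [sub_zero] at h
      obtain ⟨h2, h3⟩ := z1_inert hp hD _ _ h
      have h4 : p ∣ a := by exact_mod_cast h2
      have h5 : p ∣ b := by exact_mod_cast h3
      rw [if_pos (Nat.eq_zero_of_dvd_of_lt h4 ha), if_pos (Nat.eq_zero_of_dvd_of_lt h5 hb)]
      norm_num
    · rw [if_neg h]
      split_ifs <;> norm_num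
  calc ∑ a ∈ Finset.range p, ∑ b ∈ Finset.range p, sqd D p 0 (a : ℤ) (b : ℤ)
      ≤ ∑ a ∈ Finset.range p, ∑ b ∈ Finset.range p,
        (if a = 0 then (1 : ℝ) else 0) * (if b = 0 then (1 : ℝ) else 0) :=
        Finset.sum_le_sum fun a ha => Finset.sum_le_sum fun b hb => h1 a ha b hb
    _ = (∑ a ∈ Finset.range p, if a = 0 then (1 : ℝ) else 0) *
        ∑ b ∈ Finset.range p, if b = 0 then (1 : ℝ) else 0 := by rw [Finset.sum_mul_sum]
    _ ≤ 1 := by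
      rw [Finset.sum_ite_eq' (Finset.range p) 0 (fun _ => (1 : ℝ))]
      split_ifs <;> norm_num

/-! ### modulo `p²` -/

theorem z1_row (D : ℤ) (p : ℕ) (hp : p.Prime) (h2 : p ≠ 2) (hD : ¬ (p : ℤ) ∣ D) (b : ℤ)
    (hb : ¬ (p : ℤ) ∣ b) :
    ((Finset.range (p ^ 2)).filter
      (fun a : ℕ => ((p ^ 2 : ℕ) : ℤ) ∣ (a : ℤ) ^ 2 + D * b ^ 2 - 0)).card ≤ 2 := by
  rcases Finset.eq_empty_or_nonempty ((Finset.range (p ^ 2)).filter
      (fun a : ℕ => ((p ^ 2 : ℕ) : ℤ) ∣ (a : ℤ) ^ 2 + D * b ^ 2 - 0)) with h0 | ⟨b0, hb0⟩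
  · rw [h0]; simp
  · have hpZ : Prime (p : ℤ) := Nat.prime_iff_prime_int.mp hp
    rw [Finset.mem_filter, Finset.mem_range] at hb0
    obtain ⟨hb0l, hb0d⟩ := hb0
    have hpow : ((p ^ 2 : ℕ) : ℤ) = (p : ℤ) ^ 2 := by push_cast; ring
    rw [hpow, sub_zero] at hb0d
    have hnb0 : ¬ (p : ℤ) ∣ (b0 : ℤ) := by
      intro h
      have h1 : (p : ℤ) ∣ (b0 : ℤ) ^ 2 + D * b ^ 2 :=
        dvd_trans (Dvd.intro_left ((p : ℤ) ^ 1) (by ring)) hb0d
      have h2 : (p : ℤ) ∣ (b0 : ℤ) ^ 2 := dvd_pow h two_ne_zero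
      have h3 : (p : ℤ) ∣ D * b ^ 2 := (dvd_add_right h2).mp h1
      rcases hpZ.dvd_or_dvd h3 with h4 | h4
      · exact hD h4
      · exact hb (hpZ.dvd_of_dvd_pow h4)
    have hsub : (Finset.range (p ^ 2)).filter
      (fun a : ℕ => ((p ^ 2 : ℕ) : ℤ) ∣ (a : ℤ) ^ 2 + D * b ^ 2 - 0) ⊆ {b0, p ^ 2 - b0} := by
      intro a ha
      rw [Finset.mem_filter, Finset.mem_range, hpow, sub_zero] at ha
      obtain ⟨hbl, hbd⟩ := ha
      have hd : (p : ℤ) ^ 2 ∣ ((a : ℤ) - b0) * ((a : ℤ) + b0) := by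
        have := dvd_sub hbd hb0d
        have he : (a : ℤ) ^ 2 + D * b ^ 2 - ((b0 : ℤ) ^ 2 + D * b ^ 2) =
          ((a : ℤ) - b0) * ((a : ℤ) + b0) := by ring
        rwa [he] at this
      rw [Finset.mem_insert, Finset.mem_singleton]
      by_cases hm : (p : ℤ) ∣ (a : ℤ) - b0
      · have hpl : ¬ (p : ℤ) ∣ (a : ℤ) + b0 := by
          intro h
          have h1 : (p : ℤ) ∣ 2 * (b0 : ℤ) := by
            have := dvd_sub h hm
            have he : (a : ℤ) + b0 - ((a : ℤ) - b0) = 2 * b0 := by ring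
            rwa [he] at this
          rcases hpZ.dvd_or_dvd h1 with h3 | h3
          · have : p ∣ 2 := by exact_mod_cast h3
            exact h2 ((Nat.prime_dvd_prime_iff_eq hp Nat.prime_two).mp this)
          · exact hnb0 h3
        have hco : IsCoprime ((p : ℤ) ^ 2) ((a : ℤ) + b0) :=
          IsCoprime.pow_left ((Prime.coprime_iff_not_dvd hpZ).mpr hpl)
        have h1 : (p : ℤ) ^ 2 ∣ (a : ℤ) - b0 := hco.dvd_of_dvd_mul_right hd
        left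
        have h2 : |(a : ℤ) - b0| < (p : ℤ) ^ 2 := by
          have e1 : (a : ℤ) < (p : ℤ) ^ 2 := by exact_mod_cast hbl
          have e2 : (b0 : ℤ) < (p : ℤ) ^ 2 := by exact_mod_cast hb0l
          rw [abs_lt]; constructor <;> omega
        have h3 := Int.eq_zero_of_abs_lt_dvd h1 h2
        omega
      · have hco : IsCoprime ((p : ℤ) ^ 2) ((a : ℤ) - b0) :=
          IsCoprime.pow_left ((Prime.coprime_iff_not_dvd hpZ).mpr hm)
        have h1 : (p : ℤ) ^ 2 ∣ (a : ℤ) + b0 := hco.dvd_of_dvd_mul_left hd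
        have h1' : p ^ 2 ∣ a + b0 := by exact_mod_cast h1
        obtain ⟨k, hk⟩ := h1'
        have hk2 : k < 2 := by
          by_contra hk2
          push Not at hk2
          have : p ^ 2 * 2 ≤ p ^ 2 * k := Nat.mul_le_mul_left _ hk2
          omega
        interval_cases k
        · left; omega
        · right; omega
    calc _ ≤ ({b0, p ^ 2 - b0} : Finset ℕ).card := Finset.card_le_card hsub
      _ ≤ 2 := Finset.card_le_two

theorem z1_row' (D : ℤ) (p : ℕ) (hp : p.Prime) (b : ℤ) (hb : (p : ℤ) ∣ b) :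
    ((Finset.range (p ^ 2)).filter
      (fun a : ℕ => ((p ^ 2 : ℕ) : ℤ) ∣ (a : ℤ) ^ 2 + D * b ^ 2 - 0)).card ≤ p := by
  have hpZ : Prime (p : ℤ) := Nat.prime_iff_prime_int.mp hp
  refine le_trans (Finset.card_le_card ?_) (zf_mult p hp)
  intro a ha
  rw [Finset.mem_filter] at ha ⊢
  refine ⟨ha.1, ?_⟩
  have hpow : ((p ^ 2 : ℕ) : ℤ) = (p : ℤ) ^ 2 := by push_cast; ring
  have h0 := ha.2
  rw [hpow, sub_zero] at h0
  have h1 : (p : ℤ) ∣ (a : ℤ) ^ 2 + D * b ^ 2 := dvd_trans (Dvd.intro_left ((p : ℤ) ^ 1) (by ring)) h0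
  have h2 : (p : ℤ) ∣ D * b ^ 2 := (dvd_pow hb two_ne_zero).mul_left _
  have h3 : (p : ℤ) ∣ (a : ℤ) ^ 2 := (dvd_add_left h2).mp h1
  have h4 := hpZ.dvd_of_dvd_pow h3
  exact_mod_cast h4

/-- `p² ∣ X² + D t²`: at most `3 p²` pairs modulo `p²` -/
theorem av_sqd_sq {D : ℤ} {p : ℕ} (hp : p.Prime) (h2 : p ≠ 2) (hD : ¬ (p : ℤ) ∣ D) :
    av (p ^ 2) (sqd D (p ^ 2) 0) ≤ 3 / (p : ℝ) ^ 2 := by
  have hp0 : (0 : ℝ) < p := by exact_mod_cast hp.pos
  have hrow : ∀ b ∈ Finset.range (p ^ 2), ∑ a ∈ Finset.range (p ^ 2),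
      sqd D (p ^ 2) 0 (a : ℤ) (b : ℤ) ≤ 2 + (if p ∣ b then (p : ℝ) else 0) := by
    intro b _
    have e : ∑ a ∈ Finset.range (p ^ 2), sqd D (p ^ 2) 0 (a : ℤ) (b : ℤ) =
      (((Finset.range (p ^ 2)).filter
      (fun a : ℕ => ((p ^ 2 : ℕ) : ℤ) ∣ (a : ℤ) ^ 2 + D * (b : ℤ) ^ 2 - 0)).card : ℝ) := by
      unfold sqd
      rw [Finset.card_filter]
      push_cast
      rfl
    rw [e]
    by_cases hb : p ∣ b
    · rw [if_pos hb]
      have := z1_row' D p hp (b : ℤ) (by exact_mod_cast hb)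
      have h2 : (((Finset.range (p ^ 2)).filter
      (fun a : ℕ => ((p ^ 2 : ℕ) : ℤ) ∣ (a : ℤ) ^ 2 + D * (b : ℤ) ^ 2 - 0)).card : ℝ) ≤ p := by
        exact_mod_cast this
      linarith
    · rw [if_neg hb, add_zero]
      have := z1_row D p hp h2 hD (b : ℤ) (by exact_mod_cast hb)
      exact_mod_cast this
  have hsum : ∑ b ∈ Finset.range (p ^ 2), ∑ a ∈ Finset.range (p ^ 2),
      sqd D (p ^ 2) 0 (a : ℤ) (b : ℤ) ≤ 3 * (p : ℝ) ^ 2 := by
    refine le_trans (Finset.sum_le_sum hrow) ?_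
    rw [Finset.sum_add_distrib, Finset.sum_const, Finset.card_range, ← Finset.sum_filter,
      Finset.sum_const, nsmul_eq_mul, nsmul_eq_mul]
    have := zf_mult p hp
    have h2 : (((Finset.range (p ^ 2)).filter (fun b : ℕ => p ∣ b)).card : ℝ) ≤ p := by
      exact_mod_cast this
    have h3 := mul_le_mul_of_nonneg_right h2 hp0.le
    push_cast
    nlinarith
  rw [z1_swap]
  have hpp : (0 : ℝ) < ((p ^ 2 : ℕ) : ℝ) ^ 2 := by push_cast; positivity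
  rw [div_le_div_iff₀ hpp (by positivity)]
  push_cast
  calc _ ≤ (3 * (p : ℝ) ^ 2) * (p : ℝ) ^ 2 :=
        mul_le_mul_of_nonneg_right (by exact_mod_cast hsum) (by positivity)
    _ = 3 * ((p : ℝ) ^ 2) ^ 2 := by ring

end Pool.Agent.AQM
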