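import Pool.Agent.Lib_helper15.AQ.Z9

/-!
# AQ (MP_892e4c_nt): the lower bound in progressions, box and numbers (helper15)
-/

set_option autoImplicit false

namespace Pool.Agent.AQM

open Finset Filter Pool.Agent.PENT

theorem boxN_dims {A B C : ℤ} (hA : 0 < A) {θ Δ η : ℝ} (hθ : 0 < θ) (hθ1 : θ ≤ 1) (hη : 0 < η)
    (hη1 : η * (16 * (3 * |(B : ℝ)| + |(C : ℝ)| + 1)) ≤ θ)
    (h1 : 16 / θ ≤ Real.sqrt (Δ / A)) (h2 : 2 / η ≤ Real.sqrt Δ) :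
    ∃ A1 B1 T0 : ℤ, BxC A B C θ Δ A1 B1 T0 ∧ A1 ≤ B1 ∧ 0 ≤ T0 ∧
      (B1 : ℝ) ≤ 2 * Real.sqrt Δ ∧ (T0 : ℝ) ≤ 2 * Real.sqrt Δ ∧
      θ * η / (32 * Real.sqrt A) * Δ ≤ ((B1 - A1 : ℤ) : ℝ) * (T0 : ℝ) := by
  have hA' : (1 : ℝ) ≤ A := by exact_mod_cast hA
  have hA0 : (0 : ℝ) < A := by linarith
  obtain ⟨S, hS⟩ : ∃ S, S = Real.sqrt Δ := ⟨_, rfl⟩
  obtain ⟨W, hW⟩ : ∃ W, W = Real.sqrt (Δ / A) := ⟨_, rfl⟩
  obtain ⟨a, ha⟩ : ∃ a, a = Real.sqrt (A : ℝ) := ⟨_, rfl⟩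
  rw [← hS] at h2
  rw [← hW] at h1
  rw [← hS, ← ha]
  have hS0 : 0 < S := lt_of_lt_of_le (by positivity) h2
  have hΔ0 : 0 < Δ := by rw [hS] at hS0; exact Real.sqrt_pos.1 hS0
  have hW0 : 0 < W := lt_of_lt_of_le (by positivity) h1
  have hSS : S ^ 2 = Δ := by rw [hS]; exact Real.sq_sqrt hΔ0.le
  have hWW : A * W ^ 2 = Δ := by
    rw [hW, Real.sq_sqrt (by positivity)]
    field_simp
  have ha1 : 1 ≤ a := by
    rw [ha, ← Real.sqrt_one]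
    exact Real.sqrt_le_sqrt hA'
  have ha0 : 0 < a := by linarith
  have haa : a ^ 2 = A := by rw [ha]; exact Real.sq_sqrt hA0.le
  have hWS : a * W = S := by
    have : (a * W) ^ 2 = S ^ 2 := by rw [mul_pow, haa, hWW, hSS]
    exact (pow_left_inj₀ (by positivity) hS0.le two_ne_zero).1 this
  have hWS' : W ≤ S := by nlinarith
  have hη16 : η ≤ 1 / 16 := by
    have h3 : 0 ≤ 3 * |(B : ℝ)| + |(C : ℝ)| := by positivity
    nlinarith
  set A1 : ℤ := ⌊W * (1 + θ / 8)⌋ with hA1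
  set B1 : ℤ := ⌊W * (1 + θ / 4)⌋ with hB1
  set T0 : ℤ := ⌊η * S⌋ with hT0
  have hBv : (B1 : ℝ) ≤ W * (1 + θ / 4) := Int.floor_le _
  have hBv' : W * (1 + θ / 4) < B1 + 1 := Int.lt_floor_add_one _
  have hAu : (A1 : ℝ) ≤ W * (1 + θ / 8) := Int.floor_le _
  have hAu' : W * (1 + θ / 8) < A1 + 1 := Int.lt_floor_add_one _
  have hTu : (T0 : ℝ) ≤ η * S := Int.floor_le _
  have hTu' : η * S < T0 + 1 := Int.lt_floor_add_one _
  have hA10 : 0 ≤ A1 := Int.floor_nonneg.2 (by positivity)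
  have hT00 : 0 ≤ T0 := Int.floor_nonneg.2 (by positivity)
  have h16 : 16 ≤ θ * W := by
    rw [div_le_iff₀ hθ] at h1
    linarith
  have h2' : 2 ≤ η * S := by
    rw [div_le_iff₀ hη] at h2
    linarith
  have hL : θ / 16 * W ≤ ((B1 - A1 : ℤ) : ℝ) := by
    push_cast
    nlinarith
  have hT : η / 2 * S ≤ (T0 : ℝ) := by nlinarith
  have hv : W * (1 + θ / 4) ≤ 5 / 4 * S := by nlinarith
  have hS2 : η * S ≤ S := by nlinarith
  -- the values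
  have hval : ∀ s ∈ Finset.Ioc A1 B1, ∀ t ∈ Finset.Ioc 0 T0,
      W * (1 + θ / 8) < (s : ℝ) ∧ (s : ℝ) ≤ W * (1 + θ / 4) ∧
      |2 * (B : ℝ) * s * t + C * (t : ℝ) ^ 2| ≤ θ / 16 * Δ := by
    intro s hs t ht
    obtain ⟨s1, s2⟩ := Finset.mem_Ioc.1 hs
    obtain ⟨t1, t2⟩ := Finset.mem_Ioc.1 ht
    have e1 : W * (1 + θ / 8) < (s : ℝ) := by
      have : (A1 : ℝ) + 1 ≤ s := by exact_mod_cast s1
      linarith
    have e2 : (s : ℝ) ≤ W * (1 + θ / 4) := le_trans (by exact_mod_cast s2) hBv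
    have e3 : (0 : ℝ) < t := by exact_mod_cast t1
    have e4 : (t : ℝ) ≤ η * S := le_trans (by exact_mod_cast t2) hTu
    have e0 : (0 : ℝ) < s := lt_trans (by positivity) e1
    refine ⟨e1, e2, ?_⟩
    have e5 : (s : ℝ) * t ≤ 5 / 4 * S * (η * S) := mul_le_mul (e2.trans hv) e4 e3.le (by positivity)
    have e6 : (t : ℝ) ^ 2 ≤ η * S * S := by
      rw [sq]
      exact mul_le_mul e4 (e4.trans hS2) e3.le (by positivity)
    have e7 : |2 * (B : ℝ) * s * t| ≤ |(B : ℝ)| * (2 * (5 / 4 * S * (η * S))) := by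
      have : |2 * (B : ℝ) * s * t| = |(B : ℝ)| * (2 * (s * t)) := by
        rw [show 2 * (B : ℝ) * s * t = B * (2 * (s * t)) by ring, abs_mul,
          abs_of_pos (by positivity : 0 < 2 * ((s : ℝ) * t))]
      rw [this]
      exact mul_le_mul_of_nonneg_left (by linarith) (abs_nonneg _)
    have e8 : |(C : ℝ) * (t : ℝ) ^ 2| ≤ |(C : ℝ)| * (η * S * S) := by
      rw [abs_mul, abs_of_nonneg (by positivity : 0 ≤ (t : ℝ) ^ 2)]
      exact mul_le_mul_of_nonneg_left e6 (abs_nonneg _)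
    have e9 : |(B : ℝ)| * (2 * (5 / 4 * S * (η * S))) + |(C : ℝ)| * (η * S * S) ≤
        η * (3 * |(B : ℝ)| + |(C : ℝ)| + 1) * Δ := by
      rw [← hSS]
      have f1 := abs_nonneg (B : ℝ)
      have f2 : 0 ≤ η * S ^ 2 := by positivity
      nlinarith [mul_nonneg f1 f2]
    have e10 : η * (3 * |(B : ℝ)| + |(C : ℝ)| + 1) * Δ ≤ θ / 16 * Δ := by
      apply mul_le_mul_of_nonneg_right _ hΔ0.le
      linarith
    calc |2 * (B : ℝ) * s * t + C * (t : ℝ) ^ 2| ≤ |2 * (B : ℝ) * s * t| + |(C : ℝ) * (t : ℝ) ^ 2| :=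
          abs_add_le _ _
      _ ≤ _ := by linarith
  have hN : ∀ s t : ℤ, ((Nf A B C s t : ℤ) : ℝ) =
      A * (s : ℝ) ^ 2 + (2 * (B : ℝ) * s * t + C * (t : ℝ) ^ 2) := by
    intro s t
    unfold Nf
    push_cast
    ring
  refine ⟨A1, B1, T0, ⟨hA10, ?_, ?_, ?_⟩, ?_, hT00, ?_, ?_, ?_⟩
  · intro s hs t ht
    obtain ⟨e1, e2, e3⟩ := hval s hs t ht
    rw [hN]
    have e4 := (abs_le.1 e3).1
    have e5 : A * (W * (1 + θ / 8)) ^ 2 ≤ A * (s : ℝ) ^ 2 := by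
      apply mul_le_mul_of_nonneg_left _ hA0.le
      exact pow_le_pow_left₀ (by positivity) e1.le 2
    have e6 : A * (W * (1 + θ / 8)) ^ 2 = Δ * (1 + θ / 8) ^ 2 := by rw [← hWW]; ring
    have e7 : Δ * (1 + θ / 4) ≤ Δ * (1 + θ / 8) ^ 2 := by
      apply mul_le_mul_of_nonneg_left _ hΔ0.le
      nlinarith
    nlinarith [mul_pos hθ hΔ0]
  · intro s hs t ht
    obtain ⟨e1, e2, e3⟩ := hval s hs t ht
    rw [hN]
    have e4 := (abs_le.1 e3).2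
    have e0 : (0 : ℝ) ≤ s := le_trans (by positivity) e1.le
    have e5 : A * (s : ℝ) ^ 2 ≤ A * (W * (1 + θ / 4)) ^ 2 := by
      apply mul_le_mul_of_nonneg_left _ hA0.le
      exact pow_le_pow_left₀ e0 e2 2
    have e6 : A * (W * (1 + θ / 4)) ^ 2 = Δ * (1 + θ / 4) ^ 2 := by rw [← hWW]; ring
    have e7 : Δ * (1 + θ / 4) ^ 2 ≤ Δ * (1 + θ / 2 + θ / 16) := by
      apply mul_le_mul_of_nonneg_left _ hΔ0.le
      nlinarith
    nlinarith [mul_pos hθ hΔ0]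
  · have e0 : (0 : ℝ) ≤ T0 := by exact_mod_cast hT00
    calc (B1 : ℝ) * (T0 : ℝ) ≤ (5 / 4 * S) * (η * S) :=
          mul_le_mul (hBv.trans hv) hTu e0 (by positivity)
      _ = 5 / 4 * η * Δ := by rw [← hSS]; ring
      _ ≤ 1 * Δ := by
          apply mul_le_mul_of_nonneg_right _ hΔ0.le
          linarith
      _ = Δ := one_mul _
  · have : (0 : ℝ) ≤ ((B1 - A1 : ℤ) : ℝ) := le_trans (by positivity) hL
    have : (0 : ℤ) ≤ B1 - A1 := by exact_mod_cast this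
    omega
  · linarith
  · linarith
  · calc θ * η / (32 * a) * Δ = (θ / 16 * W) * (η / 2 * S) := by
          rw [← hSS, ← hWS]
          field_simp
          ring
      _ ≤ ((B1 - A1 : ℤ) : ℝ) * (T0 : ℝ) := mul_le_mul hL hT (by positivity)
          (le_trans (by positivity) hL)

/-- the final numbers -/
theorem zsN_numbers (κ cX K Lg w X ℓ P q φ Fc R1 R2 R3 E1 G1 : ℝ) (hκ : 0 < κ) (hcX : 0 < cX)
    (hK : 0 ≤ K) (hLg : 1 ≤ Lg) (hw : 1 ≤ w) (hℓ : 1 / Lg ≤ ℓ) (hP : Lg ^ 20 ≤ P)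
    (hq : 1 ≤ q) (hqw : q ≤ w) (hφ : q ≤ 3 * Lg * φ)
    (hX : cX * w ^ 20 * (φ / q ^ 2) ≤ X) (hFc0 : 0 ≤ Fc) (hFc : Fc ≤ Lg ^ 2)
    (hR1 : R1 ≤ K * w ^ 18) (hR2 : R2 ≤ K * w ^ 18) (hR3 : R3 ≤ K * w ^ 18)
    (hE1 : E1 ≤ K * w ^ 18) (hG1 : G1 ≤ K * w ^ 18)
    (e6 : 8 / κ ≤ Lg ^ 17) (e7 : 15 * K / (cX * κ) * Lg ^ 4 ≤ w) :
    2 * κ * cX * (w ^ 20 * φ / q ^ 2) * ℓ ≤
      4 * κ * (X * ℓ) - R1 - (6 * X / P + R2 + R3) - Fc * (2 * X / P + E1 + G1) := by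
  have hLg0 : 0 < Lg := by linarith
  have hP0 : 0 < P := lt_of_lt_of_le (by positivity) hP
  have hq0 : 0 < q := by linarith
  have hφ0 : 0 < φ := by
    by_contra h
    push Not at h
    have : 3 * Lg * φ ≤ 0 := mul_nonpos_of_nonneg_of_nonpos (by positivity) h
    linarith
  have hℓ0 : 0 < ℓ := lt_of_lt_of_le (by positivity) hℓ
  have hw0 : 0 < w := by linarith
  have hX0 : 0 < X := lt_of_lt_of_le (by positivity) hX
  -- the errors relative to X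
  have h1 : X * (6 + 2 * Lg ^ 2) / P ≤ κ * (X * ℓ) := by
    have h2 : (6 + 2 * Lg ^ 2) / P ≤ κ * (1 / Lg) := by
      rw [div_le_iff₀ hP0]
      have h3 : 6 + 2 * Lg ^ 2 ≤ 8 * Lg ^ 2 := by nlinarith
      have h4 : 8 ≤ κ * Lg ^ 17 := by
        rw [div_le_iff₀ hκ] at e6
        linarith
      have h5 : 8 * Lg ^ 2 ≤ κ * (1 / Lg) * Lg ^ 20 := by
        have e : κ * (1 / Lg) * Lg ^ 20 = κ * Lg ^ 17 * Lg ^ 2 := by
          field_simp
        rw [e]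
        exact mul_le_mul_of_nonneg_right h4 (by positivity)
      calc _ ≤ _ := h3
        _ ≤ _ := h5
        _ ≤ _ := mul_le_mul_of_nonneg_left hP (by positivity)
    calc X * (6 + 2 * Lg ^ 2) / P = X * ((6 + 2 * Lg ^ 2) / P) := by ring
      _ ≤ X * (κ * (1 / Lg)) := mul_le_mul_of_nonneg_left h2 hX0.le
      _ ≤ X * (κ * ℓ) := by
          apply mul_le_mul_of_nonneg_left _ hX0.le
          exact mul_le_mul_of_nonneg_left hℓ hκ.le
      _ = _ := by ring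
  -- the absolute errors
  have h2 : cX / 3 * w ^ 19 / Lg ≤ X := by
    refine le_trans ?_ hX
    have h3 : 1 / (3 * Lg * w) ≤ φ / q ^ 2 := by
      rw [div_le_div_iff₀ (by positivity) (by positivity)]
      have h4 : q ^ 2 ≤ (3 * Lg * φ) * w := by
        rw [sq]
        exact mul_le_mul hφ hqw hq0.le (by positivity)
      linarith
    calc cX / 3 * w ^ 19 / Lg = cX * w ^ 20 * (1 / (3 * Lg * w)) := by
          field_simp
      _ ≤ _ := mul_le_mul_of_nonneg_left h3 (by positivity)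
  have h3 : 5 * K * Lg ^ 2 * w ^ 18 ≤ κ * (X * ℓ) := by
    have h4 : cX / 3 * w ^ 19 / Lg * (1 / Lg) ≤ X * ℓ :=
      mul_le_mul h2 hℓ (by positivity) hX0.le
    refine le_trans ?_ (mul_le_mul_of_nonneg_left h4 hκ.le)
    have e : κ * (cX / 3 * w ^ 19 / Lg * (1 / Lg)) =
        (cX * κ / 3) * w * w ^ 18 / Lg ^ 2 := by
      field_simp
    rw [e, le_div_iff₀ (by positivity)]
    have h5 : (cX * κ / 3) * (15 * K / (cX * κ) * Lg ^ 4) ≤
        (cX * κ / 3) * w := mul_le_mul_of_nonneg_left e7 (by positivity)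
    have e2 : (cX * κ / 3) * (15 * K / (cX * κ) * Lg ^ 4) = 5 * K * Lg ^ 4 := by
      field_simp
      ring
    rw [e2] at h5
    calc 5 * K * Lg ^ 2 * w ^ 18 * Lg ^ 2 = 5 * K * Lg ^ 4 * w ^ 18 := by ring
      _ ≤ _ := mul_le_mul_of_nonneg_right h5 (by positivity)
  have h4 : Fc * (2 * X / P + E1 + G1) ≤ Lg ^ 2 * (2 * X / P) + Lg ^ 2 * (2 * K * w ^ 18) := by
    have h5 : Fc * (2 * X / P + (E1 + G1)) ≤ Fc * (2 * X / P + 2 * K * w ^ 18) := by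
      apply mul_le_mul_of_nonneg_left _ hFc0
      linarith
    have h6 : Fc * (2 * X / P + 2 * K * w ^ 18) ≤ Lg ^ 2 * (2 * X / P + 2 * K * w ^ 18) :=
      mul_le_mul_of_nonneg_right hFc (by positivity)
    have e : Fc * (2 * X / P + E1 + G1) = Fc * (2 * X / P + (E1 + G1)) := by ring
    rw [e]
    linarith
  have h5 : R1 + R2 + R3 + Lg ^ 2 * (2 * K * w ^ 18) ≤ 5 * K * Lg ^ 2 * w ^ 18 := by
    have h6 : (1 : ℝ) ≤ Lg ^ 2 := one_le_pow₀ hLg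
    have h7 : 3 * K * w ^ 18 * 1 ≤ 3 * K * w ^ 18 * Lg ^ 2 :=
      mul_le_mul_of_nonneg_left h6 (by positivity)
    linarith
  have h6 : 2 * κ * cX * (w ^ 20 * φ / q ^ 2) * ℓ ≤ 2 * κ * (X * ℓ) := by
    have h7 := mul_le_mul_of_nonneg_right hX hℓ0.le
    have h8 := mul_le_mul_of_nonneg_left h7 (show 0 ≤ 2 * κ by positivity)
    calc _ = 2 * κ * (cX * w ^ 20 * (φ / q ^ 2) * ℓ) := by ring
      _ ≤ _ := h8
  have h7 : X * (6 + 2 * Lg ^ 2) / P = 6 * X / P + Lg ^ 2 * (2 * X / P) := by ring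
  linarith

end Pool.Agent.AQM
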