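import Pool.Agent.Lib_helper15.AQ.Z1
import Pool.Agent.Lib_helper8.PENT.B.zg
import Pool.Agent.Lib_helper8.PENT.B.za

/-!
# AQ (MP_892e4c_nt): lower bounds for local counts of `X² + D t² = r` (helper15)
-/

set_option autoImplicit false

namespace Pool.Agent.AQM

open Pool.Agent.PENT

theorem z2_zero {p : ℕ} [Fact p.Prime] (D : ZMod p) (hD : D ≠ 0) :
    (Finset.univ.filter (fun z : ZMod p × ZMod p => z.1 ^ 2 + D * z.2 ^ 2 = 0)).card ≤
      1 + (p - 1) * 2 := by
  classical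
  have h1 : Finset.univ.filter (fun z : ZMod p × ZMod p => z.1 ^ 2 + D * z.2 ^ 2 = 0) ⊆
      insert (0, 0) ((Finset.univ.filter
        (fun z : ZMod p × ZMod p => z.1 ^ 2 + D * z.2 ^ 2 = 0)).filter (fun z => z.2 ≠ 0)) := by
    intro z hz
    rw [Finset.mem_insert]
    by_cases h : z.2 = 0
    · left
      rw [Finset.mem_filter] at hz
      have h2 := hz.2
      rw [h] at h2
      have h3 : z.1 = 0 := by
        have : z.1 ^ 2 = 0 := by simpa using h2
        exact pow_eq_zero_iff (by norm_num) |>.1 this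
      exact Prod.ext h3 h
    · right
      exact Finset.mem_filter.2 ⟨hz, h⟩
  refine (Finset.card_le_card h1).trans ((Finset.card_insert_le _ _).trans ?_)
  rw [add_comm]
  apply Nat.add_le_add_left
  have h2 : ((Finset.univ.filter (fun z : ZMod p × ZMod p => z.1 ^ 2 + D * z.2 ^ 2 = 0)).filter
        (fun z => z.2 ≠ 0)).card ≤
      ((Finset.univ.erase (0 : ZMod p)) ×ˢ
        (Finset.univ.filter (fun t : ZMod p => t ^ 2 = -D))).card := by
    apply Finset.card_le_card_of_injOn (fun z => (z.2, z.1 / z.2))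
    · intro z hz
      rw [Finset.mem_coe, Finset.mem_filter, Finset.mem_filter] at hz
      obtain ⟨⟨_, h3⟩, h4⟩ := hz
      rw [Finset.mem_coe, Finset.mem_product, Finset.mem_erase, Finset.mem_filter]
      refine ⟨⟨h4, Finset.mem_univ _⟩, Finset.mem_univ _, ?_⟩
      simp only
      field_simp
      linear_combination h3
    · intro z hz z' hz' h
      rw [Finset.mem_coe, Finset.mem_filter] at hz hz'
      have h' : ((z.2, z.1 / z.2) : ZMod p × ZMod p) = (z'.2, z'.1 / z'.2) := h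
      have h3 : z.2 = z'.2 := (Prod.ext_iff.1 h').1
      have h4 : z.1 / z.2 = z'.1 / z'.2 := (Prod.ext_iff.1 h').2
      rw [← h3] at h4
      have h5 : z.1 = z'.1 := (div_left_inj' hz.2).1 h4
      exact Prod.ext h5 h3
  refine h2.trans ?_
  rw [Finset.card_product]
  have h3 : (Finset.univ.erase (0 : ZMod p)).card = p - 1 := by
    rw [Finset.card_erase_of_mem (Finset.mem_univ _), Finset.card_univ, ZMod.card]
  rw [h3]
  exact Nat.mul_le_mul_left _ (zg_sqrt_card _)

/-- every element is of the form `a² + D b²` -/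
theorem z2_rep {p : ℕ} [Fact p.Prime] (h2 : p ≠ 2) (D : ZMod p) (hD : D ≠ 0) (x : ZMod p) :
    ∃ a b : ZMod p, a ^ 2 + D * b ^ 2 = x := by
  have hc : Fintype.card (ZMod p) % 2 = 1 := by
    rw [ZMod.card]
    exact (Fact.out : p.Prime).eq_two_or_odd.resolve_left h2
  obtain ⟨a, b, hab⟩ := FiniteField.exists_root_sum_quadratic
    (f := (Polynomial.X ^ 2 : Polynomial (ZMod p)))
    (g := Polynomial.C D * Polynomial.X ^ 2 - Polynomial.C x)
    (by rw [Polynomial.degree_X_pow]; rfl)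
    (by
      have h1 : (Polynomial.C D * Polynomial.X ^ 2 - Polynomial.C x : Polynomial (ZMod p)) =
          Polynomial.C D * Polynomial.X ^ 2 + Polynomial.C 0 * Polynomial.X +
            Polynomial.C (-x) := by
        rw [Polynomial.C_0, Polynomial.C_neg]
        ring
      rw [h1]
      exact Polynomial.degree_quadratic hD) hc
  refine ⟨a, b, ?_⟩
  simp only [Polynomial.eval_pow, Polynomial.eval_X, Polynomial.eval_sub, Polynomial.eval_mul,
    Polynomial.eval_C] at hab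
  linear_combination hab

theorem z2_le {p : ℕ} [Fact p.Prime] (h2 : p ≠ 2) (D : ZMod p) (hD : D ≠ 0) (r r' : ZMod p)
    (hr : r ≠ 0) (hr' : r' ≠ 0) :
    (Finset.univ.filter (fun z : ZMod p × ZMod p => z.1 ^ 2 + D * z.2 ^ 2 = r)).card ≤
    (Finset.univ.filter (fun z : ZMod p × ZMod p => z.1 ^ 2 + D * z.2 ^ 2 = r')).card := by
  obtain ⟨a, b, hab⟩ := z2_rep h2 D hD (r' / r)
  have hab0 : a ^ 2 + D * b ^ 2 ≠ 0 := by
    rw [hab]; exact div_ne_zero hr' hr
  apply Finset.card_le_card_of_injOn (fun z => (a * z.1 - D * b * z.2, a * z.2 + b * z.1))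
  · intro z hz
    rw [Finset.mem_coe, Finset.mem_filter] at hz ⊢
    refine ⟨Finset.mem_univ _, ?_⟩
    simp only
    have : (a * z.1 - D * b * z.2) ^ 2 + D * (a * z.2 + b * z.1) ^ 2 =
        (a ^ 2 + D * b ^ 2) * (z.1 ^ 2 + D * z.2 ^ 2) := by ring
    rw [this, hab, hz.2]
    field_simp
  · intro z _ z' _ h
    have h' : ((a * z.1 - D * b * z.2, a * z.2 + b * z.1) : ZMod p × ZMod p) =
      (a * z'.1 - D * b * z'.2, a * z'.2 + b * z'.1) := h
    have h1 : a * z.1 - D * b * z.2 = a * z'.1 - D * b * z'.2 := (Prod.ext_iff.1 h').1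
    have h2 : a * z.2 + b * z.1 = a * z'.2 + b * z'.1 := (Prod.ext_iff.1 h').2
    have h3 : (a ^ 2 + D * b ^ 2) * (z.1 - z'.1) = 0 := by linear_combination a * h1 + D * b * h2
    have h4 : (a ^ 2 + D * b ^ 2) * (z.2 - z'.2) = 0 := by linear_combination a * h2 - b * h1
    have h5 := (mul_eq_zero.1 h3).resolve_left hab0
    have h6 := (mul_eq_zero.1 h4).resolve_left hab0
    exact Prod.ext (sub_eq_zero.1 h5) (sub_eq_zero.1 h6)

/-- at least `p - 1` solutions of `X² + D t² = r` in `ZMod p` -/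
theorem card_sqd_prime {p : ℕ} [Fact p.Prime] (h2 : p ≠ 2) (D : ZMod p) (hD : D ≠ 0)
    (r : ZMod p) (hr : r ≠ 0) :
    p - 1 ≤ (Finset.univ.filter
      (fun z : ZMod p × ZMod p => z.1 ^ 2 + D * z.2 ^ 2 = r)).card := by
  classical
  set N : ZMod p → ℕ := fun r =>
    (Finset.univ.filter (fun z : ZMod p × ZMod p => z.1 ^ 2 + D * z.2 ^ 2 = r)).card with hN
  have hsum : (Finset.univ : Finset (ZMod p × ZMod p)).card = ∑ r' : ZMod p, N r' :=
    Finset.card_eq_sum_card_fiberwise (f := fun z : ZMod p × ZMod p => z.1 ^ 2 + D * z.2 ^ 2)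
      (t := Finset.univ) (by intro x _; simp)
  rw [Finset.card_univ, Fintype.card_prod, ZMod.card] at hsum
  have h1 : ∑ r' : ZMod p, N r' = N 0 + ∑ r' ∈ Finset.univ.erase (0 : ZMod p), N r' :=
    (Finset.add_sum_erase _ _ (Finset.mem_univ _)).symm
  have h2' : ∑ r' ∈ Finset.univ.erase (0 : ZMod p), N r' ≤ (p - 1) * N r := by
    calc ∑ r' ∈ Finset.univ.erase (0 : ZMod p), N r' ≤
          ∑ _r' ∈ Finset.univ.erase (0 : ZMod p), N r := by
          apply Finset.sum_le_sum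
          intro r' hr'
          exact z2_le h2 D hD r' r (Finset.ne_of_mem_erase hr') hr
      _ = (p - 1) * N r := by
          rw [Finset.sum_const, Finset.card_erase_of_mem (Finset.mem_univ _), Finset.card_univ,
            ZMod.card, smul_eq_mul]
  have h3 : N 0 ≤ 1 + (p - 1) * 2 := z2_zero D hD
  have hp : 2 ≤ p := (Fact.out : p.Prime).two_le
  obtain ⟨k, hk'⟩ : ∃ k, p = k + 1 := ⟨p - 1, by omega⟩
  have hk : 1 ≤ k := by omega
  have e1 : p - 1 = k := by omega
  rw [e1] at h2' h3 ⊢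
  change k ≤ N r
  have h4 : k * k ≤ k * N r := by
    have : p * p = N 0 + ∑ r' ∈ Finset.univ.erase (0 : ZMod p), N r' := by rw [hsum, h1]
    have h5 : (k + 1) * (k + 1) ≤ 1 + k * 2 + k * N r := by
      rw [← hk', this]
      omega
    nlinarith
  exact Nat.le_of_mul_le_mul_left h4 (by omega)

/-! ### prime powers -/

/-- the solutions -/
noncomputable def z2_S (D : ℤ) (m : ℕ) (r : ℤ) : Finset (ℕ × ℕ) :=
  (Finset.range m ×ˢ Finset.range m).filter
    (fun z => (m : ℤ) ∣ (z.1 : ℤ) ^ 2 + D * (z.2 : ℤ) ^ 2 - r)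

theorem z2_sum (D : ℤ) (m : ℕ) (r : ℤ) :
    ∑ a ∈ Finset.range m, ∑ b ∈ Finset.range m, sqd D m r (a : ℤ) (b : ℤ) =
      ((z2_S D m r).card : ℝ) := by
  unfold sqd z2_S
  rw [← Finset.sum_product', Finset.card_filter]
  push_cast
  rfl

theorem z2_prime {D : ℤ} {p : ℕ} (hp : p.Prime) (h2 : p ≠ 2) (hD : ¬ (p : ℤ) ∣ D) (r : ℤ)
    (hr : ¬ (p : ℤ) ∣ r) : p - 1 ≤ (z2_S D p r).card := by
  classical
  have : Fact p.Prime := ⟨hp⟩
  have hr' : (r : ZMod p) ≠ 0 := by
    intro h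
    exact hr ((ZMod.intCast_zmod_eq_zero_iff_dvd r p).mp h)
  have hD' : (D : ZMod p) ≠ 0 := by
    intro h
    exact hD ((ZMod.intCast_zmod_eq_zero_iff_dvd D p).mp h)
  refine le_trans (card_sqd_prime h2 (D : ZMod p) hD' (r : ZMod p) hr') ?_
  apply Finset.card_le_card_of_injOn (fun z : ZMod p × ZMod p => (z.1.val, z.2.val))
  · intro z hz
    rw [Finset.mem_coe, Finset.mem_filter] at hz
    rw [Finset.mem_coe]
    unfold z2_S
    rw [Finset.mem_filter, Finset.mem_product, Finset.mem_range, Finset.mem_range]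
    refine ⟨⟨ZMod.val_lt _, ZMod.val_lt _⟩, ?_⟩
    rw [← ZMod.intCast_zmod_eq_zero_iff_dvd]
    push_cast
    rw [ZMod.natCast_zmod_val, ZMod.natCast_zmod_val, hz.2, sub_self]
  · intro z _ z' _ h
    have h1 := (Prod.ext_iff.mp h).1
    have h3 := (Prod.ext_iff.mp h).2
    exact Prod.ext (ZMod.val_injective p h1) (ZMod.val_injective p h3)

theorem z2_fib {D : ℤ} {p : ℕ} (hp : p.Prime) (h2 : p ≠ 2) (hD : ¬ (p : ℤ) ∣ D) (k : ℕ) (r : ℤ)
    (hr : ¬ (p : ℤ) ∣ r) (z : ℕ × ℕ) (hz : z ∈ z2_S D p r) :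
    p ^ k ≤ ((z2_S D (p ^ (k + 1)) r).filter (fun w => (w.1 % p, w.2 % p) = z)).card := by
  classical
  have hpi : Prime (p : ℤ) := Nat.prime_iff_prime_int.mp hp
  unfold z2_S at hz
  rw [Finset.mem_filter, Finset.mem_product, Finset.mem_range, Finset.mem_range] at hz
  obtain ⟨⟨hz1, hz2⟩, hz3⟩ := hz
  have hlt : ∀ c : ℕ, c < p → ∀ j : ℕ, j < p ^ k → c + p * j < p ^ (k + 1) := by
    intro c hc j hj
    have h1 : p * j + p ≤ p * p ^ k := by
      have : p * (j + 1) ≤ p * p ^ k := Nat.mul_le_mul_left p hj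
      linarith [this, Nat.mul_succ p j]
    rw [pow_succ, Nat.mul_comm (p ^ k) p]
    omega
  by_cases h0 : z.1 = 0
  · -- then `z.2` is not zero
    have h20 : z.2 ≠ 0 := by
      intro h
      apply hr
      rw [h0, h] at hz3
      simpa using hz3
    -- the inverse of `D`
    obtain ⟨D', w, hD'⟩ : IsCoprime D (((p ^ (k + 1) : ℕ) : ℤ)) := by
      push_cast
      exact ((Prime.coprime_iff_not_dvd hpi).mpr hD).symm.pow_right
    have hDD : ((p ^ (k + 1) : ℕ) : ℤ) ∣ D * D' - 1 := ⟨-w, by linear_combination hD'⟩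
    have hDDp : (p : ℤ) ∣ D * D' - 1 := by
      refine dvd_trans ?_ hDD
      push_cast
      exact dvd_pow_self _ (Nat.succ_ne_zero k)
    have hex : ∀ j : ℕ, ∃ x : ℕ, x < p ^ (k + 1) ∧
        ((p ^ (k + 1) : ℕ) : ℤ) ∣ (x : ℤ) ^ 2 - D' * (r - ((z.1 + p * j : ℕ) : ℤ) ^ 2) ∧
          x % p = z.2 := by
      intro j
      apply zh_root' hp h2 k z.2 _ hz2 h20
      have h3 : (p : ℤ) ∣ (p : ℤ) * ((j : ℤ) * (2 * (z.1 : ℤ) + p * j)) := dvd_mul_right _ _
      have h4 := dvd_add hz3 h3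
      have h5 := dvd_sub (h4.mul_left D') (hDDp.mul_left ((z.2 : ℤ) ^ 2))
      have h6 : D' * ((z.1 : ℤ) ^ 2 + D * (z.2 : ℤ) ^ 2 - r +
          (p : ℤ) * ((j : ℤ) * (2 * (z.1 : ℤ) + p * j))) - (z.2 : ℤ) ^ 2 * (D * D' - 1) =
          (z.2 : ℤ) ^ 2 - D' * (r - ((z.1 + p * j : ℕ) : ℤ) ^ 2) := by
        push_cast
        ring
      rwa [h6] at h5
    choose g hg1 hg2 hg3 using hex
    have hc : (Finset.range (p ^ k)).card ≤
        ((z2_S D (p ^ (k + 1)) r).filter (fun w => (w.1 % p, w.2 % p) = z)).card := by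
      apply Finset.card_le_card_of_injOn (fun j => (z.1 + p * j, g j))
      · intro j hj
        rw [Finset.mem_coe, Finset.mem_range] at hj
        rw [Finset.mem_coe, Finset.mem_filter]
        unfold z2_S
        rw [Finset.mem_filter, Finset.mem_product, Finset.mem_range, Finset.mem_range]
        refine ⟨⟨⟨hlt z.1 hz1 j hj, hg1 j⟩, ?_⟩, ?_⟩
        · have h7 := (hg2 j).mul_left D
          have h8 := dvd_add h7 (hDD.mul_left (r - ((z.1 + p * j : ℕ) : ℤ) ^ 2))
          have h5 : D * (((g j : ℕ) : ℤ) ^ 2 - D' * (r - ((z.1 + p * j : ℕ) : ℤ) ^ 2)) +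
              (r - ((z.1 + p * j : ℕ) : ℤ) ^ 2) * (D * D' - 1) =
              ((z.1 + p * j : ℕ) : ℤ) ^ 2 + D * ((g j : ℕ) : ℤ) ^ 2 - r := by ring
          rwa [h5] at h8
        · apply Prod.ext
          · show (z.1 + p * j) % p = z.1
            rw [Nat.add_mul_mod_self_left, Nat.mod_eq_of_lt hz1]
          · exact hg3 j
      · intro j _ j' _ h
        have h1 : z.1 + p * j = z.1 + p * j' := (Prod.ext_iff.mp h).1
        exact Nat.eq_of_mul_eq_mul_left hp.pos (Nat.add_left_cancel h1)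
    rwa [Finset.card_range] at hc
  · have hex : ∀ j : ℕ, ∃ x : ℕ, x < p ^ (k + 1) ∧
        ((p ^ (k + 1) : ℕ) : ℤ) ∣ (x : ℤ) ^ 2 - (r - D * ((z.2 + p * j : ℕ) : ℤ) ^ 2) ∧
          x % p = z.1 := by
      intro j
      apply zh_root' hp h2 k z.1 _ hz1 h0
      have h3 : (p : ℤ) ∣ (p : ℤ) * (D * ((j : ℤ) * (2 * (z.2 : ℤ) + p * j))) := dvd_mul_right _ _
      have h4 := dvd_add hz3 h3
      have h5 : (z.1 : ℤ) ^ 2 + D * (z.2 : ℤ) ^ 2 - r +
          (p : ℤ) * (D * ((j : ℤ) * (2 * (z.2 : ℤ) + p * j))) =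
          (z.1 : ℤ) ^ 2 - (r - D * ((z.2 + p * j : ℕ) : ℤ) ^ 2) := by
        push_cast
        ring
      rwa [h5] at h4
    choose g hg1 hg2 hg3 using hex
    have hc : (Finset.range (p ^ k)).card ≤
        ((z2_S D (p ^ (k + 1)) r).filter (fun w => (w.1 % p, w.2 % p) = z)).card := by
      apply Finset.card_le_card_of_injOn (fun j => (g j, z.2 + p * j))
      · intro j hj
        rw [Finset.mem_coe, Finset.mem_range] at hj
        rw [Finset.mem_coe, Finset.mem_filter]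
        unfold z2_S
        rw [Finset.mem_filter, Finset.mem_product, Finset.mem_range, Finset.mem_range]
        refine ⟨⟨⟨hg1 j, hlt z.2 hz2 j hj⟩, ?_⟩, ?_⟩
        · have := hg2 j
          have h5 : ((g j : ℕ) : ℤ) ^ 2 - (r - D * ((z.2 + p * j : ℕ) : ℤ) ^ 2) =
              ((g j : ℕ) : ℤ) ^ 2 + D * ((z.2 + p * j : ℕ) : ℤ) ^ 2 - r := by ring
          rwa [h5] at this
        · apply Prod.ext
          · exact hg3 j
          · show (z.2 + p * j) % p = z.2
            rw [Nat.add_mul_mod_self_left, Nat.mod_eq_of_lt hz2]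
      · intro j _ j' _ h
        have h1 : z.2 + p * j = z.2 + p * j' := (Prod.ext_iff.mp h).2
        exact Nat.eq_of_mul_eq_mul_left hp.pos (Nat.add_left_cancel h1)
    rwa [Finset.card_range] at hc

theorem card_sqd_pow {D : ℤ} {p : ℕ} (hp : p.Prime) (h2 : p ≠ 2) (hD : ¬ (p : ℤ) ∣ D) (k : ℕ)
    (r : ℤ) (hr : ¬ (p : ℤ) ∣ r) :
    ((p ^ (k + 1)).totient : ℝ) ≤
      ∑ a ∈ Finset.range (p ^ (k + 1)), ∑ b ∈ Finset.range (p ^ (k + 1)),
        sqd D (p ^ (k + 1)) r (a : ℤ) (b : ℤ) := by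
  classical
  rw [z2_sum]
  have h1 := z2_prime hp h2 hD r hr
  have hfib : (z2_S D p r).card * p ^ k ≤ (z2_S D (p ^ (k + 1)) r).card := by
    have hs : ∑ z ∈ z2_S D p r,
        ((z2_S D (p ^ (k + 1)) r).filter (fun w => (w.1 % p, w.2 % p) = z)).card ≤
        (z2_S D (p ^ (k + 1)) r).card := by
      rw [← Finset.card_biUnion]
      · apply Finset.card_le_card
        intro w hw
        rw [Finset.mem_biUnion] at hw
        obtain ⟨z, _, hz⟩ := hw
        exact (Finset.mem_filter.mp hz).1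
      · intro z _ z' _ hzz
        rw [Function.onFun, Finset.disjoint_left]
        intro w hw hw'
        rw [Finset.mem_filter] at hw hw'
        exact hzz (hw.2.symm.trans hw'.2)
    refine le_trans ?_ hs
    rw [← smul_eq_mul]
    exact Finset.card_nsmul_le_sum _ _ _ (fun z hz => z2_fib hp h2 hD k r hr z hz)
  have h3 : (p ^ (k + 1)).totient = p ^ k * (p - 1) := Nat.totient_prime_pow_succ hp k
  have h4 : p ^ k * (p - 1) ≤ (z2_S D (p ^ (k + 1)) r).card := by
    refine le_trans ?_ hfib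
    rw [Nat.mul_comm]
    exact Nat.mul_le_mul_right _ h1
  rw [h3]
  exact_mod_cast h4

theorem z2_mul (D : ℤ) {a b : ℕ} (hab : Nat.Coprime a b) (r s t : ℤ) :
    sqd D (a * b) r s t = sqd D a r s t * sqd D b r s t := by
  unfold sqd
  have hc : IsCoprime (a : ℤ) (b : ℤ) := Nat.isCoprime_iff_coprime.2 hab
  by_cases h1 : (a : ℤ) ∣ s ^ 2 + D * t ^ 2 - r
  · by_cases h2 : (b : ℤ) ∣ s ^ 2 + D * t ^ 2 - r
    · have h3 : ((a * b : ℕ) : ℤ) ∣ s ^ 2 + D * t ^ 2 - r := by
        push_cast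
        exact hc.mul_dvd h1 h2
      rw [if_pos h1, if_pos h2, if_pos h3]; norm_num
    · have h3 : ¬ ((a * b : ℕ) : ℤ) ∣ s ^ 2 + D * t ^ 2 - r := by
        intro h
        apply h2
        push_cast at h
        exact (Dvd.intro_left _ rfl).trans h
      rw [if_neg h2, if_neg h3]; norm_num
  · have h3 : ¬ ((a * b : ℕ) : ℤ) ∣ s ^ 2 + D * t ^ 2 - r := by
      intro h
      apply h1
      push_cast at h
      exact (Dvd.intro _ rfl).trans h
    rw [if_neg h1, if_neg h3]; norm_num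

/-- all `q` prime to `2 D` -/
theorem av_sqd_ge {D : ℤ} {q : ℕ} (hq0 : 0 < q)
    (hq : ∀ p : ℕ, p.Prime → p ∣ q → p ≠ 2 ∧ ¬ (p : ℤ) ∣ D) (r : ℤ) (hr : IsCoprime r (q : ℤ)) :
    (q.totient : ℝ) / (q : ℝ) ^ 2 ≤ av q (sqd D q r) := by
  revert hq0 hq hr
  induction q using Nat.recOnPosPrimePosCoprime with
  | prime_pow p n hp hn =>
    intro _ hq hr
    obtain ⟨h2, hD⟩ := hq p hp (dvd_pow_self _ (by omega))
    obtain ⟨k, rfl⟩ : ∃ k, n = k + 1 := ⟨n - 1, by omega⟩
    have hrp : ¬ (p : ℤ) ∣ r := by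
      intro hd
      have h3 : IsCoprime r ((p : ℤ) ^ (k + 1)) := by exact_mod_cast hr
      have h4 : IsCoprime r (p : ℤ) := (IsCoprime.pow_right_iff (by omega)).1 h3
      have h5 : IsUnit (p : ℤ) := h4.isUnit_of_dvd' hd (dvd_refl _)
      rw [Int.isUnit_iff] at h5
      have := hp.two_le
      omega
    have h := card_sqd_pow hp h2 hD k r hrp
    unfold av
    have h0 : (0:ℝ) < ((p ^ (k + 1) : ℕ) : ℝ) := by exact_mod_cast pow_pos hp.pos _
    exact div_le_div_of_nonneg_right h (by positivity)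
  | zero => intro hq0; exact absurd hq0 (by decide)
  | one =>
    intro _ _ _
    unfold av sqd
    simp
  | coprime a b ha hb hab iha ihb =>
    intro _ hq hr
    have hr' : IsCoprime r ((a : ℤ) * (b : ℤ)) := by exact_mod_cast hr
    have h1 := iha (by omega) (fun p hp hpa => hq p hp (hpa.mul_right b))
      (IsCoprime.of_mul_right_left hr')
    have h2 := ihb (by omega) (fun p hp hpb => hq p hp (hpb.mul_left a))
      (IsCoprime.of_mul_right_right hr')
    have h3 : av (a * b) (sqd D (a * b) r) = av a (sqd D a r) * av b (sqd D b r) := by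
      rw [← av_mul (by omega) (by omega) hab (per_sqd D a r) (per_sqd D b r)]
      congr 1
      funext s t
      exact z2_mul D hab r s t
    rw [h3, Nat.totient_mul hab]
    have ha0 : (0:ℝ) < (a : ℝ) := by exact_mod_cast (by omega : 0 < a)
    have hb0 : (0:ℝ) < (b : ℝ) := by exact_mod_cast (by omega : 0 < b)
    have h4 : ((a.totient * b.totient : ℕ) : ℝ) / ((a * b : ℕ) : ℝ) ^ 2 =
        ((a.totient : ℝ) / (a : ℝ) ^ 2) * ((b.totient : ℝ) / (b : ℝ) ^ 2) := by
      push_cast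
      field_simp
    rw [h4]
    exact mul_le_mul h1 h2 (by positivity) (le_trans (by positivity) h1)

end Pool.Agent.AQM
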