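import Pool.Agent.Lib_helper15.AQ.Z2
import Pool.Agent.Lib_helper8.PENT.B.zb
import Pool.Agent.Lib_helper8.PENT.B.zc

/-!
# AQ (MP_892e4c_nt): local counts for the form `A s² + 2 B s t + C t²` (helper15)
-/

set_option autoImplicit false

namespace Pool.Agent.AQM

open Pool.Agent.PENT

theorem Nf_A {A B C D : ℤ} (hD : A * C - B ^ 2 = D) (s t : ℤ) :
    A * Nf A B C s t = (A * s + B * t) ^ 2 + D * t ^ 2 := by
  rw [← hD]; unfold Nf; ring

theorem sqn_01 (A B C : ℤ) (m : ℕ) (r s t : ℤ) : 0 ≤ sqn A B C m r s t ∧ sqn A B C m r s t ≤ 1 := by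
  unfold sqn
  split_ifs <;> norm_num

theorem per_sqn (A B C : ℤ) (m : ℕ) (r : ℤ) : Per m (sqn A B C m r) := by
  intro s t s' t' hs ht
  unfold sqn
  have h : (m : ℤ) ∣ (Nf A B C s t - r) - (Nf A B C s' t' - r) := by
    have e : (Nf A B C s t - r) - (Nf A B C s' t' - r) =
        (s - s') * (A * (s + s') + 2 * B * t) + (t - t') * (2 * B * s' + C * (t + t')) := by
      unfold Nf; ring
    rw [e]
    exact dvd_add (hs.mul_right _) (ht.mul_right _)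
  have h2 : (m : ℤ) ∣ Nf A B C s t - r ↔ (m : ℤ) ∣ Nf A B C s' t' - r :=
    (dvd_iff_dvd_of_dvd_sub h)
  simp only [h2]

theorem sqn_eq {A B C D : ℤ} (hD : A * C - B ^ 2 = D) {m : ℕ} (hA : IsCoprime A (m : ℤ))
    (r s t : ℤ) : sqn A B C m r s t = sqd D m (A * r) (A * s + B * t) t := by
  unfold sqn sqd
  have e : (A * s + B * t) ^ 2 + D * t ^ 2 - A * r = A * (Nf A B C s t - r) := by
    rw [mul_sub, Nf_A hD]
  have h2 : (m : ℤ) ∣ Nf A B C s t - r ↔ (m : ℤ) ∣ (A * s + B * t) ^ 2 + D * t ^ 2 - A * r := by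
    rw [e]
    exact ⟨fun h => h.mul_left _, fun h => hA.symm.dvd_of_dvd_mul_left h⟩
  simp only [h2]

/-- the change of variables `X = A s + B t` -/
theorem av_shear {A B : ℤ} {m : ℕ} (hm : 0 < m) (hA : IsCoprime A (m : ℤ)) {h : ℤ → ℤ → ℝ}
    (hh : Per m h) : av m (fun s t => h (A * s + B * t) t) = av m h := by
  rw [z1_swap, z1_swap]
  congr 1
  refine Finset.sum_congr rfl fun b _ => ?_
  have hinj : Set.InjOn (fun a : ℕ => zc_r m (A * a + B * b)) (Finset.range m : Set ℕ) := by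
    intro a ha a' ha' h1
    rw [Finset.mem_coe, Finset.mem_range] at ha ha'
    have h2 := zc_r_dvd hm (A * a + B * b)
    have h3 := zc_r_dvd hm (A * a' + B * b)
    have h1' : zc_r m (A * a + B * b) = zc_r m (A * a' + B * b) := h1
    rw [h1'] at h2
    have h4 : (m : ℤ) ∣ A * ((a : ℤ) - a') := by
      have := dvd_sub h2 h3
      have e : A * a + B * b - (zc_r m (A * a' + B * b) : ℤ) -
          (A * a' + B * b - (zc_r m (A * a' + B * b) : ℤ)) = A * ((a : ℤ) - a') := by ring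
      rwa [e] at this
    have h5 : (m : ℤ) ∣ (a : ℤ) - a' := hA.symm.dvd_of_dvd_mul_left h4
    have h6 := Int.eq_zero_of_abs_lt_dvd h5 (by rw [abs_lt]; constructor <;> omega)
    omega
  have hmaps : Set.MapsTo (fun a : ℕ => zc_r m (A * a + B * b)) (Finset.range m : Set ℕ)
      (Finset.range m : Set ℕ) := by
    intro a _
    rw [Finset.mem_coe, Finset.mem_range]
    exact zc_r_lt hm _
  have hsurj := Finset.surjOn_of_injOn_of_card_le _ hmaps hinj le_rfl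
  refine Finset.sum_nbij (fun a : ℕ => zc_r m (A * a + B * b)) (fun a ha => hmaps ha) hinj hsurj ?_
  intro a _
  exact hh _ _ _ _ (zc_r_dvd hm _) (by rw [sub_self]; exact dvd_zero _)

theorem av_sqn {A B C D : ℤ} (hD : A * C - B ^ 2 = D) {m : ℕ} (hm : 0 < m)
    (hA : IsCoprime A (m : ℤ)) (r : ℤ) : av m (sqn A B C m r) = av m (sqd D m (A * r)) := by
  rw [← av_shear (A := A) (B := B) hm hA (per_sqd D m (A * r))]
  congr 1
  funext s t
  exact sqn_eq hD hA r s t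

theorem z3_cop {A : ℤ} {p : ℕ} (hp : p.Prime) (hA : ¬ (p : ℤ) ∣ A) : IsCoprime A (p : ℤ) :=
  ((Prime.coprime_iff_not_dvd (Nat.prime_iff_prime_int.mp hp)).mpr hA).symm

theorem av_sqn_le {A B C D : ℤ} (hD : A * C - B ^ 2 = D) {p : ℕ} (hp : p.Prime)
    (hA : ¬ (p : ℤ) ∣ A) (ρ : ℤ) : av p (sqn A B C p ρ) ≤ 2 / (p : ℝ) := by
  rw [av_sqn hD hp.pos (z3_cop hp hA)]
  exact av_sqd_le D hp _

theorem av_sqn_inert {A B C D : ℤ} (hD : A * C - B ^ 2 = D) {p : ℕ} (hp : p.Prime)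
    (hA : ¬ (p : ℤ) ∣ A) (hn : ¬ IsSquare ((-D : ℤ) : ZMod p)) :
    av p (sqn A B C p 0) ≤ 1 / (p : ℝ) ^ 2 := by
  rw [av_sqn hD hp.pos (z3_cop hp hA), mul_zero]
  exact av_sqd_inert hp hn

theorem av_sqn_sq {A B C D : ℤ} (hD : A * C - B ^ 2 = D) {p : ℕ} (hp : p.Prime) (h2 : p ≠ 2)
    (hpD : ¬ (p : ℤ) ∣ D) (hA : ¬ (p : ℤ) ∣ A) :
    av (p ^ 2) (sqn A B C (p ^ 2) 0) ≤ 3 / (p : ℝ) ^ 2 := by
  have h1 : IsCoprime A ((p ^ 2 : ℕ) : ℤ) := by
    push_cast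
    exact (z3_cop hp hA).pow_right
  rw [av_sqn hD (pow_pos hp.pos 2) h1, mul_zero]
  exact av_sqd_sq hp h2 hpD

theorem av_sqn_ge {A B C D : ℤ} (hD : A * C - B ^ 2 = D) {q : ℕ} (hq0 : 0 < q)
    (hq : ∀ p : ℕ, p.Prime → p ∣ q → p ≠ 2 ∧ ¬ (p : ℤ) ∣ D) (hA : IsCoprime A (q : ℤ)) (r : ℤ)
    (hr : IsCoprime r (q : ℤ)) :
    (q.totient : ℝ) / (q : ℝ) ^ 2 ≤ av q (sqn A B C q r) := by
  rw [av_sqn hD hq0 hA]
  exact av_sqd_ge hq0 hq _ (hA.mul_left hr)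

/-! ### the class modulo `a0` -/

/-- the indicator of `s = 1`, `t = 0` modulo `a0` -/
noncomputable def cls (a0 : ℕ) (s t : ℤ) : ℝ := if (a0 : ℤ) ∣ s - 1 ∧ (a0 : ℤ) ∣ t then 1 else 0

theorem cls_01 (a0 : ℕ) (s t : ℤ) : 0 ≤ cls a0 s t ∧ cls a0 s t ≤ 1 := by
  unfold cls
  split_ifs <;> norm_num

theorem per_cls (a0 : ℕ) : Per a0 (cls a0) := by
  intro s t s' t' hs ht
  unfold cls
  have h1 : (a0 : ℤ) ∣ s - 1 ↔ (a0 : ℤ) ∣ s' - 1 := by
    apply dvd_iff_dvd_of_dvd_sub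
    have e : s - 1 - (s' - 1) = s - s' := by ring
    rwa [e]
  have h2 : (a0 : ℤ) ∣ t ↔ (a0 : ℤ) ∣ t' := dvd_iff_dvd_of_dvd_sub ht
  simp only [h1, h2]

theorem av_cls {a0 : ℕ} (h0 : 1 < a0) : av a0 (cls a0) = 1 / (a0 : ℝ) ^ 2 := by
  unfold av
  congr 1
  have h1 : ∀ a ∈ Finset.range a0, ∀ b ∈ Finset.range a0, cls a0 (a : ℤ) (b : ℤ) =
      (if a = 1 then (1 : ℝ) else 0) * (if b = 0 then (1 : ℝ) else 0) := by
    intro a ha b hb
    rw [Finset.mem_range] at ha hb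
    unfold cls
    have e1 : (a0 : ℤ) ∣ (a : ℤ) - 1 ↔ a = 1 := by
      constructor
      · intro h
        have := Int.eq_zero_of_abs_lt_dvd h (by rw [abs_lt]; constructor <;> omega)
        omega
      · rintro rfl
        simp
    have e2 : (a0 : ℤ) ∣ (b : ℤ) ↔ b = 0 := by
      constructor
      · intro h
        have h3 : a0 ∣ b := by exact_mod_cast h
        exact Nat.eq_zero_of_dvd_of_lt h3 hb
      · rintro rfl
        simp
    simp only [e1, e2]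
    split_ifs <;> simp_all
  rw [Finset.sum_congr rfl fun a ha => Finset.sum_congr rfl fun b hb => h1 a ha b hb]
  rw [← Finset.sum_mul_sum, Finset.sum_ite_eq', Finset.sum_ite_eq']
  rw [if_pos (Finset.mem_range.2 h0), if_pos (Finset.mem_range.2 (by omega))]
  ring

/-- the two conditions on the family -/
noncomputable def cq (A B C : ℤ) (a0 q : ℕ) (r : ℤ) (s t : ℤ) : ℝ :=
  cls a0 s t * sqn A B C q r s t

theorem cq_01 (A B C : ℤ) (a0 q : ℕ) (r s t : ℤ) :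
    0 ≤ cq A B C a0 q r s t ∧ cq A B C a0 q r s t ≤ 1 := by
  obtain ⟨e1, e2⟩ := cls_01 a0 s t
  obtain ⟨e3, e4⟩ := sqn_01 A B C q r s t
  exact ⟨mul_nonneg e1 e3, mul_le_one₀ e2 e3 e4⟩

theorem per_cq (A B C : ℤ) (a0 q : ℕ) (r : ℤ) : Per (a0 * q) (cq A B C a0 q r) :=
  zb_per_mul (per_cls a0) (per_sqn A B C q r)

theorem av_cq {A B C : ℤ} {a0 q : ℕ} (h0 : 1 < a0) (hq : 0 < q) (h : Nat.Coprime a0 q) (r : ℤ) :
    av (a0 * q) (cq A B C a0 q r) = 1 / (a0 : ℝ) ^ 2 * av q (sqn A B C q r) := by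
  unfold cq
  rw [av_mul (by omega) hq h (per_cls a0) (per_sqn A B C q r), av_cls h0]

end Pool.Agent.AQM
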