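import Pool.Agent.Lib_helper15.AQ.Z3
import Pool.Agent.Lib_helper8.PENT.B.zj
import Pool.Agent.Lib_helper8.PENT.B.zn

/-!
# AQ (MP_892e4c_nt): representations by the form (helper15)
-/

set_option autoImplicit false

namespace Pool.Agent.AQM

open Pool.Agent.PENT

/-- in a set of pairs with small determinants there are at most `2 ^ ω(d)` representations of `d` -/
theorem card_repN_le {A B C D : ℤ} (hD : A * C - B ^ 2 = D) (d : ℕ) (hd : Squarefree d)
    (hd0 : 0 < d) (hA : ∀ p : ℕ, p.Prime → p ∣ d → ¬ (p : ℤ) ∣ A)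
    (G : Finset (ℤ × ℤ)) (hG : ∀ z ∈ G, 0 < z.1 ∧ Nf A B C z.1 z.2 = (d : ℤ))
    (hdet : ∀ z ∈ G, ∀ z' ∈ G, |z.1 * z'.2 - z'.1 * z.2| < (d : ℤ)) :
    G.card ≤ 2 ^ d.primeFactors.card := by
  rcases G.eq_empty_or_nonempty with rfl | ⟨z0, hz0⟩
  · simp
  obtain ⟨s0, t0⟩ := z0
  obtain ⟨hs0, h0⟩ := hG _ hz0
  simp only at hs0 h0
  rw [← Finset.card_powerset]
  refine Finset.card_le_card_of_injOn
    (fun z => d.primeFactors.filter (fun p : ℕ => (p : ℤ) ∣ z.1 * t0 - s0 * z.2)) ?_ ?_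
  · intro z _
    simp only [Finset.coe_powerset, Set.mem_preimage, Set.mem_powerset_iff, Finset.coe_subset]
    exact Finset.filter_subset _ _
  · rintro ⟨s, t⟩ hz ⟨s', t'⟩ hz' heq
    obtain ⟨hs, h1⟩ := hG _ hz
    obtain ⟨hs', h2⟩ := hG _ hz'
    have hdt := hdet _ hz _ hz'
    simp only at hs h1 hs' h2 heq hdt
    have hdiv : ∀ p ∈ d.primeFactors, (p : ℤ) ∣ s * t' - s' * t := by
      intro p hp
      have hpp := Nat.prime_of_mem_primeFactors hp
      have hpi : Prime (p : ℤ) := Nat.prime_iff_prime_int.1 hpp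
      have hpd : (p : ℤ) ∣ (d : ℤ) := Int.natCast_dvd_natCast.2 (Nat.dvd_of_mem_primeFactors hp)
      have hpA := hA p hpp (Nat.dvd_of_mem_primeFactors hp)
      have hpt : ¬ (p : ℤ) ∣ t0 := by
        intro hpt
        have hps : (p : ℤ) ∣ s0 := by
          have : (p : ℤ) ∣ A * s0 ^ 2 := by
            have h3 : A * s0 ^ 2 = (d : ℤ) - t0 * (2 * B * s0 + C * t0) := by
              rw [← h0]; unfold Nf; ring
            rw [h3]
            exact dvd_sub hpd (hpt.mul_right _)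
          exact hpi.dvd_of_dvd_pow ((hpi.dvd_or_dvd this).resolve_left hpA)
        have h3 : ((p * p : ℕ) : ℤ) ∣ (d : ℤ) := by
          push_cast
          rw [← h0]
          obtain ⟨a, rfl⟩ := hps
          obtain ⟨b, rfl⟩ := hpt
          exact ⟨Nf A B C a b, by unfold Nf; ring⟩
        have h5 := hd p (Int.natCast_dvd_natCast.1 h3)
        exact hpp.one_lt.ne' (Nat.isUnit_iff.1 h5)
      have hpAt : ¬ (p : ℤ) ∣ A * t0 := by
        intro h
        rcases hpi.dvd_or_dvd h with h | h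
        · exact hpA h
        · exact hpt h
      have key : (p : ℤ) ∣ (A * t0) * (s * t' - s' * t) := by
        have hmem : ((p : ℤ) ∣ s * t0 - s0 * t) ↔ ((p : ℤ) ∣ s' * t0 - s0 * t') := by
          have h3 := Finset.ext_iff.1 heq p
          simp only [Finset.mem_filter, hp, true_and] at h3
          exact h3
        by_cases hc : (p : ℤ) ∣ s * t0 - s0 * t
        · have hc' := hmem.1 hc
          have h3 : (A * t0) * (s * t' - s' * t) =
              A * (t' * (s * t0 - s0 * t) - t * (s' * t0 - s0 * t')) := by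
            ring
          rw [h3]
          exact (dvd_sub (hc.mul_left _) (hc'.mul_left _)).mul_left _
        · have hc' : ¬ (p : ℤ) ∣ s' * t0 - s0 * t' := fun h => hc (hmem.2 h)
          have hplus : ∀ a b : ℤ, Nf A B C a b = (d : ℤ) → ¬ (p : ℤ) ∣ a * t0 - s0 * b →
              (p : ℤ) ∣ A * (a * t0 + s0 * b) + 2 * B * b * t0 := by
            intro a b hab hn
            have h3 : (p : ℤ) ∣ (a * t0 - s0 * b) * (A * (a * t0 + s0 * b) + 2 * B * b * t0) := by
              have h4 : (a * t0 - s0 * b) * (A * (a * t0 + s0 * b) + 2 * B * b * t0) =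
                  (d : ℤ) * (t0 ^ 2 - b ^ 2) := by
                calc (a * t0 - s0 * b) * (A * (a * t0 + s0 * b) + 2 * B * b * t0)
                    = t0 ^ 2 * Nf A B C a b - b ^ 2 * Nf A B C s0 t0 := by unfold Nf; ring
                  _ = (d : ℤ) * (t0 ^ 2 - b ^ 2) := by rw [hab, h0]; ring
              rw [h4]
              exact hpd.mul_right _
            exact (hpi.dvd_or_dvd h3).resolve_left hn
          have h3 : (A * t0) * (s * t' - s' * t) =
              t' * (A * (s * t0 + s0 * t) + 2 * B * t * t0) -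
              t * (A * (s' * t0 + s0 * t') + 2 * B * t' * t0) := by
            ring
          rw [h3]
          exact dvd_sub ((hplus s t h1 hc).mul_left _) ((hplus s' t' h2 hc').mul_left _)
      exact (hpi.dvd_or_dvd key).resolve_left hpAt
    have hdd := zj_dvd_of_primes hd hdiv
    have hzero : s * t' - s' * t = 0 := Int.eq_zero_of_abs_lt_dvd hdd hdt
    have hd0' : (0 : ℤ) < d := by exact_mod_cast hd0
    -- `s'² N(s, t) = s² N(s', t')`
    have hs2 : s ^ 2 = s' ^ 2 := by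
      have h3 : s * t' = s' * t := by linarith
      have h4 : s ^ 2 * (d : ℤ) = s' ^ 2 * (d : ℤ) := by
        have e1 : s ^ 2 * (d : ℤ) = A * s ^ 2 * s' ^ 2 + 2 * B * s * s' * (s * t') +
            C * (s * t') ^ 2 := by rw [← h2]; unfold Nf; ring
        have e2 : s' ^ 2 * (d : ℤ) = A * s ^ 2 * s' ^ 2 + 2 * B * s * s' * (s' * t) +
            C * (s' * t) ^ 2 := by rw [← h1]; unfold Nf; ring
        rw [e1, e2, h3]
      exact mul_right_cancel₀ hd0'.ne' h4
    have hss : s = s' := by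
      have := abs_eq_abs.1 (sq_eq_sq_iff_abs_eq_abs _ _ |>.1 hs2)
      omega
    have htt : t = t' := by
      subst hss
      have h3 : s * (t' - t) = 0 := by linarith
      have h4 := (mul_eq_zero.1 h3).resolve_left hs.ne'
      omega
    rw [hss, htt]

/-! ### residue classes modulo a prime -/

theorem z4_inner {A : ℤ} (B C : ℤ) {p : ℕ} (hp : p.Prime) (hA : ¬ (p : ℤ) ∣ A) (ρ t A1 B1 : ℤ)
    (hAB : A1 ≤ B1) :
    ∑ s ∈ Finset.Ioc A1 B1, sqn A B C p ρ s t ≤ 2 * (((B1 - A1 : ℤ) : ℝ) / p + 1) := by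
  have hpR : (0 : ℝ) < (p : ℝ) := by exact_mod_cast hp.pos
  have hBA : (0 : ℝ) ≤ ((B1 - A1 : ℤ) : ℝ) := by exact_mod_cast (by omega : (0 : ℤ) ≤ B1 - A1)
  have hnn : (0 : ℝ) ≤ ((B1 - A1 : ℤ) : ℝ) / p := div_nonneg hBA hpR.le
  have hprime : Prime (p : ℤ) := Nat.prime_iff_prime_int.mp hp
  unfold sqn
  rw [← Finset.sum_filter, Finset.sum_const, nsmul_eq_mul, mul_one]
  set F := (Finset.Ioc A1 B1).filter (fun s => (p : ℤ) ∣ Nf A B C s t - ρ) with hF
  by_cases hne : F.Nonempty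
  · obtain ⟨s0, hs0⟩ := hne
    have hs0' := (Finset.mem_filter.1 hs0).2
    -- the second root
    by_cases hne2 : ∃ s1 ∈ F, ¬ (p : ℤ) ∣ s1 - s0
    · obtain ⟨s1, hs1, hs10⟩ := hne2
      have hs1' := (Finset.mem_filter.1 hs1).2
      have hfac : ∀ s ∈ F, ¬ (p : ℤ) ∣ s - s0 → (p : ℤ) ∣ A * (s + s0) + 2 * B * t := by
        intro s hs hn
        have h1 : (p : ℤ) ∣ (s - s0) * (A * (s + s0) + 2 * B * t) := by
          have := dvd_sub (Finset.mem_filter.1 hs).2 hs0'
          have e : Nf A B C s t - ρ - (Nf A B C s0 t - ρ) =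
            (s - s0) * (A * (s + s0) + 2 * B * t) := by unfold Nf; ring
          rwa [e] at this
        exact (hprime.dvd_or_dvd h1).resolve_left hn
      have hsub : F ⊆
          (Finset.Ioc A1 B1).filter (fun t => t ≡ s0 [ZMOD (p : ℤ)]) ∪
          (Finset.Ioc A1 B1).filter (fun t => t ≡ s1 [ZMOD (p : ℤ)]) := by
        intro s hs
        rw [Finset.mem_union, Finset.mem_filter, Finset.mem_filter]
        by_cases h2 : (p : ℤ) ∣ s - s0
        · left
          exact ⟨(Finset.mem_filter.1 hs).1, ((Int.modEq_iff_dvd.mpr h2).symm)⟩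
        · right
          refine ⟨(Finset.mem_filter.1 hs).1, ((Int.modEq_iff_dvd.mpr ?_).symm)⟩
          have h3 := dvd_sub (hfac s hs h2) (hfac s1 hs1 hs10)
          have e : A * (s + s0) + 2 * B * t - (A * (s1 + s0) + 2 * B * t) = A * (s - s1) := by ring
          rw [e] at h3
          exact (hprime.dvd_or_dvd h3).resolve_left hA
      have h2 := (Finset.card_le_card hsub).trans (Finset.card_union_le _ _)
      have h3 : (F.card : ℝ) ≤
          (((Finset.Ioc A1 B1).filter (fun t => t ≡ s0 [ZMOD (p : ℤ)])).card : ℝ) +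
          (((Finset.Ioc A1 B1).filter (fun t => t ≡ s1 [ZMOD (p : ℤ)])).card : ℝ) := by
        exact_mod_cast h2
      have h4 := zn_class hp.pos s0 A1 B1 hAB
      have h5 := zn_class hp.pos s1 A1 B1 hAB
      linarith
    · push Not at hne2
      have hsub : F ⊆ (Finset.Ioc A1 B1).filter (fun t => t ≡ s0 [ZMOD (p : ℤ)]) := by
        intro s hs
        rw [Finset.mem_filter]
        exact ⟨(Finset.mem_filter.1 hs).1, ((Int.modEq_iff_dvd.mpr (hne2 s hs)).symm)⟩
      have h3 : (F.card : ℝ) ≤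
          (((Finset.Ioc A1 B1).filter (fun t => t ≡ s0 [ZMOD (p : ℤ)])).card : ℝ) := by
        exact_mod_cast Finset.card_le_card hsub
      have h4 := zn_class hp.pos s0 A1 B1 hAB
      linarith
  · rw [Finset.not_nonempty_iff_eq_empty] at hne
    rw [hne]
    simp only [Finset.card_empty, Nat.cast_zero]
    linarith

theorem card_resN_le {A : ℤ} (B C : ℤ) {p : ℕ} (hp : p.Prime) (hA : ¬ (p : ℤ) ∣ A) (ρ : ℤ)
    (A1 B1 A2 B2 : ℤ) (hAB : A1 ≤ B1) (hAB' : A2 ≤ B2) :
    ∑ s ∈ Finset.Ioc A1 B1, ∑ t ∈ Finset.Ioc A2 B2, sqn A B C p ρ s t ≤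
      2 * ((B2 - A2 : ℤ) : ℝ) * (((B1 - A1 : ℤ) : ℝ) / p + 1) := by
  rw [Finset.sum_comm]
  calc ∑ t ∈ Finset.Ioc A2 B2, ∑ s ∈ Finset.Ioc A1 B1, sqn A B C p ρ s t
      ≤ ∑ _t ∈ Finset.Ioc A2 B2, 2 * (((B1 - A1 : ℤ) : ℝ) / p + 1) :=
        Finset.sum_le_sum fun t _ => z4_inner B C hp hA ρ t A1 B1 hAB
    _ = ((B2 - A2 : ℤ) : ℝ) * (2 * (((B1 - A1 : ℤ) : ℝ) / p + 1)) := by
        rw [Finset.sum_const, nsmul_eq_mul, Int.card_Ioc]
        congr 1
        have h : (((B2 - A2).toNat : ℤ) : ℝ) = ((B2 - A2 : ℤ) : ℝ) := by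
          rw [Int.toNat_of_nonneg (by omega)]
        rw [← h, Int.cast_natCast]
    _ = 2 * ((B2 - A2 : ℤ) : ℝ) * (((B1 - A1 : ℤ) : ℝ) / p + 1) := by ring

end Pool.Agent.AQM
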