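import Pool.Agent.Lib_helper15.AQ.Z3
import Pool.Agent.Lib_helper8.PENT.B.zm

/-!
# AQ (MP_892e4c_nt): pairs with `p² ∣ N(s, t)`, `p` large (helper15)
-/

set_option autoImplicit false

namespace Pool.Agent.AQM

open Pool.Agent.PENT

/-- the form has no zero -/
theorem Nf_aniso {A B C D : ℤ} (hD : A * C - B ^ 2 = D) (hsq : ¬ IsSquare (-D)) {s t : ℤ}
    (h : Nf A B C s t = 0) : s = 0 ∧ t = 0 := by
  have h1 : (A * s + B * t) ^ 2 = (-D) * t ^ 2 := by
    have := Nf_A hD s t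
    rw [h] at this
    linarith
  have ht : t = 0 := by
    by_contra hne
    apply hsq
    have h2 : t ^ 2 ∣ (A * s + B * t) ^ 2 := ⟨-D, by rw [h1]; ring⟩
    obtain ⟨k, hk⟩ := (Int.pow_dvd_pow_iff two_ne_zero).1 h2
    refine ⟨k, ?_⟩
    have h3 : (-D) * t ^ 2 = (k * k) * t ^ 2 := by
      rw [← h1, hk]; ring
    exact mul_right_cancel₀ (pow_ne_zero 2 hne) h3
  have hA : A ≠ 0 := by
    rintro rfl
    apply hsq
    rw [← hD]
    exact ⟨B, by ring⟩
  refine ⟨?_, ht⟩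
  rw [ht] at h
  unfold Nf at h
  have h2 : A * s ^ 2 = 0 := by linarith
  exact pow_eq_zero_iff (two_ne_zero) |>.1 ((mul_eq_zero.1 h2).resolve_left hA)

theorem z5_diff {p : ℕ} (hp : 0 < p) {k s s' : ℤ} (h : k * s / (p : ℤ) = k * s' / (p : ℤ)) :
    |k * (s - s')| < (p : ℤ) := by
  have hp' : (0 : ℤ) < p := by exact_mod_cast hp
  have h1 := Int.mul_ediv_add_emod (k * s) p
  have h2 := Int.mul_ediv_add_emod (k * s') p
  have h3 := Int.emod_nonneg (k * s) hp'.ne'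
  have h4 := Int.emod_nonneg (k * s') hp'.ne'
  have h5 := Int.emod_lt_of_pos (k * s) hp'
  have h6 := Int.emod_lt_of_pos (k * s') hp'
  rw [h] at h1
  rw [abs_lt]
  constructor <;> linarith

theorem z5_small {A B C : ℤ} {k p u v : ℤ} (hk : |A| + 2 * |B| + |C| ≤ k) (hk1 : 1 ≤ k)
    (hp : 0 < p) (hu : |k * u| < p) (hv : |k * v| < p) : |Nf A B C u v| < p ^ 2 := by
  rw [abs_mul, abs_of_pos (by omega : 0 < k)] at hu hv
  have hu0 := abs_nonneg u
  have hv0 := abs_nonneg v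
  set m := max |u| |v| with hm
  have hm0 : 0 ≤ m := hu0.trans (le_max_left _ _)
  have hkm : k * m < p := by
    rcases le_total |u| |v| with h | h
    · rw [hm, max_eq_right h]; exact hv
    · rw [hm, max_eq_left h]; exact hu
  have h1 : |Nf A B C u v| ≤ (|A| + 2 * |B| + |C|) * m ^ 2 := by
    have e1 : |A * u ^ 2| ≤ |A| * m ^ 2 := by
      rw [abs_mul, abs_pow]
      exact mul_le_mul_of_nonneg_left (pow_le_pow_left₀ hu0 (le_max_left _ _) 2) (abs_nonneg _)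
    have e2 : |2 * B * u * v| ≤ 2 * |B| * m ^ 2 := by
      rw [abs_mul, abs_mul, abs_mul, abs_two, mul_assoc, sq]
      exact mul_le_mul_of_nonneg_left (mul_le_mul (le_max_left _ _) (le_max_right _ _) hv0 hm0)
        (by positivity)
    have e3 : |C * v ^ 2| ≤ |C| * m ^ 2 := by
      rw [abs_mul, abs_pow]
      exact mul_le_mul_of_nonneg_left (pow_le_pow_left₀ hv0 (le_max_right _ _) 2) (abs_nonneg _)
    unfold Nf
    calc |A * u ^ 2 + 2 * B * u * v + C * v ^ 2| ≤ |A * u ^ 2 + 2 * B * u * v| + |C * v ^ 2| :=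
          abs_add_le _ _
      _ ≤ |A * u ^ 2| + |2 * B * u * v| + |C * v ^ 2| := by
          linarith [abs_add_le (A * u ^ 2) (2 * B * u * v)]
      _ ≤ _ := by linarith
  have h2 : (|A| + 2 * |B| + |C|) * m ^ 2 ≤ (k * m) ^ 2 := by
    have : (|A| + 2 * |B| + |C|) * m ^ 2 ≤ (k * k) * m ^ 2 := by
      apply mul_le_mul_of_nonneg_right _ (sq_nonneg _)
      nlinarith
    calc _ ≤ _ := this
      _ = (k * m) ^ 2 := by ring
  have h3 : (k * m) ^ 2 < p ^ 2 := by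
    apply pow_lt_pow_left₀ hkm (by positivity) two_ne_zero
  omega

/-- a set of pairs whose differences have `N` divisible by `p²` -/
theorem z5_class {A B C D : ℤ} (hD : A * C - B ^ 2 = D) (hsq : ¬ IsSquare (-D)) {k : ℤ}
    (hk : |A| + 2 * |B| + |C| ≤ k) (hk1 : 1 ≤ k) {p : ℕ} (hp : p.Prime) {l : ℤ} (hl : 1 ≤ l)
    (hpl : (p : ℤ) ≤ k * l) (G : Finset (ℤ × ℤ))
    (hG : G ⊆ (Finset.Icc 1 l) ×ˢ (Finset.Icc 1 l))
    (h : ∀ z ∈ G, ∀ z' ∈ G, ((p : ℤ) ^ 2) ∣ Nf A B C (z.1 - z'.1) (z.2 - z'.2)) :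
    (G.card : ℝ) ≤ 4 * (k : ℝ) ^ 2 * (l : ℝ) ^ 2 / (p : ℝ) ^ 2 := by
  have hp0 := hp.pos
  have hp' : (0 : ℤ) < p := by exact_mod_cast hp0
  have hk0 : 0 < k := by omega
  have hinj : G.card ≤ ((Finset.Icc (0 : ℤ) (k * l / p)) ×ˢ
      (Finset.Icc (0 : ℤ) (k * l / p))).card := by
    refine Finset.card_le_card_of_injOn (fun z => (k * z.1 / (p : ℤ), k * z.2 / (p : ℤ))) ?_ ?_
    · intro z hz
      have h1 := Finset.mem_product.1 (hG hz)
      have h2 := Finset.mem_Icc.1 h1.1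
      have h3 := Finset.mem_Icc.1 h1.2
      simp only [Finset.coe_product, Finset.coe_Icc, Set.mem_prod, Set.mem_Icc]
      exact ⟨⟨Int.ediv_nonneg (by nlinarith) hp'.le, Int.ediv_le_ediv hp' (by nlinarith)⟩,
        ⟨Int.ediv_nonneg (by nlinarith) hp'.le, Int.ediv_le_ediv hp' (by nlinarith)⟩⟩
    · intro z hz z' hz' heq
      simp only [Prod.mk.injEq] at heq
      have h1 := z5_diff hp0 heq.1
      have h2 := z5_diff hp0 heq.2
      have h3 := h z hz z' hz'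
      have h4 : Nf A B C (z.1 - z'.1) (z.2 - z'.2) = 0 :=
        Int.eq_zero_of_abs_lt_dvd h3 (z5_small hk hk1 hp' h1 h2)
      obtain ⟨h5, h6⟩ := Nf_aniso hD hsq h4
      exact Prod.ext (by omega) (by omega)
  rw [Finset.card_product, Int.card_Icc] at hinj
  have hm : 0 ≤ k * l / (p : ℤ) := Int.ediv_nonneg (by nlinarith) hp'.le
  have hpr : (0 : ℝ) < p := by exact_mod_cast hp0
  have h1 : (((k * l / (p : ℤ) + 1 - 0).toNat : ℕ) : ℝ) ≤ 2 * (k * l) / p := by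
    have h2 : (((k * l / (p : ℤ) + 1 - 0).toNat : ℕ) : ℝ) = ((k * l / (p : ℤ) : ℤ) : ℝ) + 1 := by
      have h3 : (((k * l / (p : ℤ) + 1 - 0).toNat : ℕ) : ℤ) = k * l / (p : ℤ) + 1 := by omega
      have h4 := congrArg (fun x : ℤ => (x : ℝ)) h3
      simpa only [Int.cast_natCast, Int.cast_add, Int.cast_one] using h4
    rw [h2]
    have h3 : ((k * l / (p : ℤ) : ℤ) : ℝ) ≤ (k * l) / p := by
      rw [le_div_iff₀ hpr]
      have := Int.ediv_mul_le (k * l) hp'.ne'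
      exact_mod_cast this
    have h4 : (1 : ℝ) ≤ (k * l) / p := by
      rw [le_div_iff₀ hpr]
      rw [one_mul]
      exact_mod_cast hpl
    have h5 : (2 : ℝ) * (k * l) / p = (k * l) / p + (k * l) / p := by ring
    linarith
  have h2 : (G.card : ℝ) ≤ (((k * l / (p : ℤ) + 1 - 0).toNat : ℕ) : ℝ) *
      (((k * l / (p : ℤ) + 1 - 0).toNat : ℕ) : ℝ) := by
    exact_mod_cast hinj
  have h3 : (0 : ℝ) ≤ (((k * l / (p : ℤ) + 1 - 0).toNat : ℕ) : ℝ) := Nat.cast_nonneg _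
  calc (G.card : ℝ) ≤ _ := h2
    _ ≤ (2 * (k * l) / p) * (2 * (k * l) / p) := mul_le_mul h1 h1 h3 (h3.trans h1)
    _ = 4 * (k : ℝ) ^ 2 * (l : ℝ) ^ 2 / (p : ℝ) ^ 2 := by ring

/-- proportional pairs modulo `p²` -/
theorem z5_prop {A B C : ℤ} {p : ℕ} (hp : p.Prime) {z z' : ℤ × ℤ} (ht : ¬ (p : ℤ) ∣ z.2)
    (h : ((p : ℤ) ^ 2) ∣ Nf A B C z.1 z.2) (hd : ((p : ℤ) ^ 2) ∣ z.1 * z'.2 - z'.1 * z.2) :
    ((p : ℤ) ^ 2) ∣ Nf A B C (z.1 - z'.1) (z.2 - z'.2) := by
  have hcop : IsCoprime ((p : ℤ) ^ 2) (z.2 ^ 2) :=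
    (IsCoprime.pow ((Int.prime_iff_natAbs_prime.2 (by simpa using hp)).coprime_iff_not_dvd.2 ht))
  have key : ((p : ℤ) ^ 2) ∣ z.2 ^ 2 * Nf A B C (z.1 - z'.1) (z.2 - z'.2) := by
    have e : z.2 ^ 2 * Nf A B C (z.1 - z'.1) (z.2 - z'.2) =
        (z.2 - z'.2) ^ 2 * Nf A B C z.1 z.2 + (z.1 * z'.2 - z'.1 * z.2) *
          (A * (2 * z.1 * (z.2 - z'.2) + (z.1 * z'.2 - z'.1 * z.2)) +
            2 * B * (z.2 * (z.2 - z'.2))) := by
      unfold Nf; ring
    rw [e]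
    exact dvd_add (h.mul_left _) (hd.mul_right _)
  exact hcop.dvd_of_dvd_mul_left key

theorem card_sqN_large {A B C D : ℤ} (hD : A * C - B ^ 2 = D) (hsq : ¬ IsSquare (-D)) {k : ℤ}
    (hk : |A| + 2 * |B| + |C| ≤ k) (hk1 : 1 ≤ k) {p : ℕ} (hp : p.Prime) (h2 : p ≠ 2)
    (hpD : ¬ (p : ℤ) ∣ D) (hpA : ¬ (p : ℤ) ∣ A) {l : ℤ} (hl : 1 ≤ l) (hpl : (p : ℤ) ≤ k * l) :
    ((((Finset.Icc 1 l) ×ˢ (Finset.Icc 1 l)).filter
      (fun z : ℤ × ℤ => ((p : ℤ) ^ 2) ∣ Nf A B C z.1 z.2)).card : ℝ) ≤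
      12 * (k : ℝ) ^ 2 * (l : ℝ) ^ 2 / (p : ℝ) ^ 2 := by
  have hpi : Prime (p : ℤ) := Nat.prime_iff_prime_int.1 hp
  have hpp : (p : ℤ) ∣ (p : ℤ) ^ 2 := dvd_pow_self _ two_ne_zero
  set F := ((Finset.Icc 1 l) ×ˢ (Finset.Icc 1 l)).filter
      (fun z : ℤ × ℤ => ((p : ℤ) ^ 2) ∣ Nf A B C z.1 z.2) with hF
  have hFs : F ⊆ (Finset.Icc 1 l) ×ˢ (Finset.Icc 1 l) := Finset.filter_subset _ _
  have hFd : ∀ z ∈ F, ((p : ℤ) ^ 2) ∣ Nf A B C z.1 z.2 := fun z hz => (Finset.mem_filter.1 hz).2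
  set F0 := F.filter (fun z => (p : ℤ) ∣ z.2) with hF0
  set F' := F.filter (fun z => ¬ (p : ℤ) ∣ z.2) with hF'
  have hsum : F.card = F0.card + F'.card := (Finset.card_filter_add_card_filter_not _).symm
  have h0 : (F0.card : ℝ) ≤ 4 * (k : ℝ) ^ 2 * (l : ℝ) ^ 2 / (p : ℝ) ^ 2 := by
    refine z5_class hD hsq hk hk1 hp hl hpl F0 ((Finset.filter_subset _ _).trans hFs) ?_
    have hboth : ∀ z ∈ F0, (p : ℤ) ∣ z.1 ∧ (p : ℤ) ∣ z.2 := by
      intro z hz
      have h1 := Finset.mem_filter.1 hz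
      refine ⟨?_, h1.2⟩
      have h3 : (p : ℤ) ∣ A * z.1 ^ 2 := by
        have h4 : A * z.1 ^ 2 = Nf A B C z.1 z.2 - z.2 * (2 * B * z.1 + C * z.2) := by
          unfold Nf; ring
        rw [h4]
        exact dvd_sub (hpp.trans (hFd z h1.1)) (h1.2.mul_right _)
      exact hpi.dvd_of_dvd_pow ((hpi.dvd_or_dvd h3).resolve_left hpA)
    intro z hz z' hz'
    have h1 := hboth z hz
    have h2 := hboth z' hz'
    obtain ⟨a, ha⟩ := dvd_sub h1.1 h2.1
    obtain ⟨b, hb⟩ := dvd_sub h1.2 h2.2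
    rw [ha, hb]
    exact ⟨Nf A B C a b, by unfold Nf; ring⟩
  have h1 : (F'.card : ℝ) ≤ 8 * (k : ℝ) ^ 2 * (l : ℝ) ^ 2 / (p : ℝ) ^ 2 := by
    rcases F'.eq_empty_or_nonempty with he | ⟨z0, hz0⟩
    · rw [he]
      simp only [Finset.card_empty, Nat.cast_zero]
      have : (0 : ℝ) < p := by exact_mod_cast hp.pos
      positivity
    · have hz0' := Finset.mem_filter.1 hz0
      have ht0 : ¬ (p : ℤ) ∣ z0.2 := hz0'.2
      have hAt : ¬ (p : ℤ) ∣ A * z0.2 := by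
        intro h
        rcases hpi.dvd_or_dvd h with h | h
        · exact hpA h
        · exact ht0 h
      have hcop : IsCoprime ((p : ℤ) ^ 2) z0.2 :=
        IsCoprime.pow_left ((Int.prime_iff_natAbs_prime.2
          (by simpa using hp)).coprime_iff_not_dvd.2 ht0)
      have hcopA : IsCoprime ((p : ℤ) ^ 2) (A * z0.2) :=
        IsCoprime.pow_left ((Int.prime_iff_natAbs_prime.2
          (by simpa using hp)).coprime_iff_not_dvd.2 hAt)
      set F1 := F'.filter (fun z => ((p : ℤ) ^ 2) ∣ z.1 * z0.2 - z0.1 * z.2) with hF1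
      set F2 := F'.filter (fun z => ¬ ((p : ℤ) ^ 2) ∣ z.1 * z0.2 - z0.1 * z.2) with hF2
      have hs2 : F'.card = F1.card + F2.card := (Finset.card_filter_add_card_filter_not _).symm
      have hsub : F' ⊆ (Finset.Icc 1 l) ×ˢ (Finset.Icc 1 l) := (Finset.filter_subset _ _).trans hFs
      have hc1 : (F1.card : ℝ) ≤ 4 * (k : ℝ) ^ 2 * (l : ℝ) ^ 2 / (p : ℝ) ^ 2 := by
        refine z5_class hD hsq hk hk1 hp hl hpl F1 ((Finset.filter_subset _ _).trans hsub) ?_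
        intro z hz z' hz'
        have e1 := Finset.mem_filter.1 hz
        have e2 := Finset.mem_filter.1 hz'
        have e3 := Finset.mem_filter.1 e1.1
        refine z5_prop hp e3.2 (hFd z e3.1) ?_
        have e4 : ((p : ℤ) ^ 2) ∣ z0.2 * (z.1 * z'.2 - z'.1 * z.2) := by
          have e5 : z0.2 * (z.1 * z'.2 - z'.1 * z.2) =
              z'.2 * (z.1 * z0.2 - z0.1 * z.2) - z.2 * (z'.1 * z0.2 - z0.1 * z'.2) := by ring
          rw [e5]
          exact dvd_sub (e1.2.mul_left _) (e2.2.mul_left _)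
        exact hcop.dvd_of_dvd_mul_left e4
      have hc2 : (F2.card : ℝ) ≤ 4 * (k : ℝ) ^ 2 * (l : ℝ) ^ 2 / (p : ℝ) ^ 2 := by
        have hplus : ∀ z ∈ F2, ((p : ℤ) ^ 2) ∣
            A * (z.1 * z0.2 + z0.1 * z.2) + 2 * B * z.2 * z0.2 := by
          intro z hz
          have e1 := Finset.mem_filter.1 hz
          have e2 := Finset.mem_filter.1 e1.1
          have htz : ¬ (p : ℤ) ∣ z.2 := e2.2
          have e3 : ((p : ℤ) ^ 2) ∣ (z.1 * z0.2 - z0.1 * z.2) *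
              (A * (z.1 * z0.2 + z0.1 * z.2) + 2 * B * z.2 * z0.2) := by
            have e4 : (z.1 * z0.2 - z0.1 * z.2) *
                (A * (z.1 * z0.2 + z0.1 * z.2) + 2 * B * z.2 * z0.2) =
                z0.2 ^ 2 * Nf A B C z.1 z.2 - z.2 ^ 2 * Nf A B C z0.1 z0.2 := by
              unfold Nf; ring
            rw [e4]
            exact dvd_sub ((hFd z e2.1).mul_left _) ((hFd z0 hz0'.1).mul_left _)
          by_cases e5 : (p : ℤ) ∣ z.1 * z0.2 - z0.1 * z.2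
          · exfalso
            apply e1.2
            have e6 : ¬ (p : ℤ) ∣ A * (z.1 * z0.2 + z0.1 * z.2) + 2 * B * z.2 * z0.2 := by
              intro e6
              -- then `p ∣ 2 z.2 (A z0.1 + B z0.2)`
              have e7 : (p : ℤ) ∣ 2 * (z.2 * (A * z0.1 + B * z0.2)) := by
                have := dvd_sub e6 (e5.mul_left A)
                rwa [show A * (z.1 * z0.2 + z0.1 * z.2) + 2 * B * z.2 * z0.2 -
                  A * (z.1 * z0.2 - z0.1 * z.2) = 2 * (z.2 * (A * z0.1 + B * z0.2)) by ring]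
                  at this
              rcases hpi.dvd_or_dvd e7 with e8 | e8
              · have e9 : p ∣ 2 := by exact_mod_cast e8
                exact h2 ((Nat.prime_dvd_prime_iff_eq hp Nat.prime_two).1 e9)
              · rcases hpi.dvd_or_dvd e8 with e9 | e9
                · exact htz e9
                · have e10 : (p : ℤ) ∣ D * z0.2 ^ 2 := by
                    have e11 := Nf_A hD z0.1 z0.2
                    have e12 : D * z0.2 ^ 2 = A * Nf A B C z0.1 z0.2 -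
                        (A * z0.1 + B * z0.2) * (A * z0.1 + B * z0.2) := by rw [e11]; ring
                    rw [e12]
                    exact dvd_sub ((hpp.trans (hFd z0 hz0'.1)).mul_left _) (e9.mul_right _)
                  rcases hpi.dvd_or_dvd e10 with e11 | e11
                  · exact hpD e11
                  · exact ht0 (hpi.dvd_of_dvd_pow e11)
            have e7 : IsCoprime ((p : ℤ) ^ 2)
                (A * (z.1 * z0.2 + z0.1 * z.2) + 2 * B * z.2 * z0.2) :=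
              IsCoprime.pow_left ((Int.prime_iff_natAbs_prime.2
                (by simpa using hp)).coprime_iff_not_dvd.2 e6)
            exact e7.dvd_of_dvd_mul_right e3
          · have e7 : IsCoprime ((p : ℤ) ^ 2) (z.1 * z0.2 - z0.1 * z.2) :=
              IsCoprime.pow_left ((Int.prime_iff_natAbs_prime.2
                (by simpa using hp)).coprime_iff_not_dvd.2 e5)
            exact e7.dvd_of_dvd_mul_left e3
        refine z5_class hD hsq hk hk1 hp hl hpl F2 ((Finset.filter_subset _ _).trans hsub) ?_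
        intro z hz z' hz'
        have e1 := Finset.mem_filter.1 hz
        have e3 := Finset.mem_filter.1 e1.1
        refine z5_prop hp e3.2 (hFd z e3.1) ?_
        have e4 : ((p : ℤ) ^ 2) ∣ (A * z0.2) * (z.1 * z'.2 - z'.1 * z.2) := by
          have e5 : (A * z0.2) * (z.1 * z'.2 - z'.1 * z.2) =
              z'.2 * (A * (z.1 * z0.2 + z0.1 * z.2) + 2 * B * z.2 * z0.2) -
              z.2 * (A * (z'.1 * z0.2 + z0.1 * z'.2) + 2 * B * z'.2 * z0.2) := by ring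
          rw [e5]
          exact dvd_sub ((hplus z hz).mul_left _) ((hplus z' hz').mul_left _)
        exact hcopA.dvd_of_dvd_mul_left e4
      rw [hs2]
      push_cast
      have : (8 : ℝ) * (k : ℝ) ^ 2 * (l : ℝ) ^ 2 / (p : ℝ) ^ 2 =
        4 * (k : ℝ) ^ 2 * (l : ℝ) ^ 2 / (p : ℝ) ^ 2 +
        4 * (k : ℝ) ^ 2 * (l : ℝ) ^ 2 / (p : ℝ) ^ 2 := by ring
      linarith
  rw [hsum]
  push_cast
  have : (12 : ℝ) * (k : ℝ) ^ 2 * (l : ℝ) ^ 2 / (p : ℝ) ^ 2 =
    4 * (k : ℝ) ^ 2 * (l : ℝ) ^ 2 / (p : ℝ) ^ 2 +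
    8 * (k : ℝ) ^ 2 * (l : ℝ) ^ 2 / (p : ℝ) ^ 2 := by ring
  linarith

end Pool.Agent.AQM
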