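import Pool.Agent.Lib_helper15.AQ.Z3
import Pool.Agent.Lib_helper15.AQ.Mer4
import Pool.Agent.Lib_helper8.PENT.B.zl
import Pool.Agent.Lib_helper8.PENT.B.zo

/-!
# AQ (MP_892e4c_nt): the weights pointwise and the singular product (helper15)
-/

set_option autoImplicit false

namespace Pool.Agent.AQM

open Pool.Agent.PENT

theorem weightN_ge {A B C D : ℤ} (hD : A * C - B ^ 2 = D) {a0 : ℕ} (P Y α : ℝ) (m : ℕ)
    (hP : 2 ≤ P) (hPY : P ≤ Y) (hα : 0 < α) (hα1 : α ≤ 1)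
    (hPA : ∀ p : ℕ, p.Prime → P < (p : ℝ) → ¬ (p : ℤ) ∣ A)
    (q : ℕ) (N : ℕ) (s t : ℤ) (hN : (N : ℤ) = Nf A B C s t) (hN0 : 0 < N)
    (hNY : (N : ℝ) ≤ Y ^ m) (hNq : Nat.Coprime N q) (hNa : Nat.Coprime N a0) (S : Finset ℕ)
    (hS : ∀ p : ℕ, p ∈ S ↔ p.Prime ∧ (p : ℝ) ≤ Y ∧ ¬ p ∣ q ∧ ¬ p ∣ a0 ∧
      (P < (p : ℝ) → IsSquare ((-D : ℤ) : ZMod p)))
    (hsq : ∀ p : ℕ, p.Prime → P < (p : ℝ) → ¬ p ^ 2 ∣ N) :
    α ^ m * ∏ p ∈ S, (1 - (if (p : ℝ) ≤ P then 1 else 1 - α) * (if p ∣ N then 1 else 0)) ≤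
      (open Classical in if DPq D a0 P N then α ^ N.primeFactors.card else 0) := by
  classical
  have hnq : ∀ p : ℕ, p.Prime → p ∣ N → ¬ p ∣ q := by
    intro p hp h1 h2
    have := Nat.dvd_gcd h1 h2
    rw [hNq.gcd_eq_one] at this
    exact hp.one_lt.ne' (Nat.dvd_one.1 this)
  have hna : ∀ p : ℕ, p.Prime → p ∣ N → ¬ p ∣ a0 := by
    intro p hp h1 h2
    have := Nat.dvd_gcd h1 h2
    rw [hNa.gcd_eq_one] at this
    exact hp.one_lt.ne' (Nat.dvd_one.1 this)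
  by_cases hex : ∃ p : ℕ, p.Prime ∧ (p : ℝ) ≤ P ∧ p ∣ N
  · obtain ⟨p, hp, hpP, hpN⟩ := hex
    have hpS : p ∈ S := (hS p).2 ⟨hp, hpP.trans hPY, hnq p hp hpN, hna p hp hpN,
      fun h => absurd hpP (not_le.2 h)⟩
    rw [Finset.prod_eq_zero hpS (by rw [if_pos hpP, if_pos hpN]; ring), mul_zero]
    split_ifs
    · exact pow_nonneg hα.le _
    · exact le_rfl
  · push Not at hex
    have hbig : ∀ p : ℕ, p.Prime → p ∣ N → P < (p : ℝ) := by
      intro p hp hpN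
      by_contra hle
      exact hex p hp (not_lt.1 hle) hpN
    have hmod : ∀ p : ℕ, p.Prime → p ∣ N → IsSquare ((-D : ℤ) : ZMod p) := by
      intro p hp hpN
      have hPp := hbig p hp hpN
      by_contra hns
      have hpi : Prime (p : ℤ) := Nat.prime_iff_prime_int.1 hp
      have hpA := hPA p hp hPp
      have hd : (p : ℤ) ∣ Nf A B C s t := by
        rw [← hN]; exact_mod_cast hpN
      have h1 : (p : ℤ) ∣ (A * s + B * t) ^ 2 + D * t ^ 2 := by
        rw [← Nf_A hD]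
        exact hd.mul_left _
      obtain ⟨h2, h3⟩ := z1_inert hp hns _ _ h1
      have h4 : (p : ℤ) ∣ A * s := by
        have := dvd_sub h2 (h3.mul_left B)
        rwa [add_sub_cancel_right] at this
      obtain ⟨a, ha⟩ := (hpi.dvd_or_dvd h4).resolve_left hpA
      obtain ⟨b, hb⟩ := h3
      apply hsq p hp hPp
      have h5 : ((p ^ 2 : ℕ) : ℤ) ∣ (N : ℤ) := by
        rw [hN, ha, hb]
        push_cast
        exact ⟨Nf A B C a b, by unfold Nf; ring⟩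
      exact_mod_cast h5
    have hDP : DPq D a0 P N := by
      refine ⟨?_, fun p hp hpN => ⟨⟨hna p hp hpN, hmod p hp hpN⟩, hbig p hp hpN⟩⟩
      rw [Nat.squarefree_iff_prime_squarefree]
      intro p hp hpp
      have hpN : p ∣ N := (Dvd.intro _ rfl).trans hpp
      refine hsq p hp (hbig p hp hpN) ?_
      rw [pow_two]; exact hpp
    rw [if_pos hDP]
    have hprod : ∏ p ∈ S, (1 - (if (p : ℝ) ≤ P then (1 : ℝ) else 1 - α) *
        (if p ∣ N then 1 else 0)) = α ^ (S.filter (fun p => p ∣ N)).card := by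
      rw [← Finset.prod_const, Finset.prod_filter]
      refine Finset.prod_congr rfl fun p hp => ?_
      by_cases hpN : p ∣ N
      · have := hbig p ((hS p).1 hp).1 hpN
        rw [if_pos hpN, if_neg (not_le.2 this), if_pos hpN]
        ring
      · rw [if_neg hpN, if_neg hpN]; ring
    rw [hprod]
    have hsub : S.filter (fun p => p ∣ N) = N.primeFactors.filter (fun p : ℕ => ¬ Y < (p : ℝ)) := by
      ext p
      simp only [Finset.mem_filter, Nat.mem_primeFactors, not_lt]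
      constructor
      · rintro ⟨h1, h2⟩
        have := (hS p).1 h1
        exact ⟨⟨this.1, h2, hN0.ne'⟩, this.2.1⟩
      · rintro ⟨⟨h1, h2, _⟩, h3⟩
        exact ⟨(hS p).2 ⟨h1, h3, hnq p h1 h2, hna p h1 h2, fun _ => hmod p h1 h2⟩, h2⟩
    have hcard := Finset.card_filter_add_card_filter_not (s := N.primeFactors)
      (fun p : ℕ => Y < (p : ℝ))
    have hT : (N.primeFactors.filter (fun p : ℕ => Y < (p : ℝ))).card ≤ m :=
      zo_big (hP.trans hPY) hN0 hNY _ (fun p hp => by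
        rw [Finset.mem_filter] at hp
        exact hp)
    rw [hsub, ← pow_add]
    exact pow_le_pow_of_le_one hα.le hα1 (by omega)

open Classical in
theorem z6_ssp {D : ℤ} {a0 : ℕ} {z : ℝ} (hz : 0 ≤ z) (T : Finset ℕ)
    (hT : ∀ p ∈ T, p.Prime ∧ (p : ℝ) ≤ z ∧ ¬ p ∣ a0 ∧ IsSquare ((D : ℤ) : ZMod p)) :
    ∑ p ∈ T, 1 / (p : ℝ) ≤ ssp D a0 z := by
  unfold ssp
  refine Finset.sum_le_sum_of_subset_of_nonneg (fun p hp => ?_) (fun p _ _ => by positivity)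
  obtain ⟨h1, h2, h3, h4⟩ := hT p hp
  rw [Finset.mem_filter, Finset.mem_Icc]
  exact ⟨⟨h1.one_lt.le, (Nat.le_floor_iff hz).2 h2⟩, h1, h3, h4⟩

theorem prodN_ge {D : ℤ} {a0 : ℕ} (h0 : 0 < a0) (hsq : ¬ IsSquare (-D))
    (hdv : ∀ p : ℕ, p.Prime → (p : ℤ) ∣ 2 * D → p ∣ a0)
    (α : ℝ) (hα : 0 < α) (hα1 : α ≤ 1) : ∃ c : ℝ, 0 < c ∧
    ∀ (P Y : ℝ) (S : Finset ℕ) (g : ℕ → ℝ), 2 ≤ P → P ≤ Y →
    (∀ p ∈ S, p.Prime ∧ (p : ℝ) ≤ Y ∧ ¬ p ∣ a0) →
    (∀ p ∈ S, 0 ≤ g p ∧ g p ≤ 2 / (p : ℝ) ∧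
      (¬ IsSquare ((-D : ℤ) : ZMod p) → g p ≤ 1 / (p : ℝ) ^ 2) ∧
      (P < (p : ℝ) → g p ≤ (1 - α) * (2 / (p : ℝ)))) →
    c * Real.log P ^ (-α) * Real.log Y ^ (α - 1) ≤ ∏ p ∈ S, (1 - g p) := by
  classical
  obtain ⟨C, hC0, hC⟩ := mertens_ssp (D := -D) h0 hsq (fun p hp h => hdv p hp (by
    have e : (2 : ℤ) * -D = -(2 * D) := by ring
    rw [e] at h
    exact (dvd_neg).1 h))
  obtain ⟨E, hE0, hE⟩ := zl_sq
  refine ⟨Real.exp (-(14 * E + 2 * C)), Real.exp_pos _, ?_⟩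
  intro P Y S g hP hPY hS hg
  have hY : 2 ≤ Y := hP.trans hPY
  have hlP : 0 < Real.log P := Real.log_pos (by linarith)
  have hlY : 0 < Real.log Y := Real.log_pos (by linarith)
  have h2a : 2 ∣ a0 := hdv 2 Nat.prime_two (dvd_mul_right _ _)
  -- the range of `g`
  have hp2 : ∀ p ∈ S, (2 : ℝ) ≤ p := fun p hp => by exact_mod_cast (hS p hp).1.two_le
  have hg23 : ∀ p ∈ S, g p ≤ 2 / 3 := by
    intro p hp
    obtain ⟨_, h2, _, _⟩ := hg p hp
    have h4 : 3 ≤ p := by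
      have := (hS p hp).1.two_le
      have h5 := (hS p hp).2.2
      rcases Nat.lt_or_ge 2 p with h | h
      · exact h
      · have : p = 2 := by omega
        subst this
        exact absurd h2a h5
    have h5 : (3 : ℝ) ≤ p := by exact_mod_cast h4
    refine h2.trans ?_
    exact div_le_div_of_nonneg_left (by norm_num) (by norm_num) h5
  -- the product
  have hprod : Real.exp (-∑ p ∈ S, (g p + 3 * g p ^ 2)) ≤ ∏ p ∈ S, (1 - g p) := by
    rw [← Finset.sum_neg_distrib, Real.exp_sum]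
    exact Finset.prod_le_prod (fun _ _ => (Real.exp_pos _).le)
      (fun p hp => zl_exp (hg23 p hp))
  -- termwise bound
  have hterm : ∀ p ∈ S, g p + 3 * g p ^ 2 ≤ 14 * (1 / (p : ℝ) ^ 2) +
      ((1 - α) * 2 * (if IsSquare ((-D : ℤ) : ZMod p) then 1 / (p : ℝ) else 0) +
        2 * α * (if IsSquare ((-D : ℤ) : ZMod p) ∧ (p : ℝ) ≤ P then 1 / (p : ℝ) else 0)) := by
    intro p hp
    obtain ⟨h1, h2, h4, h5⟩ := hg p hp
    have hpp : (0 : ℝ) < p := by linarith [hp2 p hp]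
    have hsq : g p ^ 2 ≤ 4 * (1 / (p : ℝ) ^ 2) := by
      calc g p ^ 2 ≤ (2 / (p : ℝ)) ^ 2 := pow_le_pow_left₀ h1 h2 2
        _ = 4 * (1 / (p : ℝ) ^ 2) := by rw [div_pow]; ring
    have hpos : (0 : ℝ) ≤ 1 / (p : ℝ) ^ 2 := by positivity
    by_cases h : IsSquare ((-D : ℤ) : ZMod p)
    · rw [if_pos h]
      by_cases hle : (p : ℝ) ≤ P
      · rw [if_pos ⟨h, hle⟩]
        have : g p ≤ (1 - α) * 2 * (1 / (p : ℝ)) + 2 * α * (1 / (p : ℝ)) := by
          refine h2.trans (le_of_eq ?_)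
          ring
        linarith
      · rw [if_neg (fun hh => hle hh.2)]
        have := h5 (not_le.1 hle)
        have h6 : (1 - α) * (2 / (p : ℝ)) = (1 - α) * 2 * (1 / (p : ℝ)) := by ring
        linarith
    · rw [if_neg h, if_neg (fun hh => h hh.1)]
      have := h4 h
      linarith
  have hsum : ∑ p ∈ S, (g p + 3 * g p ^ 2) ≤
      14 * E + ((1 - α) * 2 * ssp (-D) a0 Y + 2 * α * ssp (-D) a0 P) := by
    refine (Finset.sum_le_sum hterm).trans ?_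
    rw [Finset.sum_add_distrib, Finset.sum_add_distrib, ← Finset.mul_sum, ← Finset.mul_sum,
      ← Finset.mul_sum, ← Finset.sum_filter, ← Finset.sum_filter]
    have e1 := hE S
    have e2 : ∑ p ∈ S.filter (fun p => IsSquare ((-D : ℤ) : ZMod p)), 1 / (p : ℝ) ≤
        ssp (-D) a0 Y :=
      z6_ssp (by linarith) _ (fun p hp => by
        rw [Finset.mem_filter] at hp
        exact ⟨(hS p hp.1).1, (hS p hp.1).2.1, (hS p hp.1).2.2, hp.2⟩)
    have e3 : ∑ p ∈ S.filter (fun p : ℕ => IsSquare ((-D : ℤ) : ZMod p) ∧ (p : ℝ) ≤ P),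
        1 / (p : ℝ) ≤ ssp (-D) a0 P :=
      z6_ssp (by linarith) _ (fun p hp => by
        rw [Finset.mem_filter] at hp
        exact ⟨(hS p hp.1).1, hp.2.2, (hS p hp.1).2.2, hp.2.1⟩)
    have e4 := mul_le_mul_of_nonneg_left e2 (show 0 ≤ (1 - α) * 2 by linarith)
    have e5 := mul_le_mul_of_nonneg_left e3 (show 0 ≤ 2 * α by linarith)
    linarith
  have hY1 := (abs_le.1 (hC Y hY)).2
  have hP1 := (abs_le.1 (hC P hP)).2
  have hfin : ∑ p ∈ S, (g p + 3 * g p ^ 2) ≤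
      14 * E + 2 * C + α * Real.log (Real.log P) + (1 - α) * Real.log (Real.log Y) := by
    have e4 : (1 - α) * 2 * ssp (-D) a0 Y ≤ (1 - α) * 2 * (1 / 2 * Real.log (Real.log Y) + C) :=
      mul_le_mul_of_nonneg_left (by linarith) (by linarith)
    have e5 : 2 * α * ssp (-D) a0 P ≤ 2 * α * (1 / 2 * Real.log (Real.log P) + C) :=
      mul_le_mul_of_nonneg_left (by linarith) (by linarith)
    refine hsum.trans ?_
    refine (add_le_add_right (add_le_add e4 e5) _).trans (le_of_eq ?_)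
    ring
  refine le_trans ?_ hprod
  rw [Real.rpow_def_of_pos hlP, Real.rpow_def_of_pos hlY, ← Real.exp_add, ← Real.exp_add]
  refine Real.exp_le_exp.2 ?_
  nlinarith [hfin]

end Pool.Agent.AQM
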