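import Pool.Agent.Lib_helper15.AQ.Z3

/-!
# AQ (MP_892e4c_nt): local facts for the form without conditions on `A` (helper15)
-/

set_option autoImplicit false

namespace Pool.Agent.AQM

open Pool.Agent.PENT

theorem av_swap (m : ℕ) (h : ℤ → ℤ → ℝ) : av m (fun s t => h t s) = av m h := by
  unfold av
  rw [Finset.sum_comm]

/-- the change of variables `(s, s + t)` -/
theorem av_add {m : ℕ} (hm : 0 < m) {h : ℤ → ℤ → ℝ} (hh : Per m h) :
    av m (fun s t => h s (s + t)) = av m h := by
  have h1 := av_shear (A := 1) (B := 1) hm isCoprime_one_left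
    (h := fun s t => h t s) (fun s t s' t' hs ht => hh t s t' s' ht hs)
  have h2 : av m (fun s t => h t (1 * s + 1 * t)) = av m (fun s t => h t s) := h1
  have h3 : av m (fun s t => h t s) = av m h := av_swap m h
  have h4 : av m (fun s t => h s (s + t)) = av m (fun s t => h t (1 * s + 1 * t)) := by
    rw [← av_swap m (fun s t => h s (s + t))]
    congr 1
    funext s t
    congr 1
    ring
  rw [h4, h2, h3]

/-- a form with the same averages and leading coefficient prime to `p` -/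
theorem z7_form {A B C D : ℤ} (hD : A * C - B ^ 2 = D) {p : ℕ} (hp : p.Prime) (h2 : p ≠ 2)
    (hpD : ¬ (p : ℤ) ∣ D) : ∃ A' B' C' : ℤ, A' * C' - B' ^ 2 = D ∧ ¬ (p : ℤ) ∣ A' ∧
      ∀ (m : ℕ) (r : ℤ), 0 < m → av m (sqn A B C m r) = av m (sqn A' B' C' m r) := by
  have hpi : Prime (p : ℤ) := Nat.prime_iff_prime_int.1 hp
  by_cases hA : (p : ℤ) ∣ A
  · by_cases hC : (p : ℤ) ∣ C
    · refine ⟨A + 2 * B + C, B + C, C, by rw [← hD]; ring, ?_, ?_⟩
      · intro h
        have h3 : (p : ℤ) ∣ 2 * B := by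
          have := dvd_sub (dvd_sub h hA) hC
          have e : A + 2 * B + C - A - C = 2 * B := by ring
          rwa [e] at this
        rcases hpi.dvd_or_dvd h3 with h4 | h4
        · have : p ∣ 2 := by exact_mod_cast h4
          exact h2 ((Nat.prime_dvd_prime_iff_eq hp Nat.prime_two).1 this)
        · apply hpD
          rw [← hD, sq]
          exact dvd_sub (hA.mul_right _) (h4.mul_right _)
      · intro m r hm
        rw [← av_add hm (per_sqn A B C m r)]
        congr 1
        funext s t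
        unfold sqn
        have e : Nf A B C s (s + t) = Nf (A + 2 * B + C) (B + C) C s t := by
          unfold Nf; ring
        rw [e]
    · refine ⟨C, B, A, by rw [← hD]; ring, hC, ?_⟩
      intro m r hm
      rw [← av_swap]
      congr 1
      funext s t
      unfold sqn
      have e : Nf A B C t s = Nf C B A s t := by
        unfold Nf; ring
      rw [e]
  · exact ⟨A, B, C, hD, hA, fun m r _ => rfl⟩

theorem av_sqn_le' {A B C D : ℤ} (hD : A * C - B ^ 2 = D) {p : ℕ} (hp : p.Prime) (h2 : p ≠ 2)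
    (hpD : ¬ (p : ℤ) ∣ D) (ρ : ℤ) : av p (sqn A B C p ρ) ≤ 2 / (p : ℝ) := by
  obtain ⟨A', B', C', h1, h3, h4⟩ := z7_form hD hp h2 hpD
  rw [h4 p ρ hp.pos]
  exact av_sqn_le h1 hp h3 ρ

theorem av_sqn_inert' {A B C D : ℤ} (hD : A * C - B ^ 2 = D) {p : ℕ} (hp : p.Prime) (h2 : p ≠ 2)
    (hpD : ¬ (p : ℤ) ∣ D) (hn : ¬ IsSquare ((-D : ℤ) : ZMod p)) :
    av p (sqn A B C p 0) ≤ 1 / (p : ℝ) ^ 2 := by
  obtain ⟨A', B', C', h1, h3, h4⟩ := z7_form hD hp h2 hpD
  rw [h4 p 0 hp.pos]
  exact av_sqn_inert h1 hp h3 hn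

theorem z7_mul (A B C : ℤ) {a b : ℕ} (hab : Nat.Coprime a b) (r s t : ℤ) :
    sqn A B C (a * b) r s t = sqn A B C a r s t * sqn A B C b r s t := by
  unfold sqn
  have hc : IsCoprime (a : ℤ) (b : ℤ) := Nat.isCoprime_iff_coprime.2 hab
  by_cases h1 : (a : ℤ) ∣ Nf A B C s t - r
  · by_cases h2 : (b : ℤ) ∣ Nf A B C s t - r
    · have h3 : ((a * b : ℕ) : ℤ) ∣ Nf A B C s t - r := by
        push_cast
        exact hc.mul_dvd h1 h2
      rw [if_pos h1, if_pos h2, if_pos h3]; norm_num
    · have h3 : ¬ ((a * b : ℕ) : ℤ) ∣ Nf A B C s t - r := by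
        intro h
        apply h2
        push_cast at h
        exact (Dvd.intro_left _ rfl).trans h
      rw [if_neg h2, if_neg h3]; norm_num
  · have h3 : ¬ ((a * b : ℕ) : ℤ) ∣ Nf A B C s t - r := by
      intro h
      apply h1
      push_cast at h
      exact (Dvd.intro _ rfl).trans h
    rw [if_neg h1, if_neg h3]; norm_num

/-- all `q` prime to `2 D` -/
theorem av_sqn_ge' {A B C D : ℤ} (hD : A * C - B ^ 2 = D) {q : ℕ} (hq0 : 0 < q)
    (hq : ∀ p : ℕ, p.Prime → p ∣ q → p ≠ 2 ∧ ¬ (p : ℤ) ∣ D) (r : ℤ) (hr : IsCoprime r (q : ℤ)) :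
    (q.totient : ℝ) / (q : ℝ) ^ 2 ≤ av q (sqn A B C q r) := by
  revert hq0 hq hr
  induction q using Nat.recOnPosPrimePosCoprime with
  | prime_pow p n hp hn =>
    intro hq0 hq hr
    obtain ⟨h2, hpD⟩ := hq p hp (dvd_pow_self _ (by omega))
    obtain ⟨A', B', C', h1, h3, h4⟩ := z7_form hD hp h2 hpD
    rw [h4 _ r hq0]
    refine av_sqn_ge h1 hq0 hq ?_ r hr
    push_cast
    exact (z3_cop hp h3).pow_right
  | zero => intro hq0; exact absurd hq0 (by decide)
  | one =>
    intro _ _ _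
    unfold av sqn
    simp
  | coprime a b ha hb hab iha ihb =>
    intro _ hq hr
    have hr' : IsCoprime r ((a : ℤ) * (b : ℤ)) := by exact_mod_cast hr
    have h1 := iha (by omega) (fun p hp hpa => hq p hp (hpa.mul_right b))
      (IsCoprime.of_mul_right_left hr')
    have h2 := ihb (by omega) (fun p hp hpb => hq p hp (hpb.mul_left a))
      (IsCoprime.of_mul_right_right hr')
    have h3 : av (a * b) (sqn A B C (a * b) r) = av a (sqn A B C a r) * av b (sqn A B C b r) := by
      rw [← av_mul (by omega) (by omega) hab (per_sqn A B C a r) (per_sqn A B C b r)]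
      congr 1
      funext s t
      exact z7_mul A B C hab r s t
    rw [h3, Nat.totient_mul hab]
    have ha0 : (0:ℝ) < (a : ℝ) := by exact_mod_cast (by omega : 0 < a)
    have hb0 : (0:ℝ) < (b : ℝ) := by exact_mod_cast (by omega : 0 < b)
    have h4 : ((a.totient * b.totient : ℕ) : ℝ) / ((a * b : ℕ) : ℝ) ^ 2 =
        ((a.totient : ℝ) / (a : ℝ) ^ 2) * ((b.totient : ℝ) / (b : ℝ) ^ 2) := by
      push_cast
      field_simp
    rw [h4]
    exact mul_le_mul h1 h2 (by positivity) (le_trans (by positivity) h1)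

end Pool.Agent.AQM
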