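import Pool.Agent.Lib_helper15.AQ.Z4
import Pool.Agent.Lib_helper15.AQ.Z5
import Pool.Agent.Lib_helper15.AQ.Z6
import Pool.Agent.Lib_helper15.AQ.Z7
import Pool.Agent.Lib_helper8.PENT.ZMain

/-!
# AQ (MP_892e4c_nt): the lower bound in progressions, the family of pairs (helper15)
-/

set_option autoImplicit false

namespace Pool.Agent.AQM

open Finset Pool.Agent.PENT

/-- counting in a rectangle `(A1, B1] × (0, T]` -/
theorem box_rect {m : ℕ} (hm : 0 < m) {h : ℤ → ℤ → ℝ} (hh : Per m h)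
    (h01 : ∀ s t, 0 ≤ h s t ∧ h s t ≤ 1) (A1 B1 T : ℤ) (hAB : A1 ≤ B1) (hT : 0 ≤ T) {Λ : ℝ}
    (h1 : ((B1 - A1 : ℤ) : ℝ) ≤ Λ) (h2 : (T : ℝ) ≤ Λ) :
    |∑ z ∈ Finset.Ioc A1 B1 ×ˢ Finset.Ioc 0 T, h z.1 z.2 -
        ((B1 - A1 : ℤ) : ℝ) * (T : ℝ) * av m h| ≤ 2 * m * Λ + (m : ℝ) ^ 2 := by
  have h3 := box_av hm hh h01 A1 B1 0 T hAB hT
  rw [Finset.sum_product]
  have hm' : (0 : ℝ) ≤ m := Nat.cast_nonneg _
  have e : ((T - 0 : ℤ) : ℝ) = (T : ℝ) := by push_cast; ring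
  rw [e] at h3
  refine h3.trans ?_
  have h4 : (m : ℝ) * (((B1 - A1 : ℤ) : ℝ) + (T : ℝ)) ≤ m * (Λ + Λ) :=
    mul_le_mul_of_nonneg_left (by linarith) hm'
  linarith

/-- the data of a form and a class -/
structure FD (D : ℤ) (a0 : ℕ) (A B C : ℤ) : Prop where
  disc : A * C - B ^ 2 = D
  ns : ¬ IsSquare (-D)
  a1 : 1 < a0
  dv : ∀ p : ℕ, p.Prime → (p : ℤ) ∣ 2 * D → p ∣ a0
  cop : IsCoprime A (a0 : ℤ)
  pos : 0 < A

section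

variable {D A B C : ℤ} {a0 : ℕ}

theorem FD.ne2 (h : FD D a0 A B C) {p : ℕ} (hp : p.Prime) (hpa : ¬ p ∣ a0) :
    p ≠ 2 ∧ ¬ (p : ℤ) ∣ D := by
  constructor
  · rintro rfl
    exact hpa (h.dv 2 Nat.prime_two (dvd_mul_right _ _))
  · intro hd
    exact hpa (h.dv p hp (hd.mul_left 2))

/-- the values in the class are prime to `a0` -/
theorem FD.val (h : FD D a0 A B C) {s t : ℤ} (hs : (a0 : ℤ) ∣ s - 1) (ht : (a0 : ℤ) ∣ t) :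
    (a0 : ℤ) ∣ Nf A B C s t - A := by
  have e : Nf A B C s t - A = (s - 1) * (A * (s + 1)) + t * (2 * B * s + C * t) := by
    unfold Nf; ring
  rw [e]
  exact dvd_add (hs.mul_right _) (ht.mul_right _)

end

/-- the pairs in the box in the class, `N = r` modulo `q` -/
noncomputable def famN (A B C : ℤ) (a0 : ℕ) (A1 B1 T : ℤ) (q : ℕ) (r : ℤ) : Finset (ℤ × ℤ) :=
  (Finset.Ioc A1 B1 ×ˢ Finset.Ioc 0 T).filter (fun z => ((a0 : ℤ) ∣ z.1 - 1 ∧ (a0 : ℤ) ∣ z.2) ∧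
    (q : ℤ) ∣ Nf A B C z.1 z.2 - r)

/-- the value -/
def nrmN (A B C : ℤ) (z : ℤ × ℤ) : ℕ := (Nf A B C z.1 z.2).toNat

/-- the sieving weights -/
noncomputable def xpN (A B C : ℤ) (P α : ℝ) (p : ℕ) (s t : ℤ) : ℝ := wp P α p * sqn A B C p 0 s t

theorem xpN_01 (A B C : ℤ) (P α : ℝ) (hα : 0 < α) (hα1 : α ≤ 1) (p : ℕ) (s t : ℤ) :
    0 ≤ xpN A B C P α p s t ∧ xpN A B C P α p s t ≤ 1 := by
  unfold xpN
  obtain ⟨h1, h2⟩ := wp_01 P α hα hα1 p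
  obtain ⟨h3, h4⟩ := sqn_01 A B C p 0 s t
  exact ⟨mul_nonneg h1 h3, mul_le_one₀ h2 h3 h4⟩

theorem per_xpN (A B C : ℤ) (P α : ℝ) (p : ℕ) : Per p (xpN A B C P α p) := by
  intro s t s' t' hs ht
  unfold xpN
  rw [per_sqn A B C p 0 s t s' t' hs ht]

theorem sum_famN (A B C : ℤ) (a0 : ℕ) (A1 B1 T : ℤ) (q : ℕ) (r : ℤ) (h : ℤ → ℤ → ℝ) :
    ∑ z ∈ famN A B C a0 A1 B1 T q r, h z.1 z.2 =
      ∑ z ∈ Finset.Ioc A1 B1 ×ˢ Finset.Ioc 0 T, cq A B C a0 q r z.1 z.2 * h z.1 z.2 := by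
  unfold famN cq cls sqn
  rw [Finset.sum_filter]
  apply Finset.sum_congr rfl
  intro z _
  by_cases h1 : (a0 : ℤ) ∣ z.1 - 1 ∧ (a0 : ℤ) ∣ z.2
  · by_cases h2 : (q : ℤ) ∣ Nf A B C z.1 z.2 - r
    · rw [if_pos ⟨h1, h2⟩, if_pos h1, if_pos h2]; ring
    · rw [if_neg (fun h => h2 h.2), if_neg h2]; ring
  · rw [if_neg (fun h => h1 h.1), if_neg h1]; ring

/-- the main term -/
noncomputable def XN (A B C : ℤ) (a0 : ℕ) (A1 B1 T : ℤ) (q : ℕ) (r : ℤ) : ℝ :=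
  ((B1 - A1 : ℤ) : ℝ) * (T : ℝ) * av (a0 * q) (cq A B C a0 q r)

theorem XN_nonneg (A B C : ℤ) (a0 : ℕ) {A1 B1 T : ℤ} (hAB : A1 ≤ B1) (hT : 0 ≤ T) (q : ℕ) (r : ℤ) :
    0 ≤ XN A B C a0 A1 B1 T q r := by
  have h1 : (0 : ℝ) ≤ ((B1 - A1 : ℤ) : ℝ) := by exact_mod_cast (by omega : 0 ≤ B1 - A1)
  have h2 : (0 : ℝ) ≤ (T : ℝ) := by exact_mod_cast hT
  exact mul_nonneg (mul_nonneg h1 h2) (av_nonneg _ _ fun s t => (cq_01 A B C a0 q r s t).1)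

section

variable {D A B C : ℤ} {a0 : ℕ}

/-- the hypothesis of the sieve -/
theorem famN_sieve (h : FD D a0 A B C) (P α : ℝ) (hα : 0 < α) (hα1 : α ≤ 1) {A1 B1 T0 : ℤ}
    (hAB : A1 ≤ B1) (hT0 : 0 ≤ T0) {Λ : ℝ} (h1 : ((B1 - A1 : ℤ) : ℝ) ≤ Λ) (h2 : (T0 : ℝ) ≤ Λ)
    {q : ℕ} (hq : 0 < q) (r : ℤ) (T : Finset ℕ)
    (hT : ∀ p ∈ T, p.Prime ∧ ¬ p ∣ q ∧ ¬ p ∣ a0) :
    |∑ z ∈ famN A B C a0 A1 B1 T0 q r, ∏ p ∈ T, xpN A B C P α p z.1 z.2 -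
        XN A B C a0 A1 B1 T0 q r * ∏ p ∈ T, av p (xpN A B C P α p)| ≤
      2 * ((a0 * q * ∏ p ∈ T, p : ℕ) : ℝ) * Λ + ((a0 * q * ∏ p ∈ T, p : ℕ) : ℝ) ^ 2 := by
  have ha : 0 < a0 := by have := h.a1; omega
  have haq : 0 < a0 * q := Nat.mul_pos ha hq
  obtain ⟨e1, e2⟩ := av_prod haq (per_cq A B C a0 q r) T (fun p => p)
    (fun p => xpN A B C P α p)
    (fun p hp => (hT p hp).1.pos)
    (fun p hp => Nat.Coprime.mul_left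
      ((hT p hp).1.coprime_iff_not_dvd.2 (hT p hp).2.2).symm
      ((hT p hp).1.coprime_iff_not_dvd.2 (hT p hp).2.1).symm)
    (fun p hp p' hp' hne => (Nat.coprime_primes (hT p hp).1 (hT p' hp').1).2 hne)
    (fun p _ => per_xpN A B C P α p)
  have hpos : 0 < a0 * q * ∏ p ∈ T, p :=
    Nat.mul_pos haq (Finset.prod_pos fun p hp => (hT p hp).1.pos)
  have h3 := box_rect hpos e1 (fun s t => by
    obtain ⟨f1, f2⟩ := cq_01 A B C a0 q r s t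
    have e3 : 0 ≤ ∏ p ∈ T, xpN A B C P α p s t :=
      Finset.prod_nonneg fun p _ => (xpN_01 A B C P α hα hα1 p s t).1
    have e4 : ∏ p ∈ T, xpN A B C P α p s t ≤ 1 :=
      Finset.prod_le_one (fun p _ => (xpN_01 A B C P α hα hα1 p s t).1)
        fun p _ => (xpN_01 A B C P α hα hα1 p s t).2
    exact ⟨mul_nonneg f1 e3, mul_le_one₀ f2 e3 e4⟩) A1 B1 T0 hAB hT0 h1 h2
  rw [e2] at h3
  rw [sum_famN A B C a0 A1 B1 T0 q r (fun s t => ∏ p ∈ T, xpN A B C P α p s t)]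
  unfold XN
  rw [show ((B1 - A1 : ℤ) : ℝ) * (T0 : ℝ) * av (a0 * q) (cq A B C a0 q r) *
      ∏ p ∈ T, av p (xpN A B C P α p) =
    ((B1 - A1 : ℤ) : ℝ) * (T0 : ℝ) * (av (a0 * q) (cq A B C a0 q r) *
      ∏ p ∈ T, av p (xpN A B C P α p)) by ring]
  exact h3

/-- one more condition modulo `M` prime to `a0 q` -/
theorem famN_cond (h : FD D a0 A B C) {A1 B1 T0 : ℤ} (hAB : A1 ≤ B1) (hT0 : 0 ≤ T0) {Λ : ℝ}
    (h1 : ((B1 - A1 : ℤ) : ℝ) ≤ Λ) (h2 : (T0 : ℝ) ≤ Λ) {q M : ℕ} (hq : 0 < q) (hM : 0 < M)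
    (hqM : Nat.Coprime (a0 * q) M) (r ρ : ℤ) :
    ∑ z ∈ famN A B C a0 A1 B1 T0 q r, sqn A B C M ρ z.1 z.2 ≤
      XN A B C a0 A1 B1 T0 q r * av M (sqn A B C M ρ) +
      (2 * ((a0 * q * M : ℕ) : ℝ) * Λ + ((a0 * q * M : ℕ) : ℝ) ^ 2) := by
  have ha : 0 < a0 := by have := h.a1; omega
  have haq : 0 < a0 * q := Nat.mul_pos ha hq
  have e2 := av_mul haq hM hqM (per_cq A B C a0 q r) (per_sqn A B C M ρ)
  have hper : Per (a0 * q * M) (fun s t => cq A B C a0 q r s t * sqn A B C M ρ s t) :=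
    zb_per_mul (per_cq A B C a0 q r) (per_sqn A B C M ρ)
  have h3 := box_rect (Nat.mul_pos haq hM) hper (fun s t => by
    obtain ⟨e1, e2⟩ := cq_01 A B C a0 q r s t
    obtain ⟨e3, e4⟩ := sqn_01 A B C M ρ s t
    exact ⟨mul_nonneg e1 e3, mul_le_one₀ e2 e3 e4⟩) A1 B1 T0 hAB hT0 h1 h2
  rw [e2] at h3
  rw [sum_famN A B C a0 A1 B1 T0 q r (fun s t => sqn A B C M ρ s t)]
  have h4 := (abs_le.1 h3).2
  unfold XN
  linarith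

end

/-! ### from pairs to integers -/

open Classical in
/-- the weight of one pair -/
noncomputable def gwN (D : ℤ) (a0 : ℕ) (P α : ℝ) (N : ℕ) : ℝ :=
  if DPq D a0 P N then α ^ N.primeFactors.card else 0

theorem gwN_nonneg (D : ℤ) (a0 : ℕ) (P α : ℝ) (hα : 0 < α) (N : ℕ) : 0 ≤ gwN D a0 P α N := by
  unfold gwN
  split_ifs
  · positivity
  · exact le_rfl

/-- the conditions on the box: the values are in `(Δ, (1 + θ) Δ]`, determinants `< Δ` -/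
structure BxC (A B C : ℤ) (θ Δ : ℝ) (A1 B1 T0 : ℤ) : Prop where
  a : 0 ≤ A1
  lo : ∀ s ∈ Finset.Ioc A1 B1, ∀ t ∈ Finset.Ioc 0 T0, Δ < ((Nf A B C s t : ℤ) : ℝ)
  hi : ∀ s ∈ Finset.Ioc A1 B1, ∀ t ∈ Finset.Ioc 0 T0, ((Nf A B C s t : ℤ) : ℝ) ≤ (1 + θ) * Δ
  dt : (B1 : ℝ) * (T0 : ℝ) ≤ Δ

theorem nrmN_cast {A B C : ℤ} {θ Δ : ℝ} {A1 B1 T0 : ℤ} (hb : BxC A B C θ Δ A1 B1 T0) (hΔ : 0 ≤ Δ)
    {z : ℤ × ℤ} (h1 : z.1 ∈ Finset.Ioc A1 B1) (h2 : z.2 ∈ Finset.Ioc 0 T0) :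
    (nrmN A B C z : ℤ) = Nf A B C z.1 z.2 ∧ 0 < nrmN A B C z := by
  have h3 := hb.lo _ h1 _ h2
  have h4 : (0 : ℝ) < ((Nf A B C z.1 z.2 : ℤ) : ℝ) := by linarith
  have h5 : 0 < Nf A B C z.1 z.2 := by exact_mod_cast h4
  unfold nrmN
  constructor
  · exact Int.toNat_of_nonneg h5.le
  · omega

section

variable {D A B C : ℤ} {a0 : ℕ}

open Classical in
theorem rep_sumN (h : FD D a0 A B C) (P α θ Δ : ℝ) (hα : 0 < α) (hΔ : 0 < Δ)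
    (hPA : ∀ p : ℕ, p.Prime → P < (p : ℝ) → ¬ (p : ℤ) ∣ A) (q : ℕ) (r : ℤ)
    (F : Finset (ℕ × ℤ)) {A1 B1 T0 : ℤ} (hb : BxC A B C θ Δ A1 B1 T0) :
    ∑ z ∈ (famN A B C a0 A1 B1 T0 q r).filter
        (fun z : ℤ × ℤ => ∀ a ∈ F, ¬ (a.1 : ℤ) ∣ Nf A B C z.1 z.2 - a.2),
        gwN D a0 P α (nrmN A B C z) ≤
      ∑ d ∈ (Finset.Icc 1 ⌊(1 + θ) * Δ⌋₊).filter (fun d : ℕ => Δ < (d : ℝ) ∧
        (q : ℤ) ∣ (d : ℤ) - r ∧ (a0 : ℤ) ∣ (d : ℤ) - A ∧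
        ∀ a ∈ F, ¬ (a.1 : ℤ) ∣ (d : ℤ) - a.2), fwq D a0 P α d := by
  set O := (famN A B C a0 A1 B1 T0 q r).filter
        (fun z : ℤ × ℤ => ∀ a ∈ F, ¬ (a.1 : ℤ) ∣ Nf A B C z.1 z.2 - a.2) with hO
  set I := (Finset.Icc 1 ⌊(1 + θ) * Δ⌋₊).filter (fun d : ℕ => Δ < (d : ℝ) ∧
        (q : ℤ) ∣ (d : ℤ) - r ∧ (a0 : ℤ) ∣ (d : ℤ) - A ∧
        ∀ a ∈ F, ¬ (a.1 : ℤ) ∣ (d : ℤ) - a.2) with hI
  have hmem : ∀ z ∈ O, z.1 ∈ Finset.Ioc A1 B1 ∧ z.2 ∈ Finset.Ioc 0 T0 ∧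
      ((a0 : ℤ) ∣ z.1 - 1 ∧ (a0 : ℤ) ∣ z.2) ∧
      (q : ℤ) ∣ Nf A B C z.1 z.2 - r ∧ ∀ a ∈ F, ¬ (a.1 : ℤ) ∣ Nf A B C z.1 z.2 - a.2 := by
    intro z hz
    rw [hO, Finset.mem_filter] at hz
    obtain ⟨h1, h2⟩ := hz
    unfold famN at h1
    rw [Finset.mem_filter, Finset.mem_product] at h1
    exact ⟨h1.1.1, h1.1.2, h1.2.1, h1.2.2, h2⟩
  have hmaps : ∀ z ∈ O, nrmN A B C z ∈ I := by
    intro z hz
    obtain ⟨h1, h2, ⟨h3, h3'⟩, h4, h5⟩ := hmem z hz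
    obtain ⟨e, e0⟩ := nrmN_cast hb hΔ.le h1 h2
    have e' : ((nrmN A B C z : ℕ) : ℝ) = ((Nf A B C z.1 z.2 : ℤ) : ℝ) := by
      rw [← e]; push_cast; rfl
    rw [hI, Finset.mem_filter, Finset.mem_Icc]
    refine ⟨⟨e0, ?_⟩, ?_, ?_, ?_, ?_⟩
    · apply Nat.le_floor
      rw [e']
      exact hb.hi _ h1 _ h2
    · rw [e']
      exact hb.lo _ h1 _ h2
    · rw [e]
      exact h4
    · rw [e]
      exact h.val h3 h3'
    · rw [e]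
      exact h5
  rw [← Finset.sum_fiberwise_of_maps_to hmaps]
  apply Finset.sum_le_sum
  intro d hd
  have h1 : ∑ z ∈ O.filter (fun z => nrmN A B C z = d), gwN D a0 P α (nrmN A B C z) =
      ((O.filter (fun z => nrmN A B C z = d)).card : ℝ) * gwN D a0 P α d := by
    rw [← nsmul_eq_mul, ← Finset.sum_const]
    apply Finset.sum_congr rfl
    intro z hz
    rw [(Finset.mem_filter.1 hz).2]
  rw [h1]
  unfold gwN fwq
  have hdΔ : Δ < (d : ℝ) := by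
    rw [hI, Finset.mem_filter] at hd
    exact hd.2.1
  have hd0 : 0 < d := by
    rw [hI, Finset.mem_filter, Finset.mem_Icc] at hd
    omega
  by_cases hDP : DPq D a0 P d
  · rw [if_pos hDP, if_pos hDP, mul_pow]
    have h2 := card_repN_le h.disc d hDP.1 hd0 (fun p hp hpd => hPA p hp (hDP.2 p hp hpd).2)
      (O.filter (fun z => nrmN A B C z = d)) (fun z hz => by
        obtain ⟨h3, h4⟩ := Finset.mem_filter.1 hz
        obtain ⟨h5, h6, _, _, _⟩ := hmem z h3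
        have h7 := (Finset.mem_Ioc.1 h5).1
        have := hb.a
        refine ⟨by omega, ?_⟩
        rw [← (nrmN_cast hb hΔ.le h5 h6).1, h4])
      (fun z hz z' hz' => by
        obtain ⟨h3, _⟩ := Finset.mem_filter.1 hz
        obtain ⟨h3', _⟩ := Finset.mem_filter.1 hz'
        obtain ⟨h5, h6, _, _, _⟩ := hmem z h3
        obtain ⟨h5', h6', _, _, _⟩ := hmem z' h3'
        rw [Finset.mem_Ioc] at h5 h6 h5' h6'
        have hA0 := hb.a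
        have hB : (B1 * T0 : ℤ) < d := by
          have : ((B1 * T0 : ℤ) : ℝ) < (d : ℝ) := by
            push_cast
            exact lt_of_le_of_lt hb.dt hdΔ
          exact_mod_cast this
        rw [abs_lt]
        have f1 : z.1 * z'.2 ≤ B1 * T0 := mul_le_mul h5.2 h6'.2 (by omega) (by omega)
        have f2 : z'.1 * z.2 ≤ B1 * T0 := mul_le_mul h5'.2 h6.2 (by omega) (by omega)
        have f3 : 0 ≤ z.1 * z'.2 := mul_nonneg (by omega) (by omega)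
        have f4 : 0 ≤ z'.1 * z.2 := mul_nonneg (by omega) (by omega)
        constructor <;> linarith)
    have h3 : ((O.filter (fun z => nrmN A B C z = d)).card : ℝ) ≤ 2 ^ d.primeFactors.card := by
      exact_mod_cast h2
    exact mul_le_mul_of_nonneg_right h3 (by positivity)
  · rw [if_neg hDP, if_neg hDP, mul_zero]

open Classical in
/-- the primes of the sieve -/
noncomputable def sSN (D : ℤ) (a0 : ℕ) (P : ℝ) (Y q : ℕ) : Finset ℕ :=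
  (Finset.Icc 1 Y).filter (fun p => p.Prime ∧ ¬ p ∣ q ∧ ¬ p ∣ a0 ∧
    (P < (p : ℝ) → IsSquare ((-D : ℤ) : ZMod p)))

theorem mem_sSN (D : ℤ) (a0 : ℕ) (P : ℝ) (Y q p : ℕ) :
    p ∈ sSN D a0 P Y q ↔ p.Prime ∧ (p : ℝ) ≤ (Y : ℝ) ∧ ¬ p ∣ q ∧ ¬ p ∣ a0 ∧
      (P < (p : ℝ) → IsSquare ((-D : ℤ) : ZMod p)) := by
  classical
  unfold sSN
  simp only [Finset.mem_filter, Finset.mem_Icc]
  constructor
  · rintro ⟨⟨_, h2⟩, h3, h4, h5, h6⟩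
    exact ⟨h3, by exact_mod_cast h2, h4, h5, h6⟩
  · rintro ⟨h1, h2, h3, h4, h5⟩
    exact ⟨⟨h1.one_lt.le, by exact_mod_cast h2⟩, h1, h3, h4, h5⟩

open Classical in
/-- the pointwise inequality -/
theorem pairN_ge (h : FD D a0 A B C) (P α : ℝ) (m : ℕ) (hP : 2 ≤ P) (hα : 0 < α) (hα1 : α ≤ 1)
    (hPA : ∀ p : ℕ, p.Prime → P < (p : ℝ) → ¬ (p : ℤ) ∣ A) (Y Z : ℕ)
    (hPY : P ≤ Y) (q : ℕ) (r : ℤ) (hr : IsCoprime r (q : ℤ)) (F : Finset (ℕ × ℤ)) (z : ℤ × ℤ)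
    (hz : (q : ℤ) ∣ Nf A B C z.1 z.2 - r) (hza : (a0 : ℤ) ∣ Nf A B C z.1 z.2 - A)
    (hzc : (nrmN A B C z : ℤ) = Nf A B C z.1 z.2)
    (hz0 : 0 < nrmN A B C z) (hzY : (nrmN A B C z : ℝ) ≤ (Y : ℝ) ^ m)
    (hzZ : nrmN A B C z < (Z + 1) ^ 2) :
    α ^ m * ∏ p ∈ sSN D a0 P Y q, (1 - xpN A B C P α p z.1 z.2) -
        ∑ p ∈ sP P Z, sqn A B C (p ^ 2) 0 z.1 z.2 -
        ∑ a ∈ F, sqn A B C a.1 a.2 z.1 z.2 ≤
      if ∀ a ∈ F, ¬ (a.1 : ℤ) ∣ Nf A B C z.1 z.2 - a.2 then gwN D a0 P α (nrmN A B C z) else 0 := by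
  have hprod : α ^ m * ∏ p ∈ sSN D a0 P Y q, (1 - xpN A B C P α p z.1 z.2) ≤ 1 := by
    apply mul_le_one₀ (pow_le_one₀ hα.le hα1)
    · exact Finset.prod_nonneg fun p _ => by
        have := (xpN_01 A B C P α hα hα1 p z.1 z.2).2
        linarith
    · exact Finset.prod_le_one (fun p _ => by
        have := (xpN_01 A B C P α hα hα1 p z.1 z.2).2
        linarith) fun p _ => by
        have := (xpN_01 A B C P α hα hα1 p z.1 z.2).1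
        linarith
  have hs1 : 0 ≤ ∑ p ∈ sP P Z, sqn A B C (p ^ 2) 0 z.1 z.2 :=
    Finset.sum_nonneg fun p _ => (sqn_01 _ _ _ _ _ _ _).1
  have hs2 : 0 ≤ ∑ a ∈ F, sqn A B C a.1 a.2 z.1 z.2 :=
    Finset.sum_nonneg fun p _ => (sqn_01 _ _ _ _ _ _ _).1
  by_cases hF : ∀ a ∈ F, ¬ (a.1 : ℤ) ∣ Nf A B C z.1 z.2 - a.2
  · rw [if_pos hF]
    by_cases hsq : ∀ p : ℕ, p.Prime → P < (p : ℝ) → ¬ p ^ 2 ∣ nrmN A B C z
    · have hcop : ∀ (m : ℕ) (ρ : ℤ), (m : ℤ) ∣ Nf A B C z.1 z.2 - ρ → IsCoprime ρ (m : ℤ) →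
          Nat.Coprime (nrmN A B C z) m := by
        intro m ρ h1 h2
        rw [← Nat.isCoprime_iff_coprime, hzc]
        obtain ⟨k, hk⟩ := h1
        have : Nf A B C z.1 z.2 = ρ + (m : ℤ) * k := by linarith
        rw [this]
        exact h2.add_mul_left_left k
      have h1 := weightN_ge h.disc P Y α m hP hPY hα hα1 hPA q (nrmN A B C z) z.1 z.2 hzc hz0 hzY
        (hcop q r hz hr) (hcop a0 A hza h.cop) (sSN D a0 P Y q) (mem_sSN D a0 P Y q) hsq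
      have h2 : ∏ p ∈ sSN D a0 P Y q, (1 - xpN A B C P α p z.1 z.2) =
          ∏ p ∈ sSN D a0 P Y q, (1 - (if (p : ℝ) ≤ P then 1 else 1 - α) *
            (if p ∣ nrmN A B C z then 1 else 0)) := by
        apply Finset.prod_congr rfl
        intro p _
        unfold xpN wp sqn
        have h3 : ((p : ℤ) ∣ Nf A B C z.1 z.2 - 0) ↔ (p ∣ nrmN A B C z) := by
          rw [sub_zero, ← hzc]
          exact Int.natCast_dvd_natCast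
        simp only [h3]
      rw [← h2] at h1
      unfold gwN
      linarith
    · push Not at hsq
      obtain ⟨p, hp, hPp, hdvd⟩ := hsq
      have hpZ : p ≤ Z := by
        have h1 := Nat.le_of_dvd hz0 hdvd
        have h2 : p ^ 2 < (Z + 1) ^ 2 := h1.trans_lt hzZ
        have := lt_of_pow_lt_pow_left₀ 2 (Nat.zero_le _) h2
        omega
      have hpm : p ∈ sP P Z := (mem_sP P Z p).2 ⟨hp, hPp, hpZ⟩
      have h3 : (1 : ℝ) ≤ ∑ p ∈ sP P Z, sqn A B C (p ^ 2) 0 z.1 z.2 := by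
        have h4 : sqn A B C (p ^ 2) 0 z.1 z.2 = 1 := by
          unfold sqn
          rw [if_pos]
          rw [sub_zero, ← hzc]
          exact Int.natCast_dvd_natCast.2 hdvd
        rw [← h4]
        exact Finset.single_le_sum (f := fun p => sqn A B C (p ^ 2) 0 z.1 z.2)
          (fun p _ => (sqn_01 _ _ _ _ _ _ _).1) hpm
      have := gwN_nonneg D a0 P α hα (nrmN A B C z)
      linarith
  · rw [if_neg hF]
    push Not at hF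
    obtain ⟨a, ha, hdvd⟩ := hF
    have h3 : (1 : ℝ) ≤ ∑ a ∈ F, sqn A B C a.1 a.2 z.1 z.2 := by
      have h4 : sqn A B C a.1 a.2 z.1 z.2 = 1 := by
        unfold sqn
        rw [if_pos hdvd]
      rw [← h4]
      exact Finset.single_le_sum (f := fun a : ℕ × ℤ => sqn A B C a.1 a.2 z.1 z.2)
        (fun p _ => (sqn_01 _ _ _ _ _ _ _).1) ha
    linarith

open Classical in
/-- the inequality summed over the family -/
theorem famN_ge (h : FD D a0 A B C) (P α θ Δ : ℝ) (m : ℕ) (hP : 2 ≤ P) (hα : 0 < α)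
    (hα1 : α ≤ 1) (hΔ : 0 < Δ) (hPA : ∀ p : ℕ, p.Prime → P < (p : ℝ) → ¬ (p : ℤ) ∣ A) (Y Z : ℕ)
    (hPY : P ≤ Y) (q : ℕ) (r : ℤ) (hr : IsCoprime r (q : ℤ)) (F : Finset (ℕ × ℤ))
    {A1 B1 T0 : ℤ} (hb : BxC A B C θ Δ A1 B1 T0)
    (hDY : (1 + θ) * Δ ≤ (Y : ℝ) ^ m) (hDZ : (1 + θ) * Δ < ((Z : ℝ) + 1) ^ 2) :
    α ^ m * ∑ z ∈ famN A B C a0 A1 B1 T0 q r, ∏ p ∈ sSN D a0 P Y q,
          (1 - xpN A B C P α p z.1 z.2) -
        ∑ p ∈ sP P Z, ∑ z ∈ famN A B C a0 A1 B1 T0 q r, sqn A B C (p ^ 2) 0 z.1 z.2 -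
        ∑ a ∈ F, ∑ z ∈ famN A B C a0 A1 B1 T0 q r, sqn A B C a.1 a.2 z.1 z.2 ≤
      ∑ d ∈ (Finset.Icc 1 ⌊(1 + θ) * Δ⌋₊).filter (fun d : ℕ => Δ < (d : ℝ) ∧
        (q : ℤ) ∣ (d : ℤ) - r ∧ (a0 : ℤ) ∣ (d : ℤ) - A ∧
        ∀ a ∈ F, ¬ (a.1 : ℤ) ∣ (d : ℤ) - a.2), fwq D a0 P α d := by
  refine le_trans ?_ (rep_sumN h P α θ Δ hα hΔ hPA q r F hb)
  rw [Finset.sum_comm, Finset.sum_comm (s := F), Finset.mul_sum, ← Finset.sum_sub_distrib,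
    ← Finset.sum_sub_distrib, Finset.sum_filter]
  apply Finset.sum_le_sum
  intro z hz
  unfold famN at hz
  rw [Finset.mem_filter, Finset.mem_product] at hz
  obtain ⟨⟨h1, h2⟩, ⟨h3, h3'⟩, h4⟩ := hz
  obtain ⟨e, e0⟩ := nrmN_cast hb hΔ.le h1 h2
  have e' : ((nrmN A B C z : ℕ) : ℝ) = ((Nf A B C z.1 z.2 : ℤ) : ℝ) := by
    rw [← e]; push_cast; rfl
  have hzD : (nrmN A B C z : ℝ) ≤ (1 + θ) * Δ := by
    rw [e']
    exact hb.hi _ h1 _ h2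
  refine pairN_ge h P α m hP hα hα1 hPA Y Z hPY q r hr F z h4 (h.val h3 h3') e e0
    (hzD.trans hDY) ?_
  have : ((nrmN A B C z : ℕ) : ℝ) < ((Z : ℝ) + 1) ^ 2 := lt_of_le_of_lt hzD hDZ
  exact_mod_cast this

end

end Pool.Agent.AQM
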