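import Pool.Agent.Lib_helper15.AQ.Z8
import Pool.Agent.Lib_helper35.Var.Elem

/-!
# AQ (MP_892e4c_nt): the lower bound in progressions, errors (helper15)
-/

set_option autoImplicit false

namespace Pool.Agent.AQM

open Finset Pool.Agent.PENT

variable {D A B C : ℤ} {a0 : ℕ}

theorem sqn_nonneg' (A B C : ℤ) (m : ℕ) (r s t : ℤ) : 0 ≤ sqn A B C m r s t :=
  (sqn_01 A B C m r s t).1

/-- the error from the squares of primes `> P` -/
theorem errN_sq (h : FD D a0 A B C) {k : ℤ} (hk : |A| + 2 * |B| + |C| ≤ k) (hk1 : 1 ≤ k)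
    {A1 B1 T0 : ℤ} (hA1 : 0 ≤ A1) (hAB : A1 ≤ B1) (hT0 : 0 ≤ T0) {l : ℤ} (hl : 1 ≤ l)
    (hBl : B1 ≤ l) (hTl : T0 ≤ l) {q : ℕ} (hq : 0 < q) (r : ℤ)
    (hr : IsCoprime r (q : ℤ)) (P V : ℝ) (hP : 0 < P) (hV : 1 ≤ V) {Z : ℕ}
    (hZ : (Z : ℤ) ≤ k * l) (hPA : ∀ p : ℕ, p.Prime → P < (p : ℝ) → ¬ (p : ℤ) ∣ A)
    (hPa : (a0 : ℝ) ≤ P) :
    ∑ p ∈ sP P Z, ∑ z ∈ famN A B C a0 A1 B1 T0 q r, sqn A B C (p ^ 2) 0 z.1 z.2 ≤
      6 * XN A B C a0 A1 B1 T0 q r / P +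
        V * (2 * (a0 * q * V ^ 2) * (l : ℝ) + (a0 * q * V ^ 2) ^ 2) +
        24 * (k : ℝ) ^ 2 * (l : ℝ) ^ 2 / V := by
  classical
  have hX := XN_nonneg A B C a0 hAB hT0 q r
  have hq' : (0 : ℝ) < q := by exact_mod_cast hq
  have ha : 0 < a0 := by have := h.a1; omega
  have ha' : (0 : ℝ) < a0 := by exact_mod_cast ha
  have hl' : (1 : ℝ) ≤ l := by exact_mod_cast hl
  have hL1 : ((B1 - A1 : ℤ) : ℝ) ≤ (l : ℝ) := by exact_mod_cast (by omega : B1 - A1 ≤ l)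
  have hL2 : ((T0 : ℤ) : ℝ) ≤ (l : ℝ) := by exact_mod_cast hTl
  have hpa : ∀ p : ℕ, p.Prime → P < (p : ℝ) → ¬ p ∣ a0 := by
    intro p hp hPp hd
    have h1 : (p : ℝ) ≤ a0 := by exact_mod_cast Nat.le_of_dvd ha hd
    linarith
  set E := 2 * (a0 * q * V ^ 2) * (l : ℝ) + (a0 * q * V ^ 2) ^ 2 with hE
  have hE0 : 0 ≤ E := by positivity
  have hsmall : ∀ p ∈ (sP P Z).filter (fun p : ℕ => (p : ℝ) ≤ V),
      ∑ z ∈ famN A B C a0 A1 B1 T0 q r, sqn A B C (p ^ 2) 0 z.1 z.2 ≤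
        3 * XN A B C a0 A1 B1 T0 q r * (1 / (p : ℝ) ^ 2) + E := by
    intro p hp
    obtain ⟨h1, h2⟩ := Finset.mem_filter.1 hp
    obtain ⟨h3, h4, h5⟩ := (mem_sP P Z p).1 h1
    by_cases hpq : p ∣ q
    · have h6 : ∑ z ∈ famN A B C a0 A1 B1 T0 q r, sqn A B C (p ^ 2) 0 z.1 z.2 = 0 := by
        apply Finset.sum_eq_zero
        intro z hz
        unfold famN at hz
        rw [Finset.mem_filter] at hz
        unfold sqn
        rw [if_neg]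
        intro h7
        rw [sub_zero] at h7
        have h8 : (p : ℤ) ∣ Nf A B C z.1 z.2 := by
          refine dvd_trans ?_ h7
          push_cast
          exact dvd_pow_self _ (by norm_num)
        have h9 : (p : ℤ) ∣ (q : ℤ) := Int.natCast_dvd_natCast.2 hpq
        have h10 : (p : ℤ) ∣ r := by
          have := (dvd_sub h8 (h9.trans hz.2.2))
          have e : Nf A B C z.1 z.2 - (Nf A B C z.1 z.2 - r) = r := by ring
          rwa [e] at this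
        have h11 := hr.isUnit_of_dvd' h10 h9
        rw [Int.isUnit_iff] at h11
        have := h3.one_lt
        omega
      rw [h6]
      positivity
    · obtain ⟨hp2, hpD⟩ := h.ne2 h3 (hpa p h3 h4)
      have hcop : Nat.Coprime (a0 * q) (p ^ 2) := by
        apply Nat.Coprime.pow_right 2
        exact Nat.Coprime.mul_left ((h3.coprime_iff_not_dvd.2 (hpa p h3 h4)).symm)
          ((h3.coprime_iff_not_dvd.2 hpq).symm)
      have h6 := famN_cond h hAB hT0 hL1 hL2 hq (Nat.pow_pos h3.pos) hcop r 0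
      have h7 := av_sqn_sq h.disc h3 hp2 hpD (hPA p h3 h4)
      have hp0 : (0 : ℝ) < p := by exact_mod_cast h3.pos
      have h8 : XN A B C a0 A1 B1 T0 q r * av (p ^ 2) (sqn A B C (p ^ 2) 0) ≤
          3 * XN A B C a0 A1 B1 T0 q r * (1 / (p : ℝ) ^ 2) := by
        have h9 := mul_le_mul_of_nonneg_left h7 hX
        calc _ ≤ _ := h9
          _ = _ := by ring
      have h10 : ((a0 * q * p ^ 2 : ℕ) : ℝ) ≤ a0 * q * V ^ 2 := by
        push_cast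
        gcongr
      have h11 : 2 * ((a0 * q * p ^ 2 : ℕ) : ℝ) * (l : ℝ) + ((a0 * q * p ^ 2 : ℕ) : ℝ) ^ 2 ≤ E := by
        rw [hE]
        gcongr
      linarith
  have hlarge : ∀ p ∈ (sP P Z).filter (fun p : ℕ => ¬ (p : ℝ) ≤ V),
      ∑ z ∈ famN A B C a0 A1 B1 T0 q r, sqn A B C (p ^ 2) 0 z.1 z.2 ≤
        12 * (k : ℝ) ^ 2 * (l : ℝ) ^ 2 * (1 / (p : ℝ) ^ 2) := by
    intro p hp
    obtain ⟨h1, h2⟩ := Finset.mem_filter.1 hp
    obtain ⟨h3, h4, h5⟩ := (mem_sP P Z p).1 h1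
    have hp2' : (p : ℤ) ≤ k * l := le_trans (by exact_mod_cast h5) hZ
    obtain ⟨hp2, hpD⟩ := h.ne2 h3 (hpa p h3 h4)
    have h6 := card_sqN_large h.disc h.ns hk hk1 h3 hp2 hpD (hPA p h3 h4) hl hp2'
    have h7 : ∑ z ∈ famN A B C a0 A1 B1 T0 q r, sqn A B C (p ^ 2) 0 z.1 z.2 ≤
        ((((Finset.Icc 1 l) ×ˢ (Finset.Icc 1 l)).filter
        (fun z : ℤ × ℤ => ((p : ℤ) ^ 2) ∣ Nf A B C z.1 z.2)).card : ℝ) := by
      rw [Finset.card_eq_sum_ones, Finset.sum_filter]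
      push_cast
      have h8 : famN A B C a0 A1 B1 T0 q r ⊆ (Finset.Icc 1 l) ×ˢ (Finset.Icc 1 l) := by
        intro z hz
        unfold famN at hz
        rw [Finset.mem_filter, Finset.mem_product, Finset.mem_Ioc, Finset.mem_Ioc] at hz
        rw [Finset.mem_product, Finset.mem_Icc, Finset.mem_Icc]
        omega
      calc ∑ z ∈ famN A B C a0 A1 B1 T0 q r, sqn A B C (p ^ 2) 0 z.1 z.2 ≤
            ∑ z ∈ (Finset.Icc 1 l) ×ˢ (Finset.Icc 1 l), sqn A B C (p ^ 2) 0 z.1 z.2 :=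
            Finset.sum_le_sum_of_subset_of_nonneg h8 fun z _ _ => (sqn_nonneg' _ _ _ _ _ _ _)
        _ ≤ _ := by
            apply Finset.sum_le_sum
            intro z _
            unfold sqn
            rw [sub_zero]
            push_cast
            exact le_rfl
    calc _ ≤ _ := h7.trans h6
      _ = _ := by ring
  rw [← Finset.sum_filter_add_sum_filter_not (sP P Z) (fun p : ℕ => (p : ℝ) ≤ V)]
  have hPsum : ∑ p ∈ (sP P Z).filter (fun p : ℕ => (p : ℝ) ≤ V), 1 / (p : ℝ) ^ 2 ≤ 2 / P :=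
    sum_inv_sq_le _ P hP fun p hp => ((mem_sP P Z p).1 (Finset.mem_filter.1 hp).1).2.1
  have hVsum : ∑ p ∈ (sP P Z).filter (fun p : ℕ => ¬ (p : ℝ) ≤ V), 1 / (p : ℝ) ^ 2 ≤ 2 / V :=
    sum_inv_sq_le _ V (by linarith) fun p hp => not_le.1 (Finset.mem_filter.1 hp).2
  have hcard : (((sP P Z).filter (fun p : ℕ => (p : ℝ) ≤ V)).card : ℝ) ≤ V := by
    have h1 : (sP P Z).filter (fun p : ℕ => (p : ℝ) ≤ V) ⊆ Finset.Icc 1 ⌊V⌋₊ := by
      intro p hp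
      obtain ⟨h1, h2⟩ := Finset.mem_filter.1 hp
      obtain ⟨h3, h4, h5⟩ := (mem_sP P Z p).1 h1
      exact Finset.mem_Icc.2 ⟨h3.one_lt.le, Nat.le_floor h2⟩
    have h2 := Finset.card_le_card h1
    rw [Nat.card_Icc, Nat.add_sub_cancel] at h2
    calc _ ≤ ((⌊V⌋₊ : ℕ) : ℝ) := by exact_mod_cast h2
      _ ≤ V := Nat.floor_le (by linarith)
  have s1 := Finset.sum_le_sum hsmall
  have s2 := Finset.sum_le_sum hlarge
  rw [Finset.sum_add_distrib, ← Finset.mul_sum, Finset.sum_const, nsmul_eq_mul] at s1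
  rw [← Finset.mul_sum] at s2
  have e1 : 3 * XN A B C a0 A1 B1 T0 q r *
      ∑ p ∈ (sP P Z).filter (fun p : ℕ => (p : ℝ) ≤ V), 1 / (p : ℝ) ^ 2 ≤
      6 * XN A B C a0 A1 B1 T0 q r / P := by
    calc _ ≤ 3 * XN A B C a0 A1 B1 T0 q r * (2 / P) :=
          mul_le_mul_of_nonneg_left hPsum (by positivity)
      _ = _ := by ring
  have e2 := mul_le_mul_of_nonneg_right hcard hE0
  have e3 : 12 * (k : ℝ) ^ 2 * (l : ℝ) ^ 2 *
      ∑ p ∈ (sP P Z).filter (fun p : ℕ => ¬ (p : ℝ) ≤ V),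
      1 / (p : ℝ) ^ 2 ≤ 24 * (k : ℝ) ^ 2 * (l : ℝ) ^ 2 / V := by
    calc _ ≤ 12 * (k : ℝ) ^ 2 * (l : ℝ) ^ 2 * (2 / V) :=
          mul_le_mul_of_nonneg_left hVsum (by positivity)
      _ = _ := by ring
  linarith

/-- the error from the excluded residue classes -/
theorem errN_F (h : FD D a0 A B C) {A1 B1 T0 : ℤ} (hAB : A1 ≤ B1) (hT0 : 0 ≤ T0) {l : ℤ}
    (hl : 1 ≤ l) (hBl : B1 - A1 ≤ l) (hTl : T0 ≤ l) {q : ℕ} (hq : 0 < q) (r : ℤ)
    (P V : ℝ) (hP : 0 < P) (hV : 1 ≤ V)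
    (hPA : ∀ p : ℕ, p.Prime → P < (p : ℝ) → ¬ (p : ℤ) ∣ A) (hPa : (a0 : ℝ) ≤ P)
    (F : Finset (ℕ × ℤ)) (hF : ∀ a ∈ F, a.1.Prime ∧ P < (a.1 : ℝ) ∧ ¬ a.1 ∣ q) :
    ∑ a ∈ F, ∑ z ∈ famN A B C a0 A1 B1 T0 q r, sqn A B C a.1 a.2 z.1 z.2 ≤
      (F.card : ℝ) * (2 * XN A B C a0 A1 B1 T0 q r / P +
        (2 * (a0 * q * V ^ 2) * (l : ℝ) + (a0 * q * V ^ 2) ^ 2) +
        2 * (l : ℝ) * ((l : ℝ) / V + 1)) := by
  have hX := XN_nonneg A B C a0 hAB hT0 q r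
  have hq' : (0 : ℝ) < q := by exact_mod_cast hq
  have ha : 0 < a0 := by have := h.a1; omega
  have ha' : (0 : ℝ) < a0 := by exact_mod_cast ha
  have hl' : (1 : ℝ) ≤ l := by exact_mod_cast hl
  have hL1 : ((B1 - A1 : ℤ) : ℝ) ≤ (l : ℝ) := by exact_mod_cast hBl
  have hL2 : ((T0 : ℤ) : ℝ) ≤ (l : ℝ) := by exact_mod_cast hTl
  have hL0 : (0 : ℝ) ≤ ((B1 - A1 : ℤ) : ℝ) := by exact_mod_cast (by omega : 0 ≤ B1 - A1)
  have hT0' : (0 : ℝ) ≤ ((T0 - 0 : ℤ) : ℝ) := by exact_mod_cast (by omega : 0 ≤ T0 - 0)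
  have hpa : ∀ p : ℕ, p.Prime → P < (p : ℝ) → ¬ p ∣ a0 := by
    intro p hp hPp hd
    have h1 : (p : ℝ) ≤ a0 := by exact_mod_cast Nat.le_of_dvd ha hd
    linarith
  set E := 2 * (a0 * q * V ^ 2) * (l : ℝ) + (a0 * q * V ^ 2) ^ 2 with hE
  have hE0 : 0 ≤ E := by positivity
  have hV0 : 0 < V := by linarith
  have hG0 : 0 ≤ 2 * (l : ℝ) * ((l : ℝ) / V + 1) := by positivity
  rw [← nsmul_eq_mul]
  apply Finset.sum_le_card_nsmul
  intro a ha1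
  obtain ⟨h1, h2, h3⟩ := hF a ha1
  have hp0 : (0 : ℝ) < a.1 := by exact_mod_cast h1.pos
  by_cases hpV : (a.1 : ℝ) ≤ V
  · have hcop : Nat.Coprime (a0 * q) a.1 :=
      Nat.Coprime.mul_left ((h1.coprime_iff_not_dvd.2 (hpa _ h1 h2)).symm)
        ((h1.coprime_iff_not_dvd.2 h3).symm)
    have h6 := famN_cond h hAB hT0 hL1 hL2 hq h1.pos hcop r a.2
    have h7 := av_sqn_le h.disc h1 (hPA _ h1 h2) a.2
    have h8 : XN A B C a0 A1 B1 T0 q r * av a.1 (sqn A B C a.1 a.2) ≤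
        2 * XN A B C a0 A1 B1 T0 q r / P := by
      have h9 := mul_le_mul_of_nonneg_left h7 hX
      have h10 : XN A B C a0 A1 B1 T0 q r * (2 / (a.1 : ℝ)) ≤
          2 * XN A B C a0 A1 B1 T0 q r / P := by
        rw [mul_div_assoc', mul_comm (XN A B C a0 A1 B1 T0 q r) 2]
        apply div_le_div_of_nonneg_left (by positivity) hP h2.le
      linarith
    have h10 : ((a0 * q * a.1 : ℕ) : ℝ) ≤ a0 * q * V ^ 2 := by
      push_cast
      apply mul_le_mul_of_nonneg_left _ (by positivity)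
      nlinarith
    have h11 : 2 * ((a0 * q * a.1 : ℕ) : ℝ) * (l : ℝ) + ((a0 * q * a.1 : ℕ) : ℝ) ^ 2 ≤ E := by
      rw [hE]
      gcongr
    linarith
  · have h6 := card_resN_le B C h1 (hPA _ h1 h2) a.2 A1 B1 0 T0 hAB hT0
    have h7 : ∑ z ∈ famN A B C a0 A1 B1 T0 q r, sqn A B C a.1 a.2 z.1 z.2 ≤
        ∑ s ∈ Finset.Ioc A1 B1, ∑ t ∈ Finset.Ioc 0 T0, sqn A B C a.1 a.2 s t := by
      rw [← Finset.sum_product']
      apply Finset.sum_le_sum_of_subset_of_nonneg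
      · exact Finset.filter_subset _ _
      · intro z _ _
        exact (sqn_nonneg' _ _ _ _ _ _ _)
    have h8 : 2 * ((T0 - 0 : ℤ) : ℝ) * (((B1 - A1 : ℤ) : ℝ) / a.1 + 1) ≤
        2 * (l : ℝ) * ((l : ℝ) / V + 1) := by
      have h9 : V < (a.1 : ℝ) := not_le.1 hpV
      have e : ((T0 - 0 : ℤ) : ℝ) = (T0 : ℝ) := by push_cast; ring
      rw [e] at hT0' ⊢
      have h10 : ((B1 - A1 : ℤ) : ℝ) / a.1 ≤ (l : ℝ) / V := by
        apply div_le_div₀ (by linarith) hL1 hV0 h9.le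
      have h11 : 0 ≤ ((B1 - A1 : ℤ) : ℝ) / a.1 := by positivity
      apply mul_le_mul _ (by linarith) (by linarith) (by positivity)
      linarith
    have h9 : 0 ≤ 2 * XN A B C a0 A1 B1 T0 q r / P := by positivity
    linarith

/-- the local densities of the sieve -/
theorem densN (h : FD D a0 A B C) (P α : ℝ) (hα : 0 < α) (hα1 : α ≤ 1) (Y q : ℕ) :
    ∀ p ∈ sSN D a0 P Y q, 0 ≤ av p (xpN A B C P α p) ∧ av p (xpN A B C P α p) ≤ 1 - 1 / 3 ∧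
      av p (xpN A B C P α p) ≤ 2 / (p : ℝ) ∧
      (¬ IsSquare ((-D : ℤ) : ZMod p) → av p (xpN A B C P α p) ≤ 1 / (p : ℝ) ^ 2) ∧
      (P < (p : ℝ) → av p (xpN A B C P α p) ≤ (1 - α) * (2 / (p : ℝ))) := by
  intro p hp
  obtain ⟨h1, h2, h3, h3', h4⟩ := (mem_sSN D a0 P Y q p).1 hp
  obtain ⟨hp2, hpD⟩ := h.ne2 h1 h3'
  have hp0 : (0 : ℝ) < p := by exact_mod_cast h1.pos
  have e : av p (xpN A B C P α p) = wp P α p * av p (sqn A B C p 0) := av_smul p _ _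
  obtain ⟨w0, w1⟩ := wp_01 P α hα hα1 p
  have a0' : 0 ≤ av p (sqn A B C p 0) := av_nonneg _ _ fun s t => (sqn_01 A B C p 0 s t).1
  have hle : av p (xpN A B C P α p) ≤ av p (sqn A B C p 0) := by
    rw [e]
    exact mul_le_of_le_one_left a0' w1
  have h5 := av_sqn_le' h.disc h1 hp2 hpD 0
  refine ⟨by rw [e]; positivity, ?_, hle.trans h5, ?_, ?_⟩
  · have h6 : (3 : ℝ) ≤ p := by
      have := h1.two_le
      exact_mod_cast (by omega : 3 ≤ p)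
    refine (hle.trans h5).trans ?_
    rw [div_le_iff₀ hp0]
    linarith
  · intro hn
    exact hle.trans (av_sqn_inert' h.disc h1 hp2 hpD hn)
  · intro hPp
    rw [e]
    have : wp P α p = 1 - α := by
      unfold wp
      rw [if_neg (not_le.2 hPp)]
    rw [this]
    exact mul_le_mul_of_nonneg_left h5 (by linarith)

/-- the sieve applied to the family -/
theorem famN_main (hns : ¬ IsSquare (-D)) (ha : 0 < a0)
    (hdv : ∀ p : ℕ, p.Prime → (p : ℤ) ∣ 2 * D → p ∣ a0)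
    (α : ℝ) (hα : 0 < α) (hα1 : α ≤ 1) : ∃ (k : ℕ) (c : ℝ), 0 < c ∧
    ∀ (A B C : ℤ), FD D a0 A B C → ∀ (P : ℝ) (Y q : ℕ) (r : ℤ) (A1 B1 T0 : ℤ) (Λ : ℝ),
    2 ≤ P → P ≤ Y → 0 < q → A1 ≤ B1 → 0 ≤ T0 → ((B1 - A1 : ℤ) : ℝ) ≤ Λ → (T0 : ℝ) ≤ Λ →
    1 / 2 * (XN A B C a0 A1 B1 T0 q r * (c * Real.log P ^ (-α) * Real.log Y ^ (α - 1))) -
        (Y : ℝ) ^ k * (2 * (a0 * q * (Y : ℝ) ^ k) * Λ + (a0 * q * (Y : ℝ) ^ k) ^ 2) ≤
      ∑ z ∈ famN A B C a0 A1 B1 T0 q r, ∏ p ∈ sSN D a0 P Y q, (1 - xpN A B C P α p z.1 z.2) := by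
  obtain ⟨k, hk⟩ := brun_primes 2 3 (by norm_num) (by norm_num)
  obtain ⟨c, hc, hprod⟩ := prodN_ge ha hns hdv α hα hα1
  refine ⟨k, c, hc, ?_⟩
  intro A B C h P Y q r A1 B1 T0 Λ hP hPY hq hAB hT0 hL1 hL2
  have hY1 : 1 ≤ Y := by
    have : (1 : ℝ) ≤ Y := by linarith
    exact_mod_cast this
  have hL0 : (0 : ℝ) ≤ ((B1 - A1 : ℤ) : ℝ) := by exact_mod_cast (by omega : 0 ≤ B1 - A1)
  have hΛ : 0 ≤ Λ := hL0.trans hL1
  have hq' : (0 : ℝ) < q := by exact_mod_cast hq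
  have ha' : (0 : ℝ) < a0 := by exact_mod_cast ha
  have hd := densN h P α hα hα1 Y q
  have h0 := hk (ℤ × ℤ) (famN A B C a0 A1 B1 T0 q r) (fun _ => 1)
    (fun z p => xpN A B C P α p z.1 z.2) (sSN D a0 P Y q) Y
    (fun p => av p (xpN A B C P α p)) (XN A B C a0 A1 B1 T0 q r)
    (2 * (a0 * q * (Y : ℝ) ^ k) * Λ + (a0 * q * (Y : ℝ) ^ k) ^ 2) hY1
    (fun _ _ => zero_le_one) (fun z _ p _ => xpN_01 A B C P α hα hα1 p z.1 z.2)
    (fun p hp => by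
      obtain ⟨h1, h2, _, _, _⟩ := (mem_sSN D a0 P Y q p).1 hp
      exact ⟨h1, by exact_mod_cast h2⟩)
    (fun p hp => ⟨(hd p hp).1, (hd p hp).2.1, (hd p hp).2.2.1⟩) (XN_nonneg A B C a0 hAB hT0 q r)
    (by positivity) (fun T hT hTY => by
      have h1 := famN_sieve h P α hα hα1 hAB hT0 hL1 hL2 hq r T (fun p hp => by
        obtain ⟨h1, _, h3, h4, _⟩ := (mem_sSN D a0 P Y q p).1 (hT hp)
        exact ⟨h1, h3, h4⟩)
      have h2 : ((a0 * q * ∏ p ∈ T, p : ℕ) : ℝ) ≤ a0 * q * (Y : ℝ) ^ k := by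
        rw [Nat.cast_mul, Nat.cast_mul]
        apply mul_le_mul_of_nonneg_left _ (by positivity)
        exact_mod_cast hTY
      simp only [one_mul]
      refine h1.trans ?_
      gcongr)
  have h1 := h0.1
  simp only [one_mul] at h1
  have h2 := hprod P Y (sSN D a0 P Y q) (fun p => av p (xpN A B C P α p)) hP hPY
    (fun p hp => by
      obtain ⟨h1, h2, _, h4, _⟩ := (mem_sSN D a0 P Y q p).1 hp
      exact ⟨h1, h2, h4⟩)
    (fun p hp => ⟨(hd p hp).1, (hd p hp).2.2.1, (hd p hp).2.2.2.1, (hd p hp).2.2.2.2⟩)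
  have h3 := mul_le_mul_of_nonneg_left h2 (XN_nonneg A B C a0 hAB hT0 q r)
  linarith

end Pool.Agent.AQM
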